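import Pool.Agent.H56.FP.WPD

/-! # Weighted tripartite graphs: the first zero cannot occur -/

open Finset

set_option linter.unusedSectionVars false

namespace H56FP

section Gen

variable {K : Type} [Field K] [LinearOrder K] [IsStrictOrderedRing K] {n : ℕ}

/-- weighted vertex sums -/
def WX (g x : M3 K n) (i : ZMod 3) (a : Fin n) : K := ∑ b, g i a b * x i a b

lemma WX_col {g x : M3 K n} (hx : x ∈ WBal g) (i : ZMod 3) (b : Fin n) :
    ∑ a, g i a b * x i a b = WX g x (i + 1) b := by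
  have h := hx.2 (i + 1) b
  rw [e12] at h
  exact h.symm

/-- weighted total -/
def WT (g x : M3 K n) (i : ZMod 3) : K := ∑ a, ∑ b, g i a b * x i a b

lemma WT_const {g x : M3 K n} (hx : x ∈ WBal g) (i : ZMod 3) : WT g x i = WT g x 0 := by
  refine const_of_succ _ (fun i => ?_) i
  unfold WT
  rw [Finset.sum_comm (f := fun a b => g i a b * x i a b)]
  exact Finset.sum_congr rfl fun b _ => (WX_col hx i b).symm

lemma WEd_const {g : M3 K n} {d : ZMod 3 → Fin n → K} {k : K} (S : WSetup g d k) (i : ZMod 3) :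
    Ed g i = Ed g 0 := by
  have h := WT_const (sg_mem S) i
  unfold WT at h
  simp only [g_sg] at h
  exact h

/-- sum of the weights of the triangles -/
def WS (g x : M3 K n) : K :=
  ∑ a, ∑ b, ∑ c, g 0 a b * g 1 b c * g 2 c a * (x 0 a b + x 1 b c + x 2 c a)

/-- weighted sum of squares over the triangles -/
def WQ (g x : M3 K n) : K :=
  ∑ a, ∑ b, ∑ c, g 0 a b * g 1 b c * g 2 c a * (x 0 a b + x 1 b c + x 2 c a) ^ 2

lemma z01 : (0 : ZMod 3) + 1 = 1 := by decide
lemma z02 : (0 : ZMod 3) + 2 = 2 := by decide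
lemma z11 : (1 : ZMod 3) + 1 = 2 := by decide
lemma z12 : (1 : ZMod 3) + 2 = 0 := by decide
lemma z21 : (2 : ZMod 3) + 1 = 0 := by decide
lemma z22 : (2 : ZMod 3) + 2 = 1 := by decide

lemma gWM (g x : M3 K n) (i a b) : g i a b * WM g x i a b
    = ∑ c, g i a b * g (i + 1) b c * g (i + 2) c a * (x i a b + x (i + 1) b c + x (i + 2) c a) := by
  unfold WM
  rw [← mul_assoc, g_sg, Finset.mul_sum]
  exact Finset.sum_congr rfl fun c _ => by ring

lemma WM_sum (g x : M3 K n) : ∑ a, ∑ b, g 0 a b * WM g x 0 a b = WS g x := by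
  unfold WS
  refine Finset.sum_congr rfl fun a _ => Finset.sum_congr rfl fun b _ => ?_
  rw [gWM, z01, z02]

lemma wip_eq_WQ (g x : M3 K n) : wip g x (WM g x) = WQ g x := by
  unfold wip
  rw [sum3]
  have key : ∀ i : ZMod 3, ∑ a, ∑ b, g i a b * x i a b * WM g x i a b
      = ∑ a, ∑ b, ∑ c, g i a b * g (i + 1) b c * g (i + 2) c a *
        (x i a b + x (i + 1) b c + x (i + 2) c a) * x i a b := by
    intro i
    refine Finset.sum_congr rfl fun a _ => Finset.sum_congr rfl fun b _ => ?_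
    have h : g i a b * x i a b * WM g x i a b = x i a b * (g i a b * WM g x i a b) := by ring
    rw [h, gWM, Finset.mul_sum]
    refine Finset.sum_congr rfl fun c _ => ?_
    ring
  rw [key 0, key 1, key 2, z01, z02, z11, z12, z21, z22]
  have r2 := rot (fun a b c => g 2 a b * g 0 b c * g 1 c a * (x 2 a b + x 0 b c + x 1 c a)
    * x 2 a b)
  rw [← rot (fun a b c => g 1 a b * g 2 b c * g 0 c a * (x 1 a b + x 2 b c + x 0 c a)
    * x 1 a b), ← r2, ← rot (fun a b c => g 2 b c * g 0 c a * g 1 a b *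
      (x 2 b c + x 0 c a + x 1 a b) * x 2 b c)]
  unfold WQ
  simp only [← Finset.sum_add_distrib]
  refine Finset.sum_congr rfl fun a _ => Finset.sum_congr rfl fun b _ =>
    Finset.sum_congr rfl fun c _ => ?_
  ring

lemma w3_nonneg {g : M3 K n} {d : ZMod 3 → Fin n → K} {k : K} (S : WSetup g d k) (a b c) :
    0 ≤ g 0 a b * g 1 b c * g 2 c a :=
  mul_nonneg (mul_nonneg (S.g0 _ _ _) (S.g0 _ _ _)) (S.g0 _ _ _)

lemma w_cs_triangles {g : M3 K n} {d : ZMod 3 → Fin n → K} {k : K} (S : WSetup g d k)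
    (x : M3 K n) : WS g x ^ 2 ≤ NT g 0 * WQ g x := by
  have h := Finset.sum_sq_le_sum_mul_sum_of_sq_le_mul (R := K)
    (Finset.univ : Finset (Fin n × Fin n × Fin n))
    (r := fun p => g 0 p.1 p.2.1 * g 1 p.2.1 p.2.2 * g 2 p.2.2 p.1 *
      (x 0 p.1 p.2.1 + x 1 p.2.1 p.2.2 + x 2 p.2.2 p.1))
    (f := fun p => g 0 p.1 p.2.1 * g 1 p.2.1 p.2.2 * g 2 p.2.2 p.1)
    (g := fun p => g 0 p.1 p.2.1 * g 1 p.2.1 p.2.2 * g 2 p.2.2 p.1 *
      (x 0 p.1 p.2.1 + x 1 p.2.1 p.2.2 + x 2 p.2.2 p.1) ^ 2)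
    (fun p _ => w3_nonneg S _ _ _)
    (fun p _ => mul_nonneg (w3_nonneg S _ _ _) (sq_nonneg _))
    (fun p _ => le_of_eq (by ring))
  have e1 : WS g x = ∑ p : Fin n × Fin n × Fin n,
      (g 0 p.1 p.2.1 * g 1 p.2.1 p.2.2 * g 2 p.2.2 p.1 *
      (x 0 p.1 p.2.1 + x 1 p.2.1 p.2.2 + x 2 p.2.2 p.1)) := by
    rw [Fintype.sum_prod_type]
    unfold WS
    refine Finset.sum_congr rfl fun a _ => ?_
    rw [Fintype.sum_prod_type]
  have e2 : NT g 0 = ∑ p : Fin n × Fin n × Fin n,
      (g 0 p.1 p.2.1 * g 1 p.2.1 p.2.2 * g 2 p.2.2 p.1) := by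
    rw [Fintype.sum_prod_type]
    unfold NT
    refine Finset.sum_congr rfl fun a _ => ?_
    rw [Fintype.sum_prod_type]
    refine Finset.sum_congr rfl fun b _ => Finset.sum_congr rfl fun c _ => ?_
    rw [z01, z02]
  have e3 : WQ g x = ∑ p : Fin n × Fin n × Fin n,
      (g 0 p.1 p.2.1 * g 1 p.2.1 p.2.2 * g 2 p.2.2 p.1 *
      (x 0 p.1 p.2.1 + x 1 p.2.1 p.2.2 + x 2 p.2.2 p.1) ^ 2) := by
    rw [Fintype.sum_prod_type]
    unfold WQ
    refine Finset.sum_congr rfl fun a _ => ?_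
    rw [Fintype.sum_prod_type]
  rw [e1, e2, e3]
  exact h

lemma w_cs_edges {g : M3 K n} {d : ZMod 3 → Fin n → K} {k : K} (S : WSetup g d k) (x : M3 K n)
    (i : ZMod 3) : WT g x i ^ 2 ≤ Ed g i * ∑ a, ∑ b, g i a b * x i a b ^ 2 := by
  have h := Finset.sum_sq_le_sum_mul_sum_of_sq_le_mul (R := K)
    (Finset.univ : Finset (Fin n × Fin n))
    (r := fun p => g i p.1 p.2 * x i p.1 p.2)
    (f := fun p => g i p.1 p.2)
    (g := fun p => g i p.1 p.2 * x i p.1 p.2 ^ 2)
    (fun p _ => S.g0 _ _ _)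
    (fun p _ => mul_nonneg (S.g0 _ _ _) (sq_nonneg _))
    (fun p _ => le_of_eq (by ring))
  rw [Fintype.sum_prod_type, Fintype.sum_prod_type, Fintype.sum_prod_type] at h
  exact h

lemma WNT_ge {g : M3 K n} {d : ZMod 3 → Fin n → K} {k : K} (S : WSetup g d k) :
    ((n : K) - 2 * k) * Ed g 0 ≤ NT g 0 := by
  unfold Ed NT
  rw [Finset.mul_sum]
  refine Finset.sum_le_sum fun a _ => ?_
  rw [Finset.mul_sum]
  refine Finset.sum_le_sum fun b _ => ?_
  have h := wcommon S 0 a b
  have h1 := S.dk 0 a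
  have h2 := S.dk (0 + 1) b
  have : ∑ c, g 0 a b * g (0 + 1) b c * g (0 + 2) c a
      = g 0 a b * ∑ c, g (0 + 1) b c * g (0 + 2) c a := by
    rw [Finset.mul_sum]
    exact Finset.sum_congr rfl fun c _ => by ring
  rw [this, mul_comm]
  exact mul_le_mul_of_nonneg_left (by linarith) (S.g0 _ _ _)

/-- The arithmetic of the lower bound of the total weight. -/
lemma tot_arith {n k σ e X N s Q q : K} (hk0 : 0 ≤ k) (hk : 4 * k < n)
    (hcrit : 6 * k * N < e ^ 2) (hσ : 0 ≤ σ) (hS : s + σ * X = e) (hQ : Q + σ * q = 3 * X)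
    (hC1 : s ^ 2 ≤ N * Q) (hC2 : 3 * X ^ 2 ≤ e * q) (hN : (n - 2 * k) * e ≤ N) (hE0 : 0 ≤ e)
    (hX0 : 0 ≤ X) : 2 * k < X + σ / 2 := by
  have hNT0 : 0 ≤ N := le_trans (mul_nonneg (by linarith) hE0) hN
  have hD : e ^ 2 ≤ (3 * N + σ * e) * X := by
    rcases le_or_gt s 0 with h | h
    · have h1 : e ≤ σ * X := by linarith
      nlinarith [mul_nonneg hNT0 hX0, mul_le_mul_of_nonneg_left h1 hE0]
    · have h1 : e * s ^ 2 ≤ 3 * N * X * s := by
        have h2 : e * s ^ 2 ≤ e * (N * Q) := mul_le_mul_of_nonneg_left hC1 hE0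
        have h3 : e * (N * Q) = N * (3 * X * e - σ * (e * q)) := by
          have : Q = 3 * X - σ * q := by linarith
          rw [this]; ring
        have h4 : N * (3 * X * e - σ * (e * q)) ≤ N * (3 * X * e - σ * (3 * X ^ 2)) := by
          apply mul_le_mul_of_nonneg_left _ hNT0
          have := mul_le_mul_of_nonneg_left hC2 hσ
          linarith
        have h5 : N * (3 * X * e - σ * (3 * X ^ 2)) = 3 * N * X * s := by
          have : s = e - σ * X := by linarith
          rw [this]; ring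
        linarith
      have h6 : e * s ≤ 3 * N * X := by
        have h7 : (e * s) * s ≤ (3 * N * X) * s := by
          have : (e * s) * s = e * s ^ 2 := by ring
          rw [this]; exact h1
        exact le_of_mul_le_mul_right h7 h
      have h8 : e * s = e ^ 2 - σ * e * X := by
        have : s = e - σ * X := by linarith
        rw [this]; ring
      linarith
  by_contra hcon
  push Not at hcon
  have h1 : σ ≤ 2 * (2 * k - X) := by linarith
  have hu : 0 ≤ 2 * k - X := by linarith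
  have h2 : σ * e * X ≤ 2 * (2 * k - X) * e * X := by
    have := mul_nonneg hE0 hX0
    nlinarith
  have h3 : 4 * k * e ≤ 3 * N := by
    nlinarith
  have h4 : e ^ 2 ≤ 3 * N * X + 2 * (2 * k - X) * e * X := by linarith
  have h5 : 2 * (2 * k - X) * e * X ≤ (2 * k - X) * (4 * k * e) := by
    have h6 : 0 ≤ (2 * k - X) * e := mul_nonneg hu hE0
    nlinarith
  have h6 : (2 * k - X) * (4 * k * e) ≤ (2 * k - X) * (3 * N) :=
    mul_le_mul_of_nonneg_left h3 hu
  nlinarith

lemma w_tot_lower {g : M3 K n} {d : ZMod 3 → Fin n → K} {k : K} (S : WSetup g d k) (hk0 : 0 ≤ k)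
    (hk : 4 * k < n) (hcrit : 6 * k * NT g 0 < Ed g 0 ^ 2) {σ : K} (hσ : 0 ≤ σ) {x : M3 K n}
    (hx : x ∈ WBal g) (he : WM g x + σ • x = sg g) (hx0 : ∀ i a b, 0 ≤ x i a b) :
    2 * k < WT g x 0 + σ / 2 := by
  have hpt : ∀ i a b, WM g x i a b + σ * x i a b = sg g i a b := by
    intro i a b
    have := congrFun (congrFun (congrFun he i) a) b
    simpa [Pi.add_apply, Pi.smul_apply, smul_eq_mul] using this
  have hS : WS g x + σ * WT g x 0 = Ed g 0 := by
    rw [← WM_sum]
    unfold Ed WT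
    rw [Finset.mul_sum, ← Finset.sum_add_distrib]
    refine Finset.sum_congr rfl fun a _ => ?_
    rw [Finset.mul_sum, ← Finset.sum_add_distrib]
    refine Finset.sum_congr rfl fun b _ => ?_
    have h := hpt 0 a b
    have h' := g_sg g 0 a b
    linear_combination (g 0 a b) * h + h'
  have hQ : WQ g x + σ * wn2 g x = 3 * WT g x 0 := by
    have h1 : wip g x (WM g x + σ • x) = wip g x (sg g) := by rw [he]
    rw [wip_add, wip_smul, wip_self, wip_eq_WQ] at h1
    rw [h1]
    have h2 : wip g x (sg g) = ∑ i, WT g x i := by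
      unfold wip WT
      refine Finset.sum_congr rfl fun i _ => Finset.sum_congr rfl fun a _ =>
        Finset.sum_congr rfl fun b _ => ?_
      linear_combination (x i a b) * g_sg g i a b
    rw [h2, sum3, WT_const hx 1, WT_const hx 2]
    ring
  have hC2 : 3 * WT g x 0 ^ 2 ≤ Ed g 0 * wn2 g x := by
    have h : ∀ i, WT g x 0 ^ 2 ≤ Ed g 0 * ∑ a, ∑ b, g i a b * x i a b ^ 2 := by
      intro i
      have := w_cs_edges S x i
      rwa [WT_const hx i, WEd_const S i] at this
    unfold wn2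
    rw [sum3, mul_add, mul_add]
    linarith [h 0, h 1, h 2]
  have hE0 : 0 ≤ Ed g 0 := by
    unfold Ed
    exact Finset.sum_nonneg fun a _ => Finset.sum_nonneg fun b _ => S.g0 _ _ _
  have hX0 : 0 ≤ WT g x 0 := by
    unfold WT
    exact Finset.sum_nonneg fun a _ => Finset.sum_nonneg fun b _ =>
      mul_nonneg (S.g0 _ _ _) (hx0 _ _ _)
  exact tot_arith hk0 hk hcrit hσ hS hQ (w_cs_triangles S x) hC2 (WNT_ge S) hE0 hX0

/-- The vertex inequality. -/
lemma w_vertex_ineq {g : M3 K n} {d : ZMod 3 → Fin n → K} {k : K} (S : WSetup g d k) {σ : K}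
    {x : M3 K n} (hx : x ∈ WBal g) (he : WM g x + σ • x = sg g) (hx0 : ∀ i a b, 0 ≤ x i a b)
    (i : ZMod 3) (a : Fin n) :
    (2 * (n : K) - 2 * d i a - 2 * k + σ) * WX g x i a + WT g x 0
      - ∑ b, (1 - g i a b) * WX g x (i + 1) b - ∑ c, (1 - g (i + 2) c a) * WX g x (i + 2) c
      ≤ n - d i a := by
  have hpt : ∀ i a b, WM g x i a b + σ * x i a b = sg g i a b := by
    intro i a b
    have := congrFun (congrFun (congrFun he i) a) b
    simpa [Pi.add_apply, Pi.smul_apply, smul_eq_mul] using this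
  have h1 : ∑ b, g i a b * WM g x i a b + σ * WX g x i a = n - d i a := by
    have : ∑ b, (g i a b * WM g x i a b + σ * (g i a b * x i a b)) = ∑ b, g i a b := by
      refine Finset.sum_congr rfl fun b _ => ?_
      have h := hpt i a b
      linear_combination (g i a b) * h + g_sg g i a b
    rw [Finset.sum_add_distrib, ← Finset.mul_sum] at this
    have h2 := S.row i a
    rw [Finset.sum_sub_distrib] at h2
    simp only [sum_const, card_univ, Fintype.card_fin, nsmul_eq_mul, mul_one] at h2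
    unfold WX
    linarith
  have h2 : ∑ b, g i a b * WM g x i a b
      = ∑ b, g i a b * x i a b * (∑ c, g (i + 1) b c * g (i + 2) c a)
        + ∑ c, g (i + 2) c a * x (i + 2) c a * (∑ b, g i a b * g (i + 1) b c)
        + ∑ b, ∑ c, g i a b * g (i + 2) c a * (g (i + 1) b c * x (i + 1) b c) := by
    have e2 : ∑ c, g (i + 2) c a * x (i + 2) c a * (∑ b, g i a b * g (i + 1) b c)
        = ∑ b, ∑ c, g (i + 2) c a * x (i + 2) c a * (g i a b * g (i + 1) b c) := by
      rw [Finset.sum_comm]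
      exact Finset.sum_congr rfl fun c _ => Finset.mul_sum _ _ _
    rw [e2, ← Finset.sum_add_distrib, ← Finset.sum_add_distrib]
    refine Finset.sum_congr rfl fun b _ => ?_
    rw [gWM, Finset.mul_sum, ← Finset.sum_add_distrib, ← Finset.sum_add_distrib]
    refine Finset.sum_congr rfl fun c _ => ?_
    ring
  have h3 : ((n : K) - k - d i a) * WX g x i a
      ≤ ∑ b, g i a b * x i a b * (∑ c, g (i + 1) b c * g (i + 2) c a) := by
    unfold WX
    rw [Finset.mul_sum]
    refine Finset.sum_le_sum fun b _ => ?_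
    have h := wcommon S i a b
    have h' := S.dk (i + 1) b
    rw [mul_comm]
    exact mul_le_mul_of_nonneg_left (by linarith) (mul_nonneg (S.g0 _ _ _) (hx0 _ _ _))
  have h4 : ((n : K) - k - d i a) * WX g x i a
      ≤ ∑ c, g (i + 2) c a * x (i + 2) c a * (∑ b, g i a b * g (i + 1) b c) := by
    have hX : WX g x i a = ∑ c, g (i + 2) c a * x (i + 2) c a := hx.2 i a
    rw [hX, Finset.mul_sum]
    refine Finset.sum_le_sum fun c _ => ?_
    have h := wcommon S (i + 2) c a
    rw [e21, e22] at h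
    have h' := S.dk (i + 2) c
    rw [mul_comm]
    exact mul_le_mul_of_nonneg_left (by linarith) (mul_nonneg (S.g0 _ _ _) (hx0 _ _ _))
  have h5 : WT g x 0 - ∑ b, (1 - g i a b) * WX g x (i + 1) b
      - ∑ c, (1 - g (i + 2) c a) * WX g x (i + 2) c
      ≤ ∑ b, ∑ c, g i a b * g (i + 2) c a * (g (i + 1) b c * x (i + 1) b c) := by
    have e1 : ∑ b, (1 - g i a b) * WX g x (i + 1) b
        = ∑ b, ∑ c, (1 - g i a b) * (g (i + 1) b c * x (i + 1) b c) := by
      refine Finset.sum_congr rfl fun b _ => ?_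
      unfold WX
      rw [Finset.mul_sum]
    have e2 : ∑ c, (1 - g (i + 2) c a) * WX g x (i + 2) c
        = ∑ b, ∑ c, (1 - g (i + 2) c a) * (g (i + 1) b c * x (i + 1) b c) := by
      rw [Finset.sum_comm]
      refine Finset.sum_congr rfl fun c _ => ?_
      rw [← Finset.mul_sum, WX_col hx (i + 1) c, e11]
    have e3 : WT g x 0 = ∑ b, ∑ c, g (i + 1) b c * x (i + 1) b c := (WT_const hx (i + 1)).symm
    rw [e1, e2, e3, ← Finset.sum_sub_distrib, ← Finset.sum_sub_distrib]
    refine Finset.sum_le_sum fun b _ => ?_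
    rw [← Finset.sum_sub_distrib, ← Finset.sum_sub_distrib]
    refine Finset.sum_le_sum fun c _ => ?_
    have hp : 0 ≤ g (i + 1) b c * x (i + 1) b c := mul_nonneg (S.g0 _ _ _) (hx0 _ _ _)
    have h6 : 0 ≤ (1 - g i a b) * (1 - g (i + 2) c a) :=
      mul_nonneg (by linarith [S.g1 i a b]) (by linarith [S.g1 (i + 2) c a])
    nlinarith [mul_nonneg h6 hp]
  linarith

/-- The first zero cannot occur. -/
theorem w_no_zero {g : M3 K n} {d : ZMod 3 → Fin n → K} {k : K} (S : WSetup g d k) (hk0 : 0 ≤ k)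
    (hk : 4 * k < n) (hcrit : 6 * k * NT g 0 < Ed g 0 ^ 2) {σ : K} (hσ : 0 ≤ σ) {x : M3 K n}
    (hx : x ∈ WBal g) (he : WM g x + σ • x = sg g) (hx0 : ∀ i a b, 0 ≤ x i a b)
    (i : ZMod 3) (a b : Fin n) (hg : g i a b ≠ 0) : x i a b ≠ 0 := by
  intro hz
  have hT := w_tot_lower S hk0 hk hcrit hσ hx he hx0
  have hlt : ∀ j v, WX g x j v < 1 / 2 := by
    have : Nonempty (ZMod 3 × Fin n) := ⟨(i, a)⟩
    obtain ⟨⟨j, v⟩, hmax⟩ := Finite.exists_max (fun p : ZMod 3 × Fin n => WX g x p.1 p.2)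
    have hm : WX g x j v < 1 / 2 := by
      have h1 := w_vertex_ineq S hx he hx0 j v
      have h2 : ∑ b, (1 - g j v b) * WX g x (j + 1) b ≤ d j v * WX g x j v := by
        rw [← S.row j v, Finset.sum_mul]
        refine Finset.sum_le_sum fun b _ => ?_
        exact mul_le_mul_of_nonneg_left (hmax (j + 1, b)) (by linarith [S.g1 j v b])
      have h3 : ∑ c, (1 - g (j + 2) c v) * WX g x (j + 2) c ≤ d j v * WX g x j v := by
        rw [← S.col j v, Finset.sum_mul]
        refine Finset.sum_le_sum fun c _ => ?_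
        exact mul_le_mul_of_nonneg_left (hmax (j + 2, c)) (by linarith [S.g1 (j + 2) c v])
      have h4 := S.dk j v
      have h5 : (2 * (n : K) - 4 * d j v - 2 * k + σ) * WX g x j v
          < (2 * (n : K) - 4 * d j v - 2 * k + σ) * (1 / 2) := by
        linarith
      have h6 : 0 < 2 * (n : K) - 4 * d j v - 2 * k + σ := by linarith
      exact lt_of_mul_lt_mul_left h5 h6.le
    intro j' v'
    exact lt_of_le_of_lt (hmax (j', v')) hm
  have h1 : WM g x i a b = 1 := by
    have := congrFun (congrFun (congrFun he i) a) b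
    simp only [Pi.add_apply, Pi.smul_apply, smul_eq_mul, hz, mul_zero, add_zero] at this
    rw [this]
    unfold sg
    rw [if_neg hg]
  have h2 : WM g x i a b ≤ WX g x (i + 1) b + WX g x i a := by
    unfold WM
    have hsg : sg g i a b = 1 := by unfold sg; rw [if_neg hg]
    rw [hsg, one_mul]
    have hX : WX g x i a = ∑ c, g (i + 2) c a * x (i + 2) c a := hx.2 i a
    rw [hX]
    unfold WX
    rw [← Finset.sum_add_distrib]
    refine Finset.sum_le_sum fun c _ => ?_
    rw [hz, zero_add]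
    have p1 : 0 ≤ g (i + 1) b c * x (i + 1) b c := mul_nonneg (S.g0 _ _ _) (hx0 _ _ _)
    have p2 : 0 ≤ g (i + 2) c a * x (i + 2) c a := mul_nonneg (S.g0 _ _ _) (hx0 _ _ _)
    have q1 : g (i + 1) b c * x (i + 1) b c * g (i + 2) c a ≤ g (i + 1) b c * x (i + 1) b c * 1 :=
      mul_le_mul_of_nonneg_left (S.g1 _ _ _) p1
    have q2 : g (i + 2) c a * x (i + 2) c a * g (i + 1) b c ≤ g (i + 2) c a * x (i + 2) c a * 1 :=
      mul_le_mul_of_nonneg_left (S.g1 _ _ _) p2
    linarith
  have h3 := hlt (i + 1) b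
  have h4 := hlt i a
  linarith

end Gen

end H56FP
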