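import Pool.Agent.H56.FP.Sol

/-! # A priori positivity -/

open Finset

set_option linter.unusedSectionVars false

namespace H56FP

section Gen

variable {K : Type} [Field K] [LinearOrder K] [IsStrictOrderedRing K] {n : ℕ}

/-- number of triangles, seen from part `i` -/
def NT (g : M3 K n) (i : ZMod 3) : K :=
  ∑ a, ∑ b, ∑ c, g i a b * g (i + 1) b c * g (i + 2) c a

/-- number of edges between part `i` and part `i+1` -/
def Ed (g : M3 K n) (i : ZMod 3) : K := ∑ a, ∑ b, g i a b

lemma NT_succ (g : M3 K n) (i : ZMod 3) : NT g (i + 1) = NT g i := by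
  unfold NT
  rw [e11, e12, ← rot (fun a b c => g i a b * g (i + 1) b c * g (i + 2) c a),
    ← rot (fun a b c => g i b c * g (i + 1) c a * g (i + 2) a b)]
  refine Finset.sum_congr rfl fun a _ => Finset.sum_congr rfl fun b _ =>
    Finset.sum_congr rfl fun c _ => ?_
  ring

lemma const_of_succ {α : Type} (f : ZMod 3 → α) (h : ∀ i, f (i + 1) = f i) (i : ZMod 3) :
    f i = f 0 := by
  have h1 : f 1 = f 0 := by simpa using h 0
  have h2 : f 2 = f 1 := by
    have := h 1
    rwa [show (1 : ZMod 3) + 1 = 2 by decide] at this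
  have h3 : i = 0 ∨ i = 1 ∨ i = 2 := by revert i; decide
  rcases h3 with rfl | rfl | rfl
  · rfl
  · exact h1
  · exact h2.trans h1

lemma NT_const (g : M3 K n) (i : ZMod 3) : NT g i = NT g 0 :=
  const_of_succ _ (NT_succ g) i

/-- vertex sums -/
def Xs (x : M3 K n) (i : ZMod 3) (a : Fin n) : K := ∑ b, x i a b

lemma Xs_col {g x : M3 K n} (hx : x ∈ Bal g) (i : ZMod 3) (b : Fin n) :
    ∑ a, x i a b = Xs x (i + 1) b := by
  have h := hx.2 (i + 1) b
  rw [e12] at h
  exact h.symm

lemma tot_succ {g x : M3 K n} (hx : x ∈ Bal g) (i : ZMod 3) : Ed x (i + 1) = Ed x i := by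
  unfold Ed
  rw [Finset.sum_comm (f := fun a b => x i a b)]
  exact Finset.sum_congr rfl fun b _ => (Xs_col hx i b).symm

lemma tot_const {g x : M3 K n} (hx : x ∈ Bal g) (i : ZMod 3) : Ed x i = Ed x 0 :=
  const_of_succ _ (tot_succ hx) i

lemma sum3 (f : ZMod 3 → K) : ∑ i, f i = f 0 + f 1 + f 2 := Fin.sum_univ_three f

/-- sum of the weights of the triangles -/
def Ssum (g x : M3 K n) : K :=
  ∑ a, ∑ b, ∑ c, g 0 a b * g 1 b c * g 2 c a * (x 0 a b + x 1 b c + x 2 c a)

/-- sum of the squares of the weights of the triangles -/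
def Qsum (g x : M3 K n) : K :=
  ∑ a, ∑ b, ∑ c, g 0 a b * g 1 b c * g 2 c a * (x 0 a b + x 1 b c + x 2 c a) ^ 2

lemma Mop_sum {g x : M3 K n} (hs : ∀ i a b, g i a b * x i a b = x i a b) :
    ∑ a, ∑ b, Mop g x 0 a b = Ssum g x := by
  unfold Ssum Mop
  refine Finset.sum_congr rfl fun a _ => Finset.sum_congr rfl fun b _ => ?_
  rw [Finset.mul_sum]
  refine Finset.sum_congr rfl fun c _ => ?_
  have h1 := hs 1 b c
  have h2 := hs 2 c a
  rw [show (0 : ZMod 3) + 1 = 1 by decide, show (0 : ZMod 3) + 2 = 2 by decide]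
  linear_combination (-(g 0 a b * g 2 c a)) * h1 + (-(g 0 a b * g 1 b c)) * h2

lemma Qf_eq_Qsum {g x : M3 K n} (hs : ∀ i a b, g i a b * x i a b = x i a b) :
    Qf g x = Qsum g x := by
  unfold Qf
  rw [sum3]
  have key : ∀ i : ZMod 3, ∑ a, ∑ b, x i a b * Mop g x i a b
      = ∑ a, ∑ b, ∑ c, g i a b * g (i + 1) b c * g (i + 2) c a *
        (x i a b + x (i + 1) b c + x (i + 2) c a) * x i a b := by
    intro i
    refine Finset.sum_congr rfl fun a _ => Finset.sum_congr rfl fun b _ => ?_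
    unfold Mop
    rw [Finset.mul_sum, Finset.mul_sum]
    refine Finset.sum_congr rfl fun c _ => ?_
    have h0 := hs i a b
    have h1 := hs (i + 1) b c
    have h2 := hs (i + 2) c a
    linear_combination (-(x i a b * g i a b * g (i + 2) c a)) * h1
      + (-(x i a b * g i a b * g (i + 1) b c)) * h2
  rw [key 0, key 1, key 2]
  rw [show (0 : ZMod 3) + 1 = 1 by decide, show (0 : ZMod 3) + 2 = 2 by decide,
    show (1 : ZMod 3) + 1 = 2 by decide, show (1 : ZMod 3) + 2 = 0 by decide,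
    show (2 : ZMod 3) + 1 = 0 by decide, show (2 : ZMod 3) + 2 = 1 by decide]
  have r1 := rot (fun a b c => g 1 b c * g 2 c a * g 0 a b * (x 1 b c + x 2 c a + x 0 a b)
    * x 1 b c)
  have r2 := rot (fun a b c => g 2 a b * g 0 b c * g 1 c a * (x 2 a b + x 0 b c + x 1 c a)
    * x 2 a b)
  rw [← rot (fun a b c => g 1 a b * g 2 b c * g 0 c a * (x 1 a b + x 2 b c + x 0 c a)
    * x 1 a b), ← r2, ← rot (fun a b c => g 2 b c * g 0 c a * g 1 a b *
      (x 2 b c + x 0 c a + x 1 a b) * x 2 b c)]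
  unfold Qsum
  simp only [← Finset.sum_add_distrib]
  refine Finset.sum_congr rfl fun a _ => Finset.sum_congr rfl fun b _ =>
    Finset.sum_congr rfl fun c _ => ?_
  ring

end Gen

end H56FP
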