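import Mathlib

/-! # Balanced functions on a tripartite graph and the triangle operator

Three parts, each a copy of `Fin n`, indexed by `ZMod 3`.  A family `g i a b` (`a` in part `i`,
`b` in part `i+1`) of `0/1` matrices is the edge indicator.
-/

open Finset

set_option linter.unusedSectionVars false

namespace H56FP

/-- A cyclic triple of `n × n` matrices. -/
abbrev M3 (K : Type) (n : ℕ) : Type := ZMod 3 → Fin n → Fin n → K

section Gen

variable {K : Type} [Field K] [LinearOrder K] [IsStrictOrderedRing K] {n : ℕ}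

/-- The hypotheses: `g` is `0/1`; the vertex `a` of part `i` misses `d i a` vertices of each of
the two other parts; `d i a ≤ k`. -/
structure Setup (g : M3 K n) (d : ZMod 3 → Fin n → K) (k : K) : Prop where
  g01 : ∀ i a b, g i a b = 0 ∨ g i a b = 1
  row : ∀ i a, ∑ b, (1 - g i a b) = d i a
  col : ∀ i a, ∑ c, (1 - g (i + 2) c a) = d i a
  dk : ∀ i a, d i a ≤ k

/-- The triangle operator. -/
def Mop (g x : M3 K n) : M3 K n := fun i a b =>
  g i a b * ∑ c, (x i a b * g (i + 1) b c * g (i + 2) c a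
    + x (i + 1) b c * g (i + 2) c a + g (i + 1) b c * x (i + 2) c a)

/-- Balanced functions supported on the edges. -/
def Bal (g : M3 K n) : Submodule K (M3 K n) where
  carrier := {x | (∀ i a b, g i a b * x i a b = x i a b) ∧
    ∀ i a, ∑ b, x i a b = ∑ c, x (i + 2) c a}
  add_mem' := by
    rintro x y ⟨hx, hx'⟩ ⟨hy, hy'⟩
    refine ⟨fun i a b => ?_, fun i a => ?_⟩
    · simp only [Pi.add_apply, mul_add, hx, hy]
    · simp only [Pi.add_apply, Finset.sum_add_distrib, hx', hy']
  zero_mem' := by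
    refine ⟨fun i a b => by simp, fun i a => by simp⟩
  smul_mem' := by
    rintro c x ⟨hx, hx'⟩
    refine ⟨fun i a b => ?_, fun i a => ?_⟩
    · simp only [Pi.smul_apply, smul_eq_mul]
      rw [mul_left_comm, hx]
    · simp only [Pi.smul_apply, smul_eq_mul, ← Finset.mul_sum, hx']

lemma e12 (i : ZMod 3) : i + 1 + 2 = i := by revert i; decide
lemma e11 (i : ZMod 3) : i + 1 + 1 = i + 2 := by revert i; decide
lemma e21 (i : ZMod 3) : i + 2 + 1 = i := by revert i; decide
lemma e22 (i : ZMod 3) : i + 2 + 2 = i + 1 := by revert i; decide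

lemma rot (F : Fin n → Fin n → Fin n → K) :
    ∑ a, ∑ b, ∑ c, F b c a = ∑ a, ∑ b, ∑ c, F a b c := by
  calc ∑ a, ∑ b, ∑ c, F b c a = ∑ b, ∑ a, ∑ c, F b c a := Finset.sum_comm
    _ = ∑ b, ∑ c, ∑ a, F b c a := Finset.sum_congr rfl (fun b _ => Finset.sum_comm)

lemma sum_shift (f : ZMod 3 → K) : ∑ i, f (i + 2) = ∑ i, f i :=
  Equiv.sum_comp (Equiv.addRight (2 : ZMod 3)) f

lemma sum_shift1 (f : ZMod 3 → K) : ∑ i, f (i + 1) = ∑ i, f i :=
  Equiv.sum_comp (Equiv.addRight (1 : ZMod 3)) f

lemma g_nonneg {g : M3 K n} {d : ZMod 3 → Fin n → K} {k : K} (S : Setup g d k) (i a b) :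
    0 ≤ g i a b := by
  rcases S.g01 i a b with h | h <;> rw [h]
  exact zero_le_one

lemma g_le_one {g : M3 K n} {d : ZMod 3 → Fin n → K} {k : K} (S : Setup g d k) (i a b) :
    g i a b ≤ 1 := by
  rcases S.g01 i a b with h | h <;> rw [h]
  exact zero_le_one

lemma g_sq {g : M3 K n} {d : ZMod 3 → Fin n → K} {k : K} (S : Setup g d k) (i a b) :
    g i a b * g i a b = g i a b := by
  rcases S.g01 i a b with h | h <;> rw [h] <;> simp

/-- number of common neighbours is at least `n - d - d'`. -/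
lemma common {g : M3 K n} {d : ZMod 3 → Fin n → K} {k : K} (S : Setup g d k) (i : ZMod 3)
    (a b : Fin n) :
    (n : K) - d (i + 1) b - d i a ≤ ∑ c, g (i + 1) b c * g (i + 2) c a := by
  have h1 : (n : K) - d (i + 1) b - d i a
      = ∑ c : Fin n, (1 - (1 - g (i + 1) b c) - (1 - g (i + 2) c a)) := by
    rw [Finset.sum_sub_distrib, Finset.sum_sub_distrib, S.row, S.col]
    simp
  rw [h1]
  refine Finset.sum_le_sum (fun c _ => ?_)
  rcases S.g01 (i + 1) b c with h | h <;> rcases S.g01 (i + 2) c a with h' | h' <;>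
    rw [h, h'] <;> norm_num

end Gen

end H56FP
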