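import Pool.Agent.H56.FP.Koenig

/-! # Lifting an integral weighting to a blow-up -/

open Finset

set_option linter.unusedSectionVars false

namespace H56FP

/-- A function on `Fin N` with prescribed fibre sizes. -/
lemma exists_fibres {n N : ℕ} (J : Fin n → ℕ) (hJ : ∑ s, J s = N) :
    ∃ φ : Fin N → Fin n, ∀ s, (univ.filter (fun t => φ t = s)).card = J s := by
  classical
  have hc : Fintype.card (Σ s : Fin n, Fin (J s)) = N := by
    rw [Fintype.card_sigma]
    simp only [Fintype.card_fin]
    exact hJ
  let e : Fin N ≃ (Σ s : Fin n, Fin (J s)) := (Fintype.equivFinOfCardEq hc).symm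
  refine ⟨fun t => (e t).1, fun s => ?_⟩
  have h1 : (univ.filter (fun t : Fin N => (e t).1 = s)).card
      = (univ.filter (fun p : (Σ s : Fin n, Fin (J s)) => p.1 = s)).card := by
    refine Finset.card_bij (fun t _ => e t) ?_ ?_ ?_
    · intro t ht
      simpa using ht
    · intro t _ t' _ h
      exact e.injective h
    · intro p hp
      refine ⟨e.symm p, ?_, by simp⟩
      simpa using hp
  rw [h1]
  have h2 : (univ.filter (fun p : (Σ s : Fin n, Fin (J s)) => p.1 = s))
      = (univ : Finset (Fin (J s))).map ⟨fun u => (⟨s, u⟩ : Σ s : Fin n, Fin (J s)),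
          fun u v h => by simpa using h⟩ := by
    ext ⟨s', u⟩
    simp only [mem_filter, mem_univ, true_and, mem_map, Function.Embedding.coeFn_mk]
    constructor
    · rintro rfl
      exact ⟨u, rfl⟩
    · rintro ⟨v, hv⟩
      exact (congrArg Sigma.fst hv).symm
  rw [h2, card_map, card_univ, Fintype.card_fin]

/-- shifting the argument does not change the fibre sizes -/
lemma fibre_shift {n N : ℕ} [NeZero N] (φ : Fin N → Fin n) (i : Fin N) (s : Fin n) :
    (univ.filter (fun j => φ (i + j) = s)).card = (univ.filter (fun t => φ t = s)).card := by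
  refine Finset.card_bij (fun j _ => i + j) ?_ ?_ ?_
  · intro j hj
    simpa using hj
  · intro j _ j' _ h
    exact add_left_cancel h
  · intro t ht
    refine ⟨t - i, ?_, by simp⟩
    simpa using ht

lemma fibre_shift' {n N : ℕ} [NeZero N] (φ : Fin N → Fin n) (j : Fin N) (s : Fin n) :
    (univ.filter (fun i => φ (i + j) = s)).card = (univ.filter (fun t => φ t = s)).card := by
  rw [← fibre_shift φ j s]
  congr 1
  ext i
  simp [add_comm]

lemma prod_count {n N : ℕ} (p : Fin n × Fin N → Prop) [DecidablePred p] :
    (univ.filter p).card = ∑ c, (univ.filter (fun j => p (c, j))).card := by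
  rw [Finset.card_filter, Fintype.sum_prod_type]
  exact Finset.sum_congr rfl fun c _ => (Finset.card_filter _ _).symm

theorem inflate_abs {n N : ℕ} (hN : 0 < N) (P : Fin n → Fin n → Option (Fin n))
    (J : Fin n → Fin n → Fin n → ℕ) (J1 : ∀ r c, ∑ s, J r c s = N) (J2 : ∀ c s, ∑ r, J r c s = N)
    (J3 : ∀ r s, ∑ c, J r c s = N) (JP : ∀ r c s, P r c = some s → J r c s = N)
    (P' : Fin n × Fin N → Fin n × Fin N → Option (Fin n × Fin N))
    (hr' : ∀ a b b' t, P' a b = some t → P' a b' = some t → b = b')
    (hc' : ∀ b a a' t, P' a b = some t → P' a' b = some t → a = a')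
    (hmap : ∀ a b, (P' a b).map Prod.fst = P a.1 b.1) :
    ∃ L : Fin n × Fin N → Fin n × Fin N → Fin n × Fin N,
      (∀ a, Function.Injective (L a)) ∧ (∀ b, Function.Injective (fun a => L a b)) ∧
      ∀ a b t, P' a b = some t → L a b = t := by
  classical
  have : NeZero N := ⟨hN.ne'⟩
  have hex : ∀ r c, ∃ φ : Fin N → Fin n, ∀ s, (univ.filter (fun t => φ t = s)).card = J r c s :=
    fun r c => exists_fibres (J r c) (J1 r c)
  choose cls hcls using hex
  -- no double use in a line
  have nodup_row : ∀ r c c' s, J r c s = N → 0 < J r c' s → c' = c := by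
    intro r c c' s h h0
    by_contra hne
    have h1 : J r c s + J r c' s ≤ ∑ c, J r c s := by
      have := Finset.sum_le_sum_of_subset (f := fun c => J r c s)
        (Finset.subset_univ ({c, c'} : Finset (Fin n)))
      rwa [Finset.sum_pair (Ne.symm hne)] at this
    rw [J3] at h1
    omega
  have nodup_col : ∀ r r' c s, J r c s = N → 0 < J r' c s → r' = r := by
    intro r r' c s h h0
    by_contra hne
    have h1 : J r c s + J r' c s ≤ ∑ r, J r c s := by
      have := Finset.sum_le_sum_of_subset (f := fun r => J r c s)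
        (Finset.subset_univ ({r, r'} : Finset (Fin n)))
      rwa [Finset.sum_pair (Ne.symm hne)] at this
    rw [J2] at h1
    omega
  have Jpos : ∀ r c t, 0 < J r c (cls r c t) := by
    intro r c t
    rw [← hcls r c]
    exact Finset.card_pos.mpr ⟨t, by simp⟩
  -- the classes
  let sc : Fin n × Fin N → Fin n × Fin N → Fin n := fun a b => cls a.1 b.1 (a.2 + b.2)
  have Jpos' : ∀ (a b : Fin n × Fin N) (s : Fin n), sc a b = s → 0 < J a.1 b.1 s := by
    rintro a b _ rfl
    exact Jpos _ _ _
  have rowdeg : ∀ (a : Fin n × Fin N) (s : Fin n),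
      (univ.filter (fun b => sc a b = s)).card = N := by
    intro a s
    rw [prod_count]
    refine Eq.trans ?_ (J3 a.1 s)
    refine Finset.sum_congr rfl fun c _ => ?_
    rw [← hcls a.1 c s]
    exact fibre_shift (cls a.1 c) a.2 s
  have coldeg : ∀ (b : Fin n × Fin N) (s : Fin n),
      (univ.filter (fun a => sc a b = s)).card = N := by
    intro b s
    rw [prod_count]
    refine Eq.trans ?_ (J2 b.1 s)
    refine Finset.sum_congr rfl fun r _ => ?_
    rw [← hcls r b.1 s]
    exact fibre_shift' (cls r b.1) b.2 s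
  -- Koenig for each symbol class
  have hK : ∀ s : Fin n, ∃ col : Fin n × Fin N → Fin n × Fin N → Fin N,
      (∀ a b b', (∀ c, P a.1 c ≠ some s) → (∀ r, P r b.1 ≠ some s) → (∀ r, P r b'.1 ≠ some s) →
        sc a b = s → sc a b' = s → col a b = col a b' → b = b') ∧
      (∀ a a' b, (∀ c, P a.1 c ≠ some s) → (∀ c, P a'.1 c ≠ some s) → (∀ r, P r b.1 ≠ some s) →
        sc a b = s → sc a' b = s → col a b = col a' b → a = a') := by
    intro s
    let A := {a : Fin n × Fin N // ∀ c, P a.1 c ≠ some s}
    let B := {b : Fin n × Fin N // ∀ r, P r b.1 ≠ some s}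
    have d1 : ∀ a : A, (univ.filter (fun b : B => sc a.1 b.1 = s)).card = N := by
      intro a
      refine Eq.trans ?_ (rowdeg a.1 s)
      refine Finset.card_bij (fun b _ => b.1) ?_ ?_ ?_
      · intro b hb
        simpa using hb
      · intro b _ b' _ h
        exact Subtype.ext h
      · intro b hb
        have hb' : sc a.1 b = s := by simpa using hb
        have hB : ∀ r, P r b.1 ≠ some s := by
          intro r hr
          have h1 := JP r b.1 s hr
          have h2 : 0 < J a.1.1 b.1 s := Jpos' a.1 b s hb'
          have h3 := nodup_col r a.1.1 b.1 s h1 h2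
          rw [← h3] at hr
          exact a.2 b.1 hr
        exact ⟨⟨b, hB⟩, by simpa using hb', rfl⟩
    have d2 : ∀ b : B, (univ.filter (fun a : A => sc a.1 b.1 = s)).card = N := by
      intro b
      refine Eq.trans ?_ (coldeg b.1 s)
      refine Finset.card_bij (fun a _ => a.1) ?_ ?_ ?_
      · intro a ha
        simpa using ha
      · intro a _ a' _ h
        exact Subtype.ext h
      · intro a ha
        have ha' : sc a b.1 = s := by simpa using ha
        have hA : ∀ c, P a.1 c ≠ some s := by
          intro c hc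
          have h1 := JP a.1 c s hc
          have h2 : 0 < J a.1 b.1.1 s := Jpos' a b.1 s ha'
          have h3 := nodup_row a.1 c b.1.1 s h1 h2
          rw [← h3] at hc
          exact b.2 a.1 hc
        exact ⟨⟨a, hA⟩, by simpa using ha', rfl⟩
    obtain ⟨col, hc1, hc2⟩ := koenig N hN (fun (a : A) (b : B) => sc a.1 b.1 = s) d1 d2
    refine ⟨fun a b => if h : (∀ c, P a.1 c ≠ some s) ∧ (∀ r, P r b.1 ≠ some s) then
      col ⟨a, h.1⟩ ⟨b, h.2⟩ else 0, ?_, ?_⟩
    · intro a b b' ha hb hb' e1 e2 h
      simp only [dif_pos (And.intro ha hb), dif_pos (And.intro ha hb')] at h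
      exact congrArg Subtype.val (hc1 ⟨a, ha⟩ ⟨b, hb⟩ ⟨b', hb'⟩ e1 e2 h)
    · intro a a' b ha ha' hb e1 e2 h
      simp only [dif_pos (And.intro ha hb), dif_pos (And.intro ha' hb)] at h
      exact congrArg Subtype.val (hc2 ⟨a, ha⟩ ⟨a', ha'⟩ ⟨b, hb⟩ e1 e2 h)
  choose col hcol1 hcol2 using hK
  -- the latin square
  let L : Fin n × Fin N → Fin n × Fin N → Fin n × Fin N := fun a b =>
    match P' a b with
    | some t => t
    | none => (sc a b, col (sc a b) a b)
  have L_some : ∀ a b t, P' a b = some t → L a b = t := by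
    intro a b t h
    simp only [L, h]
  have L_none : ∀ a b, P' a b = none → L a b = (sc a b, col (sc a b) a b) := by
    intro a b h
    simp only [L, h]
  have P_some : ∀ a b t, P' a b = some t → P a.1 b.1 = some t.1 := by
    intro a b t h
    rw [← hmap a b, h]; rfl
  have P_none : ∀ a b, P' a b = none → P a.1 b.1 = none := by
    intro a b h
    rw [← hmap a b, h]; rfl
  have F2r : ∀ a b, P' a b = none → ∀ c, P a.1 c ≠ some (sc a b) := by
    intro a b h c hc
    have h1 := JP a.1 c _ hc
    have h2 : 0 < J a.1 b.1 (sc a b) := Jpos _ _ _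
    have h3 := nodup_row a.1 c b.1 _ h1 h2
    rw [← h3, P_none a b h] at hc
    exact absurd hc (by simp)
  have F2c : ∀ a b, P' a b = none → ∀ r, P r b.1 ≠ some (sc a b) := by
    intro a b h r hr
    have h1 := JP r b.1 _ hr
    have h2 : 0 < J a.1 b.1 (sc a b) := Jpos _ _ _
    have h3 := nodup_col r a.1 b.1 _ h1 h2
    rw [← h3, P_none a b h] at hr
    exact absurd hr (by simp)
  refine ⟨L, ?_, ?_, L_some⟩
  · intro a b b' h
    rcases h1 : P' a b with _ | t <;> rcases h2 : P' a b' with _ | t'
    · rw [L_none a b h1, L_none a b' h2] at h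
      have hs : sc a b = sc a b' := congrArg Prod.fst h
      have hcc : col (sc a b) a b = col (sc a b') a b' := congrArg Prod.snd h
      rw [← hs] at hcc
      have g1 := F2c a b' h2
      rw [← hs] at g1
      exact hcol1 (sc a b) a b b' (F2r a b h1) (F2c a b h1) g1 rfl hs.symm hcc
    · rw [L_none a b h1, L_some a b' t' h2] at h
      have hs : sc a b = t'.1 := congrArg Prod.fst h
      have := P_some a b' t' h2
      rw [← hs] at this
      exact absurd this (F2r a b h1 b'.1)
    · rw [L_some a b t h1, L_none a b' h2] at h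
      have hs : t.1 = sc a b' := congrArg Prod.fst h
      have := P_some a b t h1
      rw [hs] at this
      exact absurd this (F2r a b' h2 b.1)
    · rw [L_some a b t h1, L_some a b' t' h2] at h
      rw [← h] at h2
      exact hr' a b b' t h1 h2
  · intro b a a' h
    replace h : L a b = L a' b := h
    rcases h1 : P' a b with _ | t <;> rcases h2 : P' a' b with _ | t'
    · rw [L_none a b h1, L_none a' b h2] at h
      have hs : sc a b = sc a' b := congrArg Prod.fst h
      have hcc : col (sc a b) a b = col (sc a' b) a' b := congrArg Prod.snd h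
      rw [← hs] at hcc
      have g1 := F2r a' b h2
      rw [← hs] at g1
      exact hcol2 (sc a b) a a' b (F2r a b h1) g1 (F2c a b h1) rfl hs.symm hcc
    · rw [L_none a b h1, L_some a' b t' h2] at h
      have hs : sc a b = t'.1 := congrArg Prod.fst h
      have := P_some a' b t' h2
      rw [← hs] at this
      exact absurd this (F2c a b h1 a'.1)
    · rw [L_some a b t h1, L_none a' b h2] at h
      have hs : t.1 = sc a' b := congrArg Prod.fst h
      have := P_some a b t h1
      rw [hs] at this
      exact absurd this (F2c a' b h2 a.1)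
    · rw [L_some a b t h1, L_some a' b t' h2] at h
      rw [← h] at h2
      exact hc' b a a' t h1 h2

/-- The version for arrays indexed by `Fin (n * N)`. -/
theorem inflate_fin {n N : ℕ} (hN : 0 < N) (P : Fin n → Fin n → Option (Fin n))
    (J : Fin n → Fin n → Fin n → ℕ) (J1 : ∀ r c, ∑ s, J r c s = N) (J2 : ∀ c s, ∑ r, J r c s = N)
    (J3 : ∀ r s, ∑ c, J r c s = N) (JP : ∀ r c s, P r c = some s → J r c s = N)
    (P' : Fin (n * N) → Fin (n * N) → Option (Fin (n * N)))
    (hr' : ∀ (r c₁ c₂ s : Fin (n * N)), P' r c₁ = some s → P' r c₂ = some s → c₁ = c₂)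
    (hc' : ∀ (c r₁ r₂ s : Fin (n * N)), P' r₁ c = some s → P' r₂ c = some s → r₁ = r₂)
    (hmap : ∀ a b, (P' a b).map Fin.divNat = P a.divNat b.divNat) :
    ∃ L : Fin (n * N) → Fin (n * N) → Fin (n * N),
      (∀ r, Function.Injective (L r)) ∧ (∀ c, Function.Injective (fun r => L r c)) ∧
      ∀ r c s, P' r c = some s → L r c = s := by
  let e : Fin n × Fin N ≃ Fin (n * N) := finProdFinEquiv
  have he : ∀ x : Fin (n * N), (e.symm x).1 = x.divNat := fun x => rfl
  have he' : ∀ a : Fin n × Fin N, (e a).divNat = a.1 := by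
    intro a
    rw [← he, Equiv.symm_apply_apply]
  have q1 : ∀ (a b b' t : Fin n × Fin N), (P' (e a) (e b)).map e.symm = some t →
      (P' (e a) (e b')).map e.symm = some t → b = b' := by
    intro a b b' t ht ht'
    rw [Option.map_eq_some_iff] at ht ht'
    obtain ⟨u, hu, hut⟩ := ht
    obtain ⟨u', hu', hut'⟩ := ht'
    have : u = u' := e.symm.injective (hut.trans hut'.symm)
    rw [← this] at hu'
    exact e.injective (hr' _ _ _ _ hu hu')
  have q2 : ∀ (b a a' t : Fin n × Fin N), (P' (e a) (e b)).map e.symm = some t →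
      (P' (e a') (e b)).map e.symm = some t → a = a' := by
    intro b a a' t ht ht'
    rw [Option.map_eq_some_iff] at ht ht'
    obtain ⟨u, hu, hut⟩ := ht
    obtain ⟨u', hu', hut'⟩ := ht'
    have : u = u' := e.symm.injective (hut.trans hut'.symm)
    rw [← this] at hu'
    exact e.injective (hc' _ _ _ _ hu hu')
  have q3 : ∀ (a b : Fin n × Fin N), ((P' (e a) (e b)).map e.symm).map Prod.fst
      = P a.1 b.1 := by
    intro a b
    have := hmap (e a) (e b)
    rw [he', he'] at this
    rw [← this, Option.map_map]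
    rfl
  obtain ⟨L, h1, h2, h3⟩ := inflate_abs hN P J J1 J2 J3 JP
    (fun a b => (P' (e a) (e b)).map e.symm) q1 q2 q3
  refine ⟨fun x y => e (L (e.symm x) (e.symm y)), ?_, ?_, ?_⟩
  · intro x y y' h
    exact e.symm.injective (h1 _ (e.injective h))
  · intro y x x' h
    exact e.symm.injective (h2 _ (e.injective h))
  · intro x y t h
    have := h3 (e.symm x) (e.symm y) (e.symm t) (by
      simp only [Equiv.apply_symm_apply, h, Option.map_some])
    simp only [this, Equiv.apply_symm_apply]

end H56FP
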