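import Pool.Agent.H56.FP.Pls
import Pool.Agent.H56.FP.Inflate

/-! # Latin squares from fractional completions -/

open Finset

set_option linter.unusedSectionVars false

namespace H56FP

lemma exists_common_den {n : ℕ} (f : Fin n → Fin n → Fin n → ℚ) (hf : ∀ r c s, 0 ≤ f r c s) :
    ∃ q : ℕ, 0 < q ∧ ∀ r c s, ∃ z : ℕ, (q : ℚ) * f r c s = z := by
  refine ⟨∏ p : Fin n × Fin n × Fin n, (f p.1 p.2.1 p.2.2).den,
    Finset.prod_pos fun p _ => (f p.1 p.2.1 p.2.2).pos, fun r c s => ?_⟩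
  obtain ⟨t, ht⟩ : (f r c s).den ∣ ∏ p : Fin n × Fin n × Fin n, (f p.1 p.2.1 p.2.2).den :=
    Finset.dvd_prod_of_mem (fun p : Fin n × Fin n × Fin n => (f p.1 p.2.1 p.2.2).den)
      (Finset.mem_univ (r, c, s))
  obtain ⟨z, hz⟩ : ∃ z : ℕ, (f r c s).num = z :=
    Int.eq_ofNat_of_zero_le (Rat.num_nonneg.mpr (hf r c s))
  refine ⟨t * z, ?_⟩
  rw [ht]
  have h1 : ((f r c s).den : ℚ) * f r c s = (f r c s).num := by
    rw [mul_comm]; exact Rat.mul_den_eq_num _
  push_cast
  rw [mul_comm ((f r c s).den : ℚ) (t : ℚ), mul_assoc, h1, hz]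
  norm_num

/-- Every blow-up, by a multiple of a common denominator of a fractional completion, is
completable. -/
theorem blowup {n : ℕ} (P : Fin n → Fin n → Option (Fin n)) (f : Fin n → Fin n → Fin n → ℚ)
    (hf : FracCompletion P f) : ∃ q : ℕ, 0 < q ∧ ∀ N : ℕ, 0 < N → q ∣ N →
      ∀ P' : Fin (n * N) → Fin (n * N) → Option (Fin (n * N)),
      (∀ (r c₁ c₂ s : Fin (n * N)), P' r c₁ = some s → P' r c₂ = some s → c₁ = c₂) →
      (∀ (c r₁ r₂ s : Fin (n * N)), P' r₁ c = some s → P' r₂ c = some s → r₁ = r₂) →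
      (∀ a b, (P' a b).map Fin.divNat = P a.divNat b.divNat) →
      ∃ L : Fin (n * N) → Fin (n * N) → Fin (n * N),
        (∀ r, Function.Injective (L r)) ∧ (∀ c, Function.Injective (fun r => L r c)) ∧
        ∀ r c s, P' r c = some s → L r c = s := by
  obtain ⟨hf0, hf1, hf2, hf3, hfP⟩ := hf
  obtain ⟨q, hq, hz⟩ := exists_common_den f hf0
  choose z hz using hz
  refine ⟨q, hq, fun N hN hdvd P' hr' hc' hmap => ?_⟩
  obtain ⟨m, hm⟩ := hdvd
  have hJ : ∀ r c s, ((m * z r c s : ℕ) : ℚ) = N * f r c s := by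
    intro r c s
    rw [hm]
    push_cast
    rw [← hz]
    ring
  refine inflate_fin hN P (fun r c s => m * z r c s) ?_ ?_ ?_ ?_ P' hr' hc' hmap
  · intro r c
    have : ((∑ s, m * z r c s : ℕ) : ℚ) = N := by
      rw [Nat.cast_sum, Finset.sum_congr rfl fun s _ => hJ r c s, ← Finset.mul_sum, hf1, mul_one]
    exact_mod_cast this
  · intro c s
    have : ((∑ r, m * z r c s : ℕ) : ℚ) = N := by
      rw [Nat.cast_sum, Finset.sum_congr rfl fun r _ => hJ r c s, ← Finset.mul_sum, hf2, mul_one]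
    exact_mod_cast this
  · intro r s
    have : ((∑ c, m * z r c s : ℕ) : ℚ) = N := by
      rw [Nat.cast_sum, Finset.sum_congr rfl fun c _ => hJ r c s, ← Finset.mul_sum, hf3, mul_one]
    exact_mod_cast this
  · intro r c s h
    have : ((m * z r c s : ℕ) : ℚ) = N := by rw [hJ, hfP r c s h, mul_one]
    exact_mod_cast this

end H56FP
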