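import Mathlib

/-!
The edge colouring theorem of Koenig for regular bipartite graphs, through Hall's theorem.
-/

open Finset

namespace H56FP

/-- Counting edges of a bipartite graph from both sides. -/
theorem koenig_count {A B : Type} [Fintype A] [Fintype B] [DecidableEq A] [DecidableEq B]
    (E : A → B → Prop) [∀ a b, Decidable (E a b)] (s : Finset A) (t : Finset B) :
    ∑ a ∈ s, (t.filter (fun b => E a b)).card = ∑ b ∈ t, (s.filter (fun a => E a b)).card := by
  simp only [card_filter]
  exact sum_comm

/-- A regular bipartite graph of positive degree has a perfect matching. -/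
theorem koenig_match (N : ℕ) {A B : Type} [Fintype A] [Fintype B] [DecidableEq A] [DecidableEq B]
    (E : A → B → Prop) [∀ a b, Decidable (E a b)]
    (hr : ∀ a, (univ.filter (fun b => E a b)).card = N + 1)
    (hc : ∀ b, (univ.filter (fun a => E a b)).card = N + 1) :
    ∃ f : A → B, Function.Bijective f ∧ ∀ a, E a (f a) := by
  classical
  have hcard : Fintype.card A = Fintype.card B := by
    have h := koenig_count E (univ : Finset A) (univ : Finset B)
    rw [sum_congr rfl (fun a _ => hr a), sum_congr rfl (fun b _ => hc b)] at h
    simp only [sum_const, smul_eq_mul, card_univ] at h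
    exact Nat.eq_of_mul_eq_mul_right (Nat.succ_pos N) h
  have hall : ∀ s : Finset A,
      s.card ≤ (s.biUnion (fun a => univ.filter (fun b => E a b))).card := by
    intro s
    set t := s.biUnion (fun a => univ.filter (fun b => E a b)) with ht
    have h1 : ∀ a ∈ s, t.filter (fun b => E a b) = univ.filter (fun b => E a b) := by
      intro a ha
      ext b
      simp only [mem_filter, mem_univ, true_and, and_iff_right_iff_imp]
      intro hb
      rw [ht, mem_biUnion]
      exact ⟨a, ha, by simpa using hb⟩
    have h := koenig_count E s t
    rw [sum_congr rfl (fun a ha => by rw [h1 a ha, hr a])] at h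
    have h2 : ∑ b ∈ t, (s.filter (fun a => E a b)).card ≤ ∑ _b ∈ t, (N + 1) := by
      refine sum_le_sum (fun b _ => ?_)
      rw [← hc b]
      exact card_le_card (filter_subset_filter _ (subset_univ _))
    rw [← h] at h2
    simp only [sum_const, smul_eq_mul] at h2
    exact Nat.le_of_mul_le_mul_right h2 (Nat.succ_pos N)
  obtain ⟨f, hf, hE⟩ := (Finset.all_card_le_biUnion_card_iff_exists_injective
    (fun a => univ.filter (fun b => E a b))).1 hall
  refine ⟨f, (Fintype.bijective_iff_injective_and_card f).2 ⟨hf, hcard⟩, fun a => ?_⟩
  simpa using hE a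

/-- Natural number valued version. -/
theorem koenig_nat (N : ℕ) {A B : Type} [Fintype A] [Fintype B] [DecidableEq A] [DecidableEq B] :
    ∀ (E : A → B → Prop) [∀ a b, Decidable (E a b)],
    (∀ a, (univ.filter (fun b => E a b)).card = N) →
    (∀ b, (univ.filter (fun a => E a b)).card = N) →
    ∃ col : A → B → ℕ, (∀ a b, E a b → col a b < N) ∧
      (∀ a b b', E a b → E a b' → col a b = col a b' → b = b') ∧
      (∀ a a' b, E a b → E a' b → col a b = col a' b → a = a') := by
  classical
  induction N with
  | zero =>
    intro E _ hr _
    have h0 : ∀ a b, ¬ E a b := by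
      intro a b hab
      have := card_eq_zero.1 (hr a)
      have hb : b ∈ univ.filter (fun b => E a b) := by simpa using hab
      rw [this] at hb
      simp at hb
    exact ⟨fun _ _ => 0, fun a b h => (h0 a b h).elim, fun a b _ h => (h0 a b h).elim,
      fun a _ b h => (h0 a b h).elim⟩
  | succ N ih =>
    intro E _ hr hc
    obtain ⟨f, hf, hE⟩ := koenig_match N E hr hc
    have hr' : ∀ a, (univ.filter (fun b => E a b ∧ b ≠ f a)).card = N := by
      intro a
      have h1 : univ.filter (fun b => E a b ∧ b ≠ f a)
          = (univ.filter (fun b => E a b)).erase (f a) := by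
        ext b
        simp only [mem_filter, mem_univ, true_and, mem_erase]
        tauto
      rw [h1, card_erase_of_mem (by simpa using hE a), hr a]
      rfl
    have hc' : ∀ b, (univ.filter (fun a => E a b ∧ b ≠ f a)).card = N := by
      intro b
      obtain ⟨a₀, ha₀⟩ := hf.2 b
      have h1 : univ.filter (fun a => E a b ∧ b ≠ f a)
          = (univ.filter (fun a => E a b)).erase a₀ := by
        ext a
        simp only [mem_filter, mem_univ, true_and, mem_erase]
        constructor
        · rintro ⟨h, h'⟩
          refine ⟨?_, h⟩
          rintro rfl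
          exact h' ha₀.symm
        · rintro ⟨h, h'⟩
          refine ⟨h', fun hb => h (hf.1 ?_)⟩
          rw [ha₀, hb]
      rw [h1, card_erase_of_mem (by
        simp only [mem_filter, mem_univ, true_and]
        rw [← ha₀]
        exact hE a₀), hc b]
      rfl
    obtain ⟨col, h1, h2, h3⟩ := ih (fun a b => E a b ∧ b ≠ f a) hr' hc'
    refine ⟨fun a b => if b = f a then N else col a b, ?_, ?_, ?_⟩
    · intro a b hab
      by_cases hb : b = f a
      · simp [hb]
      · simp only [hb, if_false]
        exact Nat.lt_succ_of_lt (h1 a b ⟨hab, hb⟩)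
    · intro a b b' hb hb' h
      by_cases h4 : b = f a
      · by_cases h5 : b' = f a
        · rw [h4, h5]
        · exfalso
          simp only [h4, h5, if_true, if_false] at h
          have := h1 a b' ⟨hb', h5⟩
          omega
      · by_cases h5 : b' = f a
        · exfalso
          simp only [h4, h5, if_true, if_false] at h
          have := h1 a b ⟨hb, h4⟩
          omega
        · simp only [h4, h5, if_false] at h
          exact h2 a b b' ⟨hb, h4⟩ ⟨hb', h5⟩ h
    · intro a a' b hb hb' h
      beta_reduce at h
      by_cases h4 : b = f a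
      · by_cases h5 : b = f a'
        · exact hf.1 (h4.symm.trans h5)
        · exfalso
          rw [if_pos h4, if_neg h5] at h
          have := h1 a' b ⟨hb', h5⟩
          omega
      · by_cases h5 : b = f a'
        · exfalso
          rw [if_neg h4, if_pos h5] at h
          have := h1 a b ⟨hb, h4⟩
          omega
        · rw [if_neg h4, if_neg h5] at h
          exact h3 a a' b ⟨hb, h4⟩ ⟨hb', h5⟩ h

/-- Koenig: a bipartite graph, regular of degree `N ≥ 1`, has a proper edge colouring with
`N` colours. -/
theorem koenig (N : ℕ) (hN : 1 ≤ N) {A B : Type} [Fintype A] [Fintype B] [DecidableEq A]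
    [DecidableEq B] (E : A → B → Prop) [∀ a b, Decidable (E a b)]
    (hr : ∀ a, (univ.filter (fun b => E a b)).card = N)
    (hc : ∀ b, (univ.filter (fun a => E a b)).card = N) :
    ∃ col : A → B → Fin N, (∀ a b b', E a b → E a b' → col a b = col a b' → b = b') ∧
      (∀ a a' b, E a b → E a' b → col a b = col a' b → a = a') := by
  classical
  obtain ⟨col, h1, h2, h3⟩ := koenig_nat N E hr hc
  refine ⟨fun a b => if h : E a b then ⟨col a b, h1 a b h⟩ else ⟨0, hN⟩, ?_, ?_⟩
  · intro a b b' hb hb' h
    beta_reduce at h
    rw [dif_pos hb, dif_pos hb'] at h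
    exact h2 a b b' hb hb' (by simpa using h)
  · intro a a' b hb hb' h
    beta_reduce at h
    rw [dif_pos hb, dif_pos hb'] at h
    exact h3 a a' b hb hb' (by simpa using h)

end H56FP
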