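import Pool.Agent.H56.FP.Apriori

/-! # The first zero cannot occur -/

open Finset

set_option linter.unusedSectionVars false

namespace H56FP

section Gen

variable {K : Type} [Field K] [LinearOrder K] [IsStrictOrderedRing K] {n : ℕ}

lemma cs_triangles {g : M3 K n} {d : ZMod 3 → Fin n → K} {k : K} (S : Setup g d k) (x : M3 K n) :
    Ssum g x ^ 2 ≤ NT g 0 * Qsum g x := by
  have h := Finset.sum_mul_sq_le_sq_mul_sq (R := K) (Finset.univ : Finset (Fin n × Fin n × Fin n))
    (fun p => g 0 p.1 p.2.1 * g 1 p.2.1 p.2.2 * g 2 p.2.2 p.1)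
    (fun p => g 0 p.1 p.2.1 * g 1 p.2.1 p.2.2 * g 2 p.2.2 p.1 *
      (x 0 p.1 p.2.1 + x 1 p.2.1 p.2.2 + x 2 p.2.2 p.1))
  have e : ∀ a b c, (g 0 a b * g 1 b c * g 2 c a) * (g 0 a b * g 1 b c * g 2 c a)
      = g 0 a b * g 1 b c * g 2 c a := by
    intro a b c
    have h0 := g_sq S 0 a b
    have h1 := g_sq S 1 b c
    have h2 := g_sq S 2 c a
    calc (g 0 a b * g 1 b c * g 2 c a) * (g 0 a b * g 1 b c * g 2 c a)
        = (g 0 a b * g 0 a b) * (g 1 b c * g 1 b c) * (g 2 c a * g 2 c a) := by ring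
      _ = _ := by rw [h0, h1, h2]
  have e1 : Ssum g x = ∑ p : Fin n × Fin n × Fin n,
      (g 0 p.1 p.2.1 * g 1 p.2.1 p.2.2 * g 2 p.2.2 p.1) *
      (g 0 p.1 p.2.1 * g 1 p.2.1 p.2.2 * g 2 p.2.2 p.1 *
      (x 0 p.1 p.2.1 + x 1 p.2.1 p.2.2 + x 2 p.2.2 p.1)) := by
    rw [Fintype.sum_prod_type]
    unfold Ssum
    refine Finset.sum_congr rfl fun a _ => ?_
    rw [Fintype.sum_prod_type]
    refine Finset.sum_congr rfl fun b _ => Finset.sum_congr rfl fun c _ => ?_
    rw [← mul_assoc, e]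
  have e2 : NT g 0 = ∑ p : Fin n × Fin n × Fin n,
      (g 0 p.1 p.2.1 * g 1 p.2.1 p.2.2 * g 2 p.2.2 p.1) ^ 2 := by
    rw [Fintype.sum_prod_type]
    unfold NT
    refine Finset.sum_congr rfl fun a _ => ?_
    rw [Fintype.sum_prod_type]
    refine Finset.sum_congr rfl fun b _ => Finset.sum_congr rfl fun c _ => ?_
    rw [show (0 : ZMod 3) + 1 = 1 by decide, show (0 : ZMod 3) + 2 = 2 by decide, sq, e]
  have e3 : Qsum g x = ∑ p : Fin n × Fin n × Fin n,
      (g 0 p.1 p.2.1 * g 1 p.2.1 p.2.2 * g 2 p.2.2 p.1 *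
      (x 0 p.1 p.2.1 + x 1 p.2.1 p.2.2 + x 2 p.2.2 p.1)) ^ 2 := by
    rw [Fintype.sum_prod_type]
    unfold Qsum
    refine Finset.sum_congr rfl fun a _ => ?_
    rw [Fintype.sum_prod_type]
    refine Finset.sum_congr rfl fun b _ => Finset.sum_congr rfl fun c _ => ?_
    rw [mul_pow, sq (g 0 a b * g 1 b c * g 2 c a), e]
  rw [e1, e2, e3]
  exact h

lemma cs_edges {g : M3 K n} {d : ZMod 3 → Fin n → K} {k : K} (S : Setup g d k) {x : M3 K n}
    (hs : ∀ i a b, g i a b * x i a b = x i a b) (i : ZMod 3) :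
    Ed x i ^ 2 ≤ Ed g i * ∑ a, ∑ b, x i a b ^ 2 := by
  have h := Finset.sum_mul_sq_le_sq_mul_sq (R := K) (Finset.univ : Finset (Fin n × Fin n))
    (fun p => g i p.1 p.2) (fun p => x i p.1 p.2)
  have e1 : Ed x i = ∑ p : Fin n × Fin n, g i p.1 p.2 * x i p.1 p.2 := by
    rw [Fintype.sum_prod_type]
    unfold Ed
    exact Finset.sum_congr rfl fun a _ => Finset.sum_congr rfl fun b _ => (hs i a b).symm
  have e2 : Ed g i = ∑ p : Fin n × Fin n, g i p.1 p.2 ^ 2 := by
    rw [Fintype.sum_prod_type]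
    unfold Ed
    refine Finset.sum_congr rfl fun a _ => Finset.sum_congr rfl fun b _ => ?_
    rw [sq, g_sq S]
  have e3 : ∑ a, ∑ b, x i a b ^ 2 = ∑ p : Fin n × Fin n, x i p.1 p.2 ^ 2 := by
    rw [Fintype.sum_prod_type]
  rw [e1, e2, e3]
  exact h

lemma NT_ge {g : M3 K n} {d : ZMod 3 → Fin n → K} {k : K} (S : Setup g d k) :
    ((n : K) - 2 * k) * Ed g 0 ≤ NT g 0 := by
  unfold Ed NT
  rw [Finset.mul_sum]
  refine Finset.sum_le_sum fun a _ => ?_
  rw [Finset.mul_sum]
  refine Finset.sum_le_sum fun b _ => ?_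
  have h := common S 0 a b
  have h1 := S.dk 0 a
  have h2 := S.dk (0 + 1) b
  have : ∑ c, g 0 a b * g (0 + 1) b c * g (0 + 2) c a
      = g 0 a b * ∑ c, g (0 + 1) b c * g (0 + 2) c a := by
    rw [Finset.mul_sum]
    exact Finset.sum_congr rfl fun c _ => by ring
  rw [this, mul_comm]
  exact mul_le_mul_of_nonneg_left (by linarith) (g_nonneg S _ _ _)

/-- Lower bound for the total weight. -/
lemma tot_lower {g : M3 K n} {d : ZMod 3 → Fin n → K} {k : K} (S : Setup g d k) (hk0 : 0 ≤ k)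
    (hk : 4 * k < n) (hcrit : 6 * k * NT g 0 < Ed g 0 ^ 2) {σ : K} (hσ : 0 ≤ σ) {x : M3 K n}
    (hx : x ∈ Bal g) (he : Mop g x + σ • x = g) (hx0 : ∀ i a b, 0 ≤ x i a b) :
    2 * k < Ed x 0 + σ / 2 := by
  have hS : Ssum g x + σ * Ed x 0 = Ed g 0 := by
    rw [← Mop_sum hx.1]
    unfold Ed
    rw [Finset.mul_sum, ← Finset.sum_add_distrib]
    refine Finset.sum_congr rfl fun a _ => ?_
    rw [Finset.mul_sum, ← Finset.sum_add_distrib]
    refine Finset.sum_congr rfl fun b _ => ?_
    have := congrFun (congrFun (congrFun he 0) a) b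
    simpa [Pi.add_apply, Pi.smul_apply, smul_eq_mul] using this
  have hQ : Qsum g x + σ * nsq x = 3 * Ed x 0 := by
    have h1 : ip x (Mop g x + σ • x) = ip x g := by rw [he]
    rw [ip_add, ip_smul, ip_self, ← Qf_eq, Qf_eq_Qsum hx.1] at h1
    rw [h1]
    have h2 : ip x g = ∑ i, Ed x i := by
      unfold ip Ed
      refine Finset.sum_congr rfl fun i _ => Finset.sum_congr rfl fun a _ =>
        Finset.sum_congr rfl fun b _ => ?_
      rw [mul_comm, hx.1]
    rw [h2, sum3, tot_const hx 1, tot_const hx 2]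
    ring
  have hC1 := cs_triangles S x
  have hC2 : 3 * Ed x 0 ^ 2 ≤ Ed g 0 * nsq x := by
    have h : ∀ i, Ed x 0 ^ 2 ≤ Ed g 0 * ∑ a, ∑ b, x i a b ^ 2 := by
      intro i
      have := cs_edges S hx.1 i
      rwa [tot_const hx i, tot_const (g_mem S) i] at this
    unfold nsq
    rw [sum3, mul_add, mul_add]
    linarith [h 0, h 1, h 2]
  have hN := NT_ge S
  have hE0 : 0 ≤ Ed g 0 := by
    unfold Ed
    exact Finset.sum_nonneg fun a _ => Finset.sum_nonneg fun b _ => g_nonneg S _ _ _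
  have hX0 : 0 ≤ Ed x 0 := by
    unfold Ed
    exact Finset.sum_nonneg fun a _ => Finset.sum_nonneg fun b _ => hx0 _ _ _
  have hNT0 : 0 ≤ NT g 0 := le_trans (mul_nonneg (by linarith) hE0) hN
  generalize Ed g 0 = e at *
  generalize Ed x 0 = X at *
  generalize NT g 0 = N at *
  generalize Ssum g x = s at *
  generalize Qsum g x = Q at *
  generalize nsq x = q at *
  -- `e² ≤ (3N + σ e) X`
  have hD : e ^ 2 ≤ (3 * N + σ * e) * X := by
    rcases le_or_gt s 0 with h | h
    · have h1 : e ≤ σ * X := by linarith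
      nlinarith [mul_nonneg hNT0 hX0, mul_le_mul_of_nonneg_left h1 hE0]
    · have h1 : e * s ^ 2 ≤ 3 * N * X * s := by
        have h2 : e * s ^ 2 ≤ e * (N * Q) := mul_le_mul_of_nonneg_left hC1 hE0
        have h3 : e * (N * Q) = N * (3 * X * e - σ * (e * q)) := by
          have : Q = 3 * X - σ * q := by linarith
          rw [this]; ring
        have h4 : N * (3 * X * e - σ * (e * q)) ≤ N * (3 * X * e - σ * (3 * X ^ 2)) := by
          apply mul_le_mul_of_nonneg_left _ hNT0
          have := mul_le_mul_of_nonneg_left hC2 hσ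
          linarith
        have h5 : N * (3 * X * e - σ * (3 * X ^ 2)) = 3 * N * X * s := by
          have : s = e - σ * X := by linarith
          rw [this]; ring
        linarith
      have h6 : e * s ≤ 3 * N * X := by
        have h7 : (e * s) * s ≤ (3 * N * X) * s := by
          have : (e * s) * s = e * s ^ 2 := by ring
          rw [this]; exact h1
        exact le_of_mul_le_mul_right h7 h
      have h8 : e * s = e ^ 2 - σ * e * X := by
        have : s = e - σ * X := by linarith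
        rw [this]; ring
      linarith
  by_contra hcon
  push Not at hcon
  have h1 : σ ≤ 2 * (2 * k - X) := by linarith
  have hu : 0 ≤ 2 * k - X := by linarith
  have h2 : σ * e * X ≤ 2 * (2 * k - X) * e * X := by
    have := mul_nonneg hE0 hX0
    nlinarith
  have h3 : 4 * k * e ≤ 3 * N := by
    nlinarith
  have h4 : e ^ 2 ≤ 3 * N * X + 2 * (2 * k - X) * e * X := by linarith
  have h5 : 2 * (2 * k - X) * e * X ≤ (2 * k - X) * (4 * k * e) := by
    have h6 : 0 ≤ (2 * k - X) * e := mul_nonneg hu hE0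
    nlinarith
  have h6 : (2 * k - X) * (4 * k * e) ≤ (2 * k - X) * (3 * N) :=
    mul_le_mul_of_nonneg_left h3 hu
  nlinarith

/-- The vertex inequality. -/
lemma vertex_ineq {g : M3 K n} {d : ZMod 3 → Fin n → K} {k : K} (S : Setup g d k) {σ : K}
    {x : M3 K n} (hx : x ∈ Bal g) (he : Mop g x + σ • x = g) (hx0 : ∀ i a b, 0 ≤ x i a b)
    (i : ZMod 3) (a : Fin n) :
    (2 * (n : K) - 2 * d i a - 2 * k + σ) * Xs x i a + Ed x 0
      - ∑ b, (1 - g i a b) * Xs x (i + 1) b - ∑ c, (1 - g (i + 2) c a) * Xs x (i + 2) c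
      ≤ n - d i a := by
  -- sum the equations
  have h1 : ∑ b, Mop g x i a b + σ * Xs x i a = n - d i a := by
    have : ∑ b, (Mop g x i a b + σ * x i a b) = ∑ b, g i a b := by
      refine Finset.sum_congr rfl fun b _ => ?_
      have := congrFun (congrFun (congrFun he i) a) b
      simpa [Pi.add_apply, Pi.smul_apply, smul_eq_mul] using this
    rw [Finset.sum_add_distrib, ← Finset.mul_sum] at this
    have h2 := S.row i a
    rw [Finset.sum_sub_distrib] at h2
    simp only [sum_const, card_univ, Fintype.card_fin, nsmul_eq_mul, mul_one] at h2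
    unfold Xs
    linarith
  have h2 : ∑ b, Mop g x i a b
      = ∑ b, x i a b * (∑ c, g (i + 1) b c * g (i + 2) c a)
        + ∑ c, x (i + 2) c a * (∑ b, g i a b * g (i + 1) b c)
        + ∑ b, ∑ c, g i a b * g (i + 2) c a * x (i + 1) b c := by
    have e2 : ∑ c, x (i + 2) c a * (∑ b, g i a b * g (i + 1) b c)
        = ∑ b, ∑ c, x (i + 2) c a * (g i a b * g (i + 1) b c) := by
      rw [Finset.sum_comm]
      exact Finset.sum_congr rfl fun c _ => Finset.mul_sum _ _ _
    rw [e2, ← Finset.sum_add_distrib, ← Finset.sum_add_distrib]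
    refine Finset.sum_congr rfl fun b _ => ?_
    rw [Finset.mul_sum, ← Finset.sum_add_distrib, ← Finset.sum_add_distrib]
    unfold Mop
    rw [Finset.mul_sum]
    refine Finset.sum_congr rfl fun c _ => ?_
    have := hx.1 i a b
    linear_combination (g (i + 1) b c * g (i + 2) c a) * this
  have h3 : ((n : K) - k - d i a) * Xs x i a
      ≤ ∑ b, x i a b * (∑ c, g (i + 1) b c * g (i + 2) c a) := by
    unfold Xs
    rw [Finset.mul_sum]
    refine Finset.sum_le_sum fun b _ => ?_
    have h := common S i a b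
    have h' := S.dk (i + 1) b
    rw [mul_comm]
    exact mul_le_mul_of_nonneg_left (by linarith) (hx0 _ _ _)
  have h4 : ((n : K) - k - d i a) * Xs x i a
      ≤ ∑ c, x (i + 2) c a * (∑ b, g i a b * g (i + 1) b c) := by
    have hX : Xs x i a = ∑ c, x (i + 2) c a := hx.2 i a
    rw [hX, Finset.mul_sum]
    refine Finset.sum_le_sum fun c _ => ?_
    have h := common S (i + 2) c a
    rw [e21, e22] at h
    have h' := S.dk (i + 2) c
    rw [mul_comm]
    exact mul_le_mul_of_nonneg_left (by linarith) (hx0 _ _ _)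
  have h5 : Ed x 0 - ∑ b, (1 - g i a b) * Xs x (i + 1) b
      - ∑ c, (1 - g (i + 2) c a) * Xs x (i + 2) c
      ≤ ∑ b, ∑ c, g i a b * g (i + 2) c a * x (i + 1) b c := by
    have e1 : ∑ b, (1 - g i a b) * Xs x (i + 1) b
        = ∑ b, ∑ c, (1 - g i a b) * x (i + 1) b c := by
      refine Finset.sum_congr rfl fun b _ => ?_
      unfold Xs
      rw [Finset.mul_sum]
    have e2 : ∑ c, (1 - g (i + 2) c a) * Xs x (i + 2) c
        = ∑ b, ∑ c, (1 - g (i + 2) c a) * x (i + 1) b c := by
      rw [Finset.sum_comm]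
      refine Finset.sum_congr rfl fun c _ => ?_
      rw [← Finset.mul_sum, Xs_col hx (i + 1) c, e11]
    have e3 : Ed x 0 = ∑ b, ∑ c, x (i + 1) b c := (tot_const hx (i + 1)).symm
    rw [e1, e2, e3, ← Finset.sum_sub_distrib, ← Finset.sum_sub_distrib]
    refine Finset.sum_le_sum fun b _ => ?_
    rw [← Finset.sum_sub_distrib, ← Finset.sum_sub_distrib]
    refine Finset.sum_le_sum fun c _ => ?_
    have hp := hx0 (i + 1) b c
    rcases S.g01 i a b with h | h <;> rcases S.g01 (i + 2) c a with h' | h' <;> rw [h, h'] <;>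
      linarith
  linarith

/-- The first zero cannot occur. -/
theorem no_zero {g : M3 K n} {d : ZMod 3 → Fin n → K} {k : K} (S : Setup g d k) (hk0 : 0 ≤ k)
    (hk : 4 * k < n) (hcrit : 6 * k * NT g 0 < Ed g 0 ^ 2) {σ : K} (hσ : 0 ≤ σ) {x : M3 K n}
    (hx : x ∈ Bal g) (he : Mop g x + σ • x = g) (hx0 : ∀ i a b, 0 ≤ x i a b)
    (i : ZMod 3) (a b : Fin n) (hg : g i a b = 1) : x i a b ≠ 0 := by
  intro hz
  have hT := tot_lower S hk0 hk hcrit hσ hx he hx0
  -- all vertex sums are `< 1/2`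
  have hlt : ∀ j v, Xs x j v < 1 / 2 := by
    have : Nonempty (ZMod 3 × Fin n) := ⟨(i, a)⟩
    obtain ⟨⟨j, v⟩, hmax⟩ := Finite.exists_max (fun p : ZMod 3 × Fin n => Xs x p.1 p.2)
    have hm : Xs x j v < 1 / 2 := by
      have h1 := vertex_ineq S hx he hx0 j v
      have h2 : ∑ b, (1 - g j v b) * Xs x (j + 1) b ≤ d j v * Xs x j v := by
        rw [← S.row j v, Finset.sum_mul]
        refine Finset.sum_le_sum fun b _ => ?_
        exact mul_le_mul_of_nonneg_left (hmax (j + 1, b)) (by linarith [g_le_one S j v b])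
      have h3 : ∑ c, (1 - g (j + 2) c v) * Xs x (j + 2) c ≤ d j v * Xs x j v := by
        rw [← S.col j v, Finset.sum_mul]
        refine Finset.sum_le_sum fun c _ => ?_
        exact mul_le_mul_of_nonneg_left (hmax (j + 2, c)) (by linarith [g_le_one S (j + 2) c v])
      have h4 := S.dk j v
      have h5 : (2 * (n : K) - 4 * d j v - 2 * k + σ) * Xs x j v
          < (2 * (n : K) - 4 * d j v - 2 * k + σ) * (1 / 2) := by
        linarith
      have h6 : 0 < 2 * (n : K) - 4 * d j v - 2 * k + σ := by linarith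
      exact lt_of_mul_lt_mul_left h5 h6.le
    intro j' v'
    exact lt_of_le_of_lt (hmax (j', v')) hm
  -- the equation at the zero edge
  have h1 : Mop g x i a b = 1 := by
    have := congrFun (congrFun (congrFun he i) a) b
    simp only [Pi.add_apply, Pi.smul_apply, smul_eq_mul, hz, mul_zero, add_zero, hg] at this
    exact this
  have h2 : Mop g x i a b ≤ Xs x (i + 1) b + Xs x i a := by
    unfold Mop
    rw [hg, one_mul]
    have hX : Xs x i a = ∑ c, x (i + 2) c a := hx.2 i a
    rw [hX]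
    unfold Xs
    rw [← Finset.sum_add_distrib]
    refine Finset.sum_le_sum fun c _ => ?_
    rw [hz]
    have p1 := hx0 (i + 1) b c
    have p2 := hx0 (i + 2) c a
    rcases S.g01 (i + 1) b c with h | h <;> rcases S.g01 (i + 2) c a with h' | h' <;>
      rw [h, h'] <;> linarith
  have h3 := hlt (i + 1) b
  have h4 := hlt i a
  linarith

end Gen

end H56FP
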