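import Pool.Agent.H56.FP.Main1

/-! # The homotopy argument -/

open Finset

set_option linter.unusedSectionVars false

namespace H56FP

variable {n : ℕ}

/-- Positivity for large `σ`. -/
lemma large_pos {g : M3 ℝ n} {d : ZMod 3 → Fin n → ℝ} {k : ℝ} (S : Setup g d k)
    (hk : 4 * k < n) {σ : ℝ} (hσ : 3 * n * (nsq g + 1) + 1 ≤ σ) {x : M3 ℝ n}
    (hx : x ∈ Bal g) (he : Mop g x + σ • x = g) (i : ZMod 3) (a b : Fin n)
    (hg : g i a b = 1) : 0 < x i a b := by
  have hB := nsq_nonneg g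
  have hn : (0 : ℝ) ≤ n := Nat.cast_nonneg n
  have hσ0 : 0 < σ := by nlinarith [mul_nonneg hn hB]
  have h1 : σ ^ 2 * nsq x ≤ nsq g := norm_est S hx hσ0 (by linarith) he
  set M : ℝ := (nsq g + 1) / σ with hM
  have hM0 : 0 ≤ M := by positivity
  have h2 : ∀ j u v, |x j u v| ≤ M := by
    intro j u v
    apply abs_le_of_sq_le_sq _ hM0
    have h3 := sq_le_nsq x j u v
    have h4 : σ ^ 2 * x j u v ^ 2 ≤ (nsq g + 1) ^ 2 := by
      have := mul_le_mul_of_nonneg_left h3 (sq_nonneg σ)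
      nlinarith
    rw [hM, div_pow, le_div_iff₀ (by positivity)]
    linarith
  have h3 : Mop g x i a b ≤ 3 * n * M := by
    unfold Mop
    rw [hg, one_mul]
    have : ∑ c : Fin n, (3 * M) = 3 * n * M := by
      rw [Finset.sum_const, Finset.card_univ, Fintype.card_fin, nsmul_eq_mul]; ring
    rw [← this]
    refine Finset.sum_le_sum fun c _ => ?_
    have p0 := abs_le.mp (h2 i a b)
    have p1 := abs_le.mp (h2 (i + 1) b c)
    have p2 := abs_le.mp (h2 (i + 2) c a)
    rcases S.g01 (i + 1) b c with h | h <;> rcases S.g01 (i + 2) c a with h' | h' <;>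
      rw [h, h'] <;> linarith
  have h4 : 3 * n * M < 1 := by
    rw [hM, ← mul_div_assoc, div_lt_one hσ0]
    linarith
  have h5 : Mop g x i a b + σ * x i a b = 1 := by
    have := congrFun (congrFun (congrFun he i) a) b
    simp only [Pi.add_apply, Pi.smul_apply, smul_eq_mul, hg] at this
    exact this
  have h6 : 0 < σ * x i a b := by linarith
  exact (mul_pos_iff_of_pos_left hσ0).mp h6

/-- Positivity at `σ = 0`. -/
theorem sol_pos {g : M3 ℝ n} {d : ZMod 3 → Fin n → ℝ} {k : ℝ} (S : Setup g d k) (hk0 : 0 ≤ k)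
    (hk : 4 * k < n) (hcrit : 6 * k * NT g 0 < Ed g 0 ^ 2) :
    ∃ x ∈ Bal g, Mop g x = g ∧ ∀ i a b, g i a b = 1 → 0 < x i a b := by
  classical
  -- the family of solutions
  have hex : ∀ σ : ℝ, ∃ x ∈ Bal g, Mop g x + |σ| • x = g := fun σ =>
    exists_sol S hk (abs_nonneg σ) (g_mem S)
  choose X hXm hXe using hex
  have hc : 0 < (n : ℝ) - 4 * k := by linarith
  have hcont : ∀ i a b, Continuous fun σ => X σ i a b := by
    intro i a b
    -- Lipschitz
    have hL : ∀ σ τ, |X σ i a b - X τ i a b| ≤ ((nsq g + 1) / ((n : ℝ) - 4 * k) ^ 2) * |σ - τ| := by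
      intro σ τ
      have h1 := lip_sol S hk (abs_nonneg σ) (abs_nonneg τ) (hXm σ) (hXm τ) (hXe σ) (hXe τ)
      have h2 := sq_le_nsq (X σ - X τ) i a b
      have hB := nsq_nonneg g
      apply abs_le_of_sq_le_sq _ (by positivity)
      have h3 : (|τ| - |σ|) ^ 2 ≤ |σ - τ| ^ 2 := by
        rw [sq_le_sq, abs_abs]
        rw [abs_sub_comm σ τ]
        exact abs_abs_sub_abs_le_abs_sub τ σ
      have h4 : ((n : ℝ) - 4 * k) ^ 4 * (X σ i a b - X τ i a b) ^ 2
          ≤ |σ - τ| ^ 2 * (nsq g + 1) ^ 2 := by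
        have e1 : ((n : ℝ) - 4 * k) ^ 4 * (X σ i a b - X τ i a b) ^ 2
            ≤ ((n : ℝ) - 4 * k) ^ 4 * nsq (X σ - X τ) :=
          mul_le_mul_of_nonneg_left h2 (by positivity)
        have e2 : (|τ| - |σ|) ^ 2 * nsq g ≤ |σ - τ| ^ 2 * (nsq g + 1) ^ 2 := by
          have : nsq g ≤ (nsq g + 1) ^ 2 := by nlinarith
          exact mul_le_mul h3 this hB (by positivity)
        linarith
      rw [mul_pow, div_pow, div_mul_eq_mul_div, le_div_iff₀ (by positivity)]
      calc (X σ i a b - X τ i a b) ^ 2 * (((n : ℝ) - 4 * k) ^ 2) ^ 2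
          = ((n : ℝ) - 4 * k) ^ 4 * (X σ i a b - X τ i a b) ^ 2 := by ring
        _ ≤ |σ - τ| ^ 2 * (nsq g + 1) ^ 2 := h4
        _ = (nsq g + 1) ^ 2 * |σ - τ| ^ 2 := by ring
    have hLip : LipschitzWith (Real.toNNReal ((nsq g + 1) / ((n : ℝ) - 4 * k) ^ 2))
        fun σ => X σ i a b := by
      apply LipschitzWith.of_dist_le_mul
      intro σ τ
      rw [Real.dist_eq, Real.dist_eq, Real.coe_toNNReal _ (by have := nsq_nonneg g; positivity)]
      exact hL σ τ
    exact hLip.continuous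
  -- the set of edges
  let E : Finset (ZMod 3 × Fin n × Fin n) := Finset.univ.filter fun p => g p.1 p.2.1 p.2.2 = 1
  rcases E.eq_empty_or_nonempty with hE | hE
  · refine ⟨X 0, hXm 0, ?_, ?_⟩
    · have := hXe 0
      simpa using this
    · intro i a b h
      exfalso
      have : (i, a, b) ∈ E := by simp [E, h]
      rw [hE] at this
      simp at this
  let φ : ℝ → ℝ := fun σ => E.inf' hE fun p => X σ p.1 p.2.1 p.2.2
  have hφ : Continuous φ := Continuous.finset_inf'_apply hE fun p _ => hcont p.1 p.2.1 p.2.2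
  have hnz : ∀ σ : ℝ, 0 ≤ σ → φ σ ≠ 0 := by
    intro σ hσ h0
    obtain ⟨p, hp, hpe⟩ := Finset.exists_mem_eq_inf' hE fun p => X σ p.1 p.2.1 p.2.2
    have hg : g p.1 p.2.1 p.2.2 = 1 := by simpa [E] using hp
    have hx0 : ∀ i a b, 0 ≤ X σ i a b := by
      intro i a b
      rcases S.g01 i a b with h | h
      · have := (hXm σ).1 i a b
        rw [h, zero_mul] at this
        exact this.le
      · have hmem : (i, a, b) ∈ E := by simp [E, h]
        have := Finset.inf'_le (fun p : ZMod 3 × Fin n × Fin n => X σ p.1 p.2.1 p.2.2) hmem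
        have h1 : φ σ ≤ X σ i a b := this
        linarith
    have he := hXe σ
    rw [abs_of_nonneg hσ] at he
    refine no_zero S hk0 hk hcrit hσ (hXm σ) he hx0 p.1 p.2.1 p.2.2 hg ?_
    rw [← hpe]
    exact h0
  have hbig : 0 < φ (3 * n * (nsq g + 1) + 1) := by
    obtain ⟨p, hp, hpe⟩ := Finset.exists_mem_eq_inf' hE
      fun p => X (3 * n * (nsq g + 1) + 1) p.1 p.2.1 p.2.2
    have hg : g p.1 p.2.1 p.2.2 = 1 := by simpa [E] using hp
    have hB := nsq_nonneg g
    have hpos : (0 : ℝ) ≤ 3 * n * (nsq g + 1) + 1 := by positivity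
    have he := hXe (3 * n * (nsq g + 1) + 1)
    rw [abs_of_nonneg hpos] at he
    have := large_pos S hk le_rfl (hXm _) he p.1 p.2.1 p.2.2 hg
    rw [← hpe] at this
    exact this
  have hpos0 : 0 < φ 0 := by
    by_contra hcon
    push Not at hcon
    have hB := nsq_nonneg g
    have hle : (0 : ℝ) ≤ 3 * n * (nsq g + 1) + 1 := by positivity
    have hiv := intermediate_value_Icc hle hφ.continuousOn
    obtain ⟨σ, hσ, hσ0⟩ := hiv ⟨hcon, hbig.le⟩
    exact hnz σ hσ.1 hσ0
  refine ⟨X 0, hXm 0, ?_, ?_⟩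
  · have := hXe 0
    simpa using this
  · intro i a b h
    have hmem : (i, a, b) ∈ E := by simp [E, h]
    have := Finset.inf'_le (fun p : ZMod 3 × Fin n × Fin n => X 0 p.1 p.2.1 p.2.2) hmem
    exact lt_of_lt_of_le hpos0 this

end H56FP
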