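import Pool.Agent.H56.FP.Core

/-! # Positive definiteness of the triangle operator on balanced functions -/

open Finset

set_option linter.unusedSectionVars false

namespace H56FP

section Gen

variable {K : Type} [Field K] [LinearOrder K] [IsStrictOrderedRing K] {n : ℕ}

/-- sum of squares -/
def nsq (x : M3 K n) : K := ∑ i, ∑ a, ∑ b, x i a b ^ 2

/-- the quadratic form of the triangle operator -/
def Qf (g x : M3 K n) : K := ∑ i, ∑ a, ∑ b, x i a b * Mop g x i a b

/-- cross term -/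
def Cc (g x : M3 K n) (i : ZMod 3) : K :=
  ∑ a, ∑ b, ∑ c, x i a b * x (i + 1) b c * g (i + 2) c a

lemma cross3 (g x : M3 K n) (i : ZMod 3) :
    ∑ a, ∑ b, ∑ c, x i a b * (g (i + 1) b c * x (i + 2) c a) = Cc g x (i + 2) := by
  unfold Cc
  rw [e21, e22]
  have h := rot (fun a b c => x (i + 2) c a * x i a b * g (i + 1) b c)
  rw [h]
  refine Finset.sum_congr rfl fun a _ => Finset.sum_congr rfl fun b _ =>
    Finset.sum_congr rfl fun c _ => ?_
  ring

lemma quad_expand (g x : M3 K n) (hs : ∀ i a b, g i a b * x i a b = x i a b) :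
    Qf g x = ∑ i, (∑ a, ∑ b, x i a b ^ 2 * ∑ c, g (i + 1) b c * g (i + 2) c a)
      + 2 * ∑ i, Cc g x i := by
  have key : ∀ i : ZMod 3, ∑ a, ∑ b, x i a b * Mop g x i a b
      = (∑ a, ∑ b, x i a b ^ 2 * ∑ c, g (i + 1) b c * g (i + 2) c a) + Cc g x i
        + Cc g x (i + 2) := by
    intro i
    rw [← cross3, Cc, ← Finset.sum_add_distrib, ← Finset.sum_add_distrib]
    refine Finset.sum_congr rfl fun a _ => ?_
    rw [← Finset.sum_add_distrib, ← Finset.sum_add_distrib]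
    refine Finset.sum_congr rfl fun b _ => ?_
    unfold Mop
    have h1 : x i a b * (g i a b * ∑ c, (x i a b * g (i + 1) b c * g (i + 2) c a
      + x (i + 1) b c * g (i + 2) c a + g (i + 1) b c * x (i + 2) c a))
      = x i a b * ∑ c, (x i a b * g (i + 1) b c * g (i + 2) c a
      + x (i + 1) b c * g (i + 2) c a + g (i + 1) b c * x (i + 2) c a) := by
      rw [← mul_assoc, mul_comm (x i a b) (g i a b), hs]
    rw [h1, Finset.mul_sum, Finset.mul_sum, ← Finset.sum_add_distrib, ← Finset.sum_add_distrib]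
    refine Finset.sum_congr rfl fun c _ => ?_
    ring
  unfold Qf
  rw [Finset.sum_congr rfl fun i _ => key i, Finset.sum_add_distrib, Finset.sum_add_distrib,
    sum_shift (fun i => Cc g x i)]
  ring

lemma cross_lower {g : M3 K n} {d : ZMod 3 → Fin n → K} {k : K} (S : Setup g d k) (x : M3 K n)
    (hb : ∀ i a, ∑ b, x i a b = ∑ c, x (i + 2) c a) (i : ZMod 3) :
    -(k / 2) * ((∑ a, ∑ b, x i a b ^ 2) + ∑ a, ∑ b, x (i + 1) a b ^ 2) ≤ Cc g x i := by
  have h1 : ∑ a, ∑ b, ∑ c, (x i a b * x (i + 1) b c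
      - (x i a b ^ 2 / 2 + x (i + 1) b c ^ 2 / 2) * (1 - g (i + 2) c a)) ≤ Cc g x i := by
    unfold Cc
    refine Finset.sum_le_sum fun a _ => Finset.sum_le_sum fun b _ =>
      Finset.sum_le_sum fun c _ => ?_
    rcases S.g01 (i + 2) c a with h | h <;> rw [h]
    · nlinarith [sq_nonneg (x i a b - x (i + 1) b c)]
    · simp
  refine le_trans ?_ h1
  have h2 : ∑ a, ∑ b, ∑ c, (x i a b * x (i + 1) b c
      - (x i a b ^ 2 / 2 + x (i + 1) b c ^ 2 / 2) * (1 - g (i + 2) c a))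
      = (∑ a, ∑ b, ∑ c, x i a b * x (i + 1) b c)
        - (∑ a, ∑ b, ∑ c, x i a b ^ 2 / 2 * (1 - g (i + 2) c a))
        - ∑ a, ∑ b, ∑ c, x (i + 1) b c ^ 2 / 2 * (1 - g (i + 2) c a) := by
    simp only [← Finset.sum_sub_distrib]
    refine Finset.sum_congr rfl fun a _ => Finset.sum_congr rfl fun b _ =>
      Finset.sum_congr rfl fun c _ => ?_
    ring
  have h3 : 0 ≤ ∑ a, ∑ b, ∑ c, x i a b * x (i + 1) b c := by
    rw [Finset.sum_comm]
    refine Finset.sum_nonneg fun b _ => ?_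
    have : ∑ a, ∑ c, x i a b * x (i + 1) b c = (∑ c, x (i + 1) b c) * ∑ c, x (i + 1) b c := by
      rw [Finset.sum_mul_sum]
      have h := hb (i + 1) b
      rw [e12] at h
      rw [← Finset.sum_mul_sum, ← Finset.sum_mul_sum, h]
    rw [this]
    exact mul_self_nonneg _
  have h4 : ∑ a, ∑ b, ∑ c, x i a b ^ 2 / 2 * (1 - g (i + 2) c a)
      ≤ k / 2 * ∑ a, ∑ b, x i a b ^ 2 := by
    rw [Finset.mul_sum]
    refine Finset.sum_le_sum fun a _ => ?_
    rw [Finset.mul_sum]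
    refine Finset.sum_le_sum fun b _ => ?_
    rw [← Finset.mul_sum, S.col]
    nlinarith [S.dk i a, sq_nonneg (x i a b)]
  have h5 : ∑ a, ∑ b, ∑ c, x (i + 1) b c ^ 2 / 2 * (1 - g (i + 2) c a)
      ≤ k / 2 * ∑ a, ∑ b, x (i + 1) a b ^ 2 := by
    have : ∑ a, ∑ b, ∑ c, x (i + 1) b c ^ 2 / 2 * (1 - g (i + 2) c a)
        = ∑ b, ∑ c, ∑ a, x (i + 1) b c ^ 2 / 2 * (1 - g (i + 2) c a) := by
      rw [Finset.sum_comm]
      exact Finset.sum_congr rfl fun b _ => Finset.sum_comm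
    rw [this, Finset.mul_sum]
    refine Finset.sum_le_sum fun b _ => ?_
    rw [Finset.mul_sum]
    refine Finset.sum_le_sum fun c _ => ?_
    rw [← Finset.mul_sum, S.row]
    nlinarith [S.dk (i + 2) c, sq_nonneg (x (i + 1) b c)]
  rw [h2]
  linarith

lemma sq_term {g : M3 K n} {d : ZMod 3 → Fin n → K} {k : K} (S : Setup g d k) (x : M3 K n)
    (i : ZMod 3) : ((n : K) - 2 * k) * (∑ a, ∑ b, x i a b ^ 2)
      ≤ ∑ a, ∑ b, x i a b ^ 2 * ∑ c, g (i + 1) b c * g (i + 2) c a := by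
  rw [Finset.mul_sum]
  refine Finset.sum_le_sum fun a _ => ?_
  rw [Finset.mul_sum]
  refine Finset.sum_le_sum fun b _ => ?_
  have h := common S i a b
  have h1 := S.dk i a
  have h2 := S.dk (i + 1) b
  rw [mul_comm]
  exact mul_le_mul_of_nonneg_left (by linarith) (sq_nonneg _)

theorem pd {g : M3 K n} {d : ZMod 3 → Fin n → K} {k : K} (S : Setup g d k) (x : M3 K n)
    (hx : x ∈ Bal g) : ((n : K) - 4 * k) * nsq x ≤ Qf g x := by
  rw [quad_expand g x hx.1]
  have h1 : ((n : K) - 2 * k) * nsq x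
      ≤ ∑ i, (∑ a, ∑ b, x i a b ^ 2 * ∑ c, g (i + 1) b c * g (i + 2) c a) := by
    unfold nsq
    rw [Finset.mul_sum]
    exact Finset.sum_le_sum fun i _ => sq_term S x i
  have h2 : -(k / 2) * (2 * nsq x) ≤ ∑ i, Cc g x i := by
    refine le_trans (le_of_eq ?_) (Finset.sum_le_sum fun i _ => cross_lower S x hx.2 i)
    rw [← Finset.mul_sum, Finset.sum_add_distrib,
      sum_shift1 (fun i => ∑ a, ∑ b, x i a b ^ 2)]
    unfold nsq
    ring
  linarith

lemma nsq_nonneg (x : M3 K n) : 0 ≤ nsq x := by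
  unfold nsq
  exact Finset.sum_nonneg fun i _ => Finset.sum_nonneg fun a _ =>
    Finset.sum_nonneg fun b _ => sq_nonneg _

lemma nsq_eq_zero (x : M3 K n) (h : nsq x ≤ 0) : x = 0 := by
  have h0 : nsq x = 0 := le_antisymm h (nsq_nonneg x)
  unfold nsq at h0
  funext i a b
  rw [Finset.sum_eq_zero_iff_of_nonneg (fun i _ => Finset.sum_nonneg fun a _ =>
    Finset.sum_nonneg fun b _ => sq_nonneg _)] at h0
  have h1 := h0 i (Finset.mem_univ _)
  rw [Finset.sum_eq_zero_iff_of_nonneg (fun a _ => Finset.sum_nonneg fun b _ => sq_nonneg _)] at h1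
  have h2 := h1 a (Finset.mem_univ _)
  rw [Finset.sum_eq_zero_iff_of_nonneg (fun b _ => sq_nonneg _)] at h2
  have h3 := h2 b (Finset.mem_univ _)
  simpa using h3

end Gen

end H56FP
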