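import Pool.Agent.H56.FP.WDefs

/-! # Packing triangles until the degrees are almost `k` -/

open Finset

set_option linter.unusedSectionVars false

namespace H56FP

variable {n : ℕ}

/-- the packed weight of a triangle -/
def zz (G0 G1 G2 : Fin n → Fin n → ℚ) (e0 e1 e2 : Fin n → ℚ) (s : ℚ) (a b c : Fin n) : ℚ :=
  G0 a b * G1 b c * G2 c a * e0 a * e1 b * e2 c / s ^ 2

lemma zz_rot (G0 G1 G2 : Fin n → Fin n → ℚ) (e0 e1 e2 : Fin n → ℚ) (s : ℚ) (a b c : Fin n) :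
    zz G0 G1 G2 e0 e1 e2 s a b c = zz G1 G2 G0 e1 e2 e0 s b c a := by
  unfold zz; ring

lemma zz_nonneg {G0 G1 G2 : Fin n → Fin n → ℚ} {e0 e1 e2 : Fin n → ℚ} {s : ℚ}
    (h0 : ∀ a b, 0 ≤ G0 a b) (h1 : ∀ a b, 0 ≤ G1 a b) (h2 : ∀ a b, 0 ≤ G2 a b)
    (k0 : ∀ a, 0 ≤ e0 a) (k1 : ∀ a, 0 ≤ e1 a) (k2 : ∀ a, 0 ≤ e2 a) (a b c : Fin n) :
    0 ≤ zz G0 G1 G2 e0 e1 e2 s a b c := by
  unfold zz
  have := mul_nonneg (mul_nonneg (mul_nonneg (mul_nonneg (mul_nonneg (h0 a b) (h1 b c)) (h2 c a))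
    (k0 a)) (k1 b)) (k2 c)
  positivity

lemma zz_le_G {G0 G1 G2 : Fin n → Fin n → ℚ} {e0 e1 e2 : Fin n → ℚ} {s : ℚ}
    (h0 : ∀ a b, 0 ≤ G0 a b) (h1 : ∀ a b, 0 ≤ G1 a b) (h2 : ∀ a b, 0 ≤ G2 a b)
    (h1' : ∀ a b, G1 a b ≤ 1) (h2' : ∀ a b, G2 a b ≤ 1)
    (k0 : ∀ a, 0 ≤ e0 a) (k1 : ∀ a, 0 ≤ e1 a) (k2 : ∀ a, 0 ≤ e2 a) (a b c : Fin n) :
    zz G0 G1 G2 e0 e1 e2 s a b c ≤ G0 a b * e0 a * e1 b * e2 c / s ^ 2 := by
  unfold zz
  have hp : 0 ≤ G0 a b * e0 a * e1 b * e2 c :=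
    mul_nonneg (mul_nonneg (mul_nonneg (h0 a b) (k0 a)) (k1 b)) (k2 c)
  have hq : G1 b c * G2 c a ≤ 1 := mul_le_one₀ (h1' b c) (h2 c a) (h2' c a)
  have hm : G0 a b * G1 b c * G2 c a * e0 a * e1 b * e2 c
      = (G0 a b * e0 a * e1 b * e2 c) * (G1 b c * G2 c a) := by ring
  rw [hm]
  have : (G0 a b * e0 a * e1 b * e2 c) * (G1 b c * G2 c a) ≤ G0 a b * e0 a * e1 b * e2 c :=
    mul_le_of_le_one_right hp hq
  exact div_le_div_of_nonneg_right this (sq_nonneg s)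

lemma edge_le {G0 G1 G2 : Fin n → Fin n → ℚ} {e0 e1 e2 : Fin n → ℚ} {s k : ℚ}
    (h0 : ∀ a b, 0 ≤ G0 a b) (h1 : ∀ a b, 0 ≤ G1 a b) (h2 : ∀ a b, 0 ≤ G2 a b)
    (h1' : ∀ a b, G1 a b ≤ 1) (h2' : ∀ a b, G2 a b ≤ 1)
    (k0 : ∀ a, 0 ≤ e0 a) (k1 : ∀ a, 0 ≤ e1 a) (k2 : ∀ a, 0 ≤ e2 a)
    (k0' : ∀ a, e0 a ≤ k) (k1' : ∀ a, e1 a ≤ k) (hk : 0 < k)
    (hs : ∑ c, e2 c = s) (hks : k ^ 2 ≤ s) (a b : Fin n) :
    ∑ c, zz G0 G1 G2 e0 e1 e2 s a b c ≤ G0 a b := by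
  have hs0 : 0 < s := lt_of_lt_of_le (by positivity) hks
  calc ∑ c, zz G0 G1 G2 e0 e1 e2 s a b c
      ≤ ∑ c, G0 a b * e0 a * e1 b * e2 c / s ^ 2 :=
        Finset.sum_le_sum fun c _ => zz_le_G h0 h1 h2 h1' h2' k0 k1 k2 a b c
    _ = G0 a b * (e0 a * e1 b) / s := by
        rw [← Finset.sum_div, ← Finset.mul_sum, hs]
        field_simp
    _ ≤ G0 a b * s / s := by
        refine div_le_div_of_nonneg_right (mul_le_mul_of_nonneg_left ?_ (h0 a b)) hs0.le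
        calc e0 a * e1 b ≤ k * k := mul_le_mul (k0' a) (k1' b) (k1 b) hk.le
          _ = k ^ 2 := by ring
          _ ≤ s := hks
    _ = G0 a b := by field_simp

lemma vertex_le {G0 G1 G2 : Fin n → Fin n → ℚ} {e0 e1 e2 : Fin n → ℚ} {s : ℚ}
    (h0 : ∀ a b, 0 ≤ G0 a b) (h1 : ∀ a b, 0 ≤ G1 a b) (h2 : ∀ a b, 0 ≤ G2 a b)
    (h0' : ∀ a b, G0 a b ≤ 1) (h1' : ∀ a b, G1 a b ≤ 1) (h2' : ∀ a b, G2 a b ≤ 1)
    (k0 : ∀ a, 0 ≤ e0 a) (k1 : ∀ a, 0 ≤ e1 a) (k2 : ∀ a, 0 ≤ e2 a)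
    (hs1 : ∑ c, e1 c = s) (hs2 : ∑ c, e2 c = s) (hs0 : 0 < s) (a : Fin n) :
    ∑ b, ∑ c, zz G0 G1 G2 e0 e1 e2 s a b c ≤ e0 a := by
  calc ∑ b, ∑ c, zz G0 G1 G2 e0 e1 e2 s a b c
      ≤ ∑ b, ∑ c, e0 a * e1 b * e2 c / s ^ 2 := by
        refine Finset.sum_le_sum fun b _ => Finset.sum_le_sum fun c _ => ?_
        refine (zz_le_G h0 h1 h2 h1' h2' k0 k1 k2 a b c).trans ?_
        refine div_le_div_of_nonneg_right ?_ (sq_nonneg s)
        have hp : 0 ≤ e0 a * e1 b * e2 c := mul_nonneg (mul_nonneg (k0 a) (k1 b)) (k2 c)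
        calc G0 a b * e0 a * e1 b * e2 c = G0 a b * (e0 a * e1 b * e2 c) := by ring
          _ ≤ 1 * (e0 a * e1 b * e2 c) := mul_le_mul_of_nonneg_right (h0' a b) hp
          _ = e0 a * e1 b * e2 c := one_mul _
    _ = ∑ b, e0 a * e1 b / s := by
        refine Finset.sum_congr rfl fun b _ => ?_
        rw [← Finset.sum_div, ← Finset.mul_sum, hs2]
        field_simp
    _ = e0 a := by
        rw [← Finset.sum_div, ← Finset.mul_sum, hs1]
        field_simp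

lemma de_le {d k : ℚ} (hdk : d ≤ k) : d * (k - d) ^ 2 ≤ k ^ 2 / 4 * (k - d) := by
  have h : k ^ 2 / 4 - d * (k - d) = (d - k / 2) ^ 2 := by ring
  have h' : d * (k - d) ≤ k ^ 2 / 4 := by nlinarith [sq_nonneg (d - k / 2)]
  calc d * (k - d) ^ 2 = (d * (k - d)) * (k - d) := by ring
    _ ≤ k ^ 2 / 4 * (k - d) := mul_le_mul_of_nonneg_right h' (by linarith)

lemma hee_le {h : Fin n → Fin n → ℚ} {d0 d1 : Fin n → ℚ} {k s : ℚ}
    (h0 : ∀ a b, 0 ≤ h a b) (hr : ∀ a, ∑ b, h a b = d0 a) (hc : ∀ b, ∑ a, h a b = d1 b)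
    (k0 : ∀ a, d0 a ≤ k) (k1 : ∀ a, d1 a ≤ k)
    (s0 : ∑ a, (k - d0 a) = s) (s1 : ∑ a, (k - d1 a) = s) :
    ∑ a, ∑ b, h a b * (k - d0 a) * (k - d1 b) ≤ k ^ 2 / 4 * s := by
  have h1 : ∀ a b, h a b * (k - d0 a) * (k - d1 b)
      ≤ 1 / 2 * (h a b * (k - d0 a) ^ 2) + 1 / 2 * (h a b * (k - d1 b) ^ 2) := by
    intro a b
    have := mul_nonneg (h0 a b) (sq_nonneg ((k - d0 a) - (k - d1 b)))
    nlinarith [this]
  calc ∑ a, ∑ b, h a b * (k - d0 a) * (k - d1 b)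
      ≤ ∑ a, ∑ b, (1 / 2 * (h a b * (k - d0 a) ^ 2) + 1 / 2 * (h a b * (k - d1 b) ^ 2)) :=
        Finset.sum_le_sum fun a _ => Finset.sum_le_sum fun b _ => h1 a b
    _ = 1 / 2 * ∑ a, d0 a * (k - d0 a) ^ 2 + 1 / 2 * ∑ b, d1 b * (k - d1 b) ^ 2 := by
        simp only [Finset.sum_add_distrib, ← Finset.mul_sum]
        congr 2
        · refine Finset.sum_congr rfl fun a _ => ?_
          rw [← Finset.sum_mul, hr]
        · rw [Finset.sum_comm]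
          refine Finset.sum_congr rfl fun b _ => ?_
          rw [← Finset.sum_mul, hc]
    _ ≤ 1 / 2 * ∑ a, k ^ 2 / 4 * (k - d0 a) + 1 / 2 * ∑ b, k ^ 2 / 4 * (k - d1 b) := by
        refine add_le_add (mul_le_mul_of_nonneg_left ?_ (by norm_num))
          (mul_le_mul_of_nonneg_left ?_ (by norm_num))
        · exact Finset.sum_le_sum fun a _ => de_le (k0 a)
        · exact Finset.sum_le_sum fun a _ => de_le (k1 a)
    _ = k ^ 2 / 4 * s := by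
        rw [← Finset.mul_sum, ← Finset.mul_sum, s0, s1]
        ring

lemma three_le {x y z : ℚ} (hx : 0 ≤ x) (hy : 0 ≤ y) (hz : 0 ≤ z) (hx' : x ≤ 1) (hy' : y ≤ 1)
    (hz' : z ≤ 1) : 1 - (1 - x) - (1 - y) - (1 - z) ≤ x * y * z := by
  have h1 : x + y - 1 ≤ x * y := by nlinarith
  have h0 : 0 ≤ x * y := mul_nonneg hx hy
  have h1' : x * y ≤ 1 := mul_le_one₀ hx' hy hy'
  have h2 : x * y + z - 1 ≤ x * y * z := by nlinarith
  linarith

/-- `∑ h e e e / s^2 = (1/s) ∑ h e e`. -/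
lemma sum_h {h : Fin n → Fin n → ℚ} {e0 e1 e2 : Fin n → ℚ} {s : ℚ} (hs0 : s ≠ 0)
    (hs : ∑ c, e2 c = s) :
    ∑ a, ∑ b, ∑ c, h a b * e0 a * e1 b * e2 c / s ^ 2
      = (∑ a, ∑ b, h a b * e0 a * e1 b) / s := by
  rw [Finset.sum_div]
  refine Finset.sum_congr rfl fun a _ => ?_
  rw [Finset.sum_div]
  refine Finset.sum_congr rfl fun b _ => ?_
  rw [← Finset.sum_div, ← Finset.mul_sum, hs]
  field_simp

lemma WSetup.const {g : M3 ℚ n} {d : ZMod 3 → Fin n → ℚ} {k : ℚ} (S : WSetup g d k)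
    (i : ZMod 3) : ∑ a, d i a = ∑ a, d 0 a := by
  refine const_of_succ (fun i => ∑ a, d i a) (fun i => ?_) i
  show ∑ a, d (i + 1) a = ∑ a, d i a
  have h1 : ∀ b, ∑ a, (1 - g i a b) = d (i + 1) b := by
    intro b
    have := S.col (i + 1) b
    rwa [e12] at this
  rw [← Finset.sum_congr rfl fun b _ => h1 b, ← Finset.sum_congr rfl fun a _ => S.row i a]
  exact Finset.sum_comm

theorem packing {g : M3 ℚ n} {d : ZMod 3 → Fin n → ℚ} {k : ℚ} (S : WSetup g d k) (hk : 0 < k)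
    (hS : k ^ 2 ≤ n * k - ∑ a, d 0 a) :
    ∃ (g' : M3 ℚ n) (d' : ZMod 3 → Fin n → ℚ) (z : Fin n → Fin n → Fin n → ℚ),
      WSetup g' d' k ∧ (∀ a b c, 0 ≤ z a b c) ∧
      (∀ a b, g 0 a b = g' 0 a b + ∑ c, z a b c) ∧
      (∀ b c, g 1 b c = g' 1 b c + ∑ a, z a b c) ∧
      (∀ c a, g 2 c a = g' 2 c a + ∑ b, z a b c) ∧
      (n : ℚ) * k - 3 / 4 * k ^ 2 ≤ ∑ a, d' 0 a := by
  obtain ⟨s, hsdef⟩ : ∃ s : ℚ, s = n * k - ∑ a, d 0 a := ⟨_, rfl⟩
  have hks : k ^ 2 ≤ s := by rw [hsdef]; exact hS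
  have hs0 : 0 < s := lt_of_lt_of_le (by positivity) hks
  have hsum : ∀ i, ∑ a, (k - d i a) = s := by
    intro i
    rw [Finset.sum_sub_distrib, S.const i, hsdef]
    simp
  have he : ∀ i a, 0 ≤ k - d i a := fun i a => by linarith [S.dk i a]
  have he' : ∀ i a, k - d i a ≤ k := fun i a => by linarith [S.d0 i a]
  obtain ⟨z, hz⟩ : ∃ z : Fin n → Fin n → Fin n → ℚ, z = zz (g 0) (g 1) (g 2)
    (fun a => k - d 0 a) (fun a => k - d 1 a) (fun a => k - d 2 a) s := ⟨_, rfl⟩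
  have hz1 : ∀ a b c, z a b c = zz (g 1) (g 2) (g 0) (fun a => k - d 1 a) (fun a => k - d 2 a)
      (fun a => k - d 0 a) s b c a := fun a b c => by rw [hz, zz_rot]
  have hz2 : ∀ a b c, z a b c = zz (g 2) (g 0) (g 1) (fun a => k - d 2 a) (fun a => k - d 0 a)
      (fun a => k - d 1 a) s c a b := fun a b c => by rw [hz1, zz_rot]
  have hz0 : ∀ a b c, 0 ≤ z a b c := fun a b c => by
    rw [hz]
    exact zz_nonneg (S.g0 0) (S.g0 1) (S.g0 2) (he 0) (he 1) (he 2) a b c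
  have E0 : ∀ a b, ∑ c, z a b c ≤ g 0 a b := fun a b => by
    rw [hz]
    exact edge_le (S.g0 0) (S.g0 1) (S.g0 2) (S.g1 1) (S.g1 2) (he 0) (he 1) (he 2) (he' 0)
      (he' 1) hk (hsum 2) hks a b
  have E1 : ∀ b c, ∑ a, z a b c ≤ g 1 b c := fun b c => by
    rw [Finset.sum_congr rfl fun a _ => hz1 a b c]
    exact edge_le (S.g0 1) (S.g0 2) (S.g0 0) (S.g1 2) (S.g1 0) (he 1) (he 2) (he 0) (he' 1)
      (he' 2) hk (hsum 0) hks b c
  have E2 : ∀ c a, ∑ b, z a b c ≤ g 2 c a := fun c a => by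
    rw [Finset.sum_congr rfl fun b _ => hz2 a b c]
    exact edge_le (S.g0 2) (S.g0 0) (S.g0 1) (S.g1 0) (S.g1 1) (he 2) (he 0) (he 1) (he' 2)
      (he' 0) hk (hsum 1) hks c a
  have V0 : ∀ a, ∑ b, ∑ c, z a b c ≤ k - d 0 a := fun a => by
    rw [hz]
    exact vertex_le (S.g0 0) (S.g0 1) (S.g0 2) (S.g1 0) (S.g1 1) (S.g1 2) (he 0) (he 1) (he 2)
      (hsum 1) (hsum 2) hs0 a
  have V1 : ∀ b, ∑ c, ∑ a, z a b c ≤ k - d 1 b := fun b => by
    rw [Finset.sum_congr rfl fun c _ => Finset.sum_congr rfl fun a _ => hz1 a b c]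
    exact vertex_le (S.g0 1) (S.g0 2) (S.g0 0) (S.g1 1) (S.g1 2) (S.g1 0) (he 1) (he 2) (he 0)
      (hsum 2) (hsum 0) hs0 b
  have V2 : ∀ c, ∑ a, ∑ b, z a b c ≤ k - d 2 c := fun c => by
    rw [Finset.sum_congr rfl fun a _ => Finset.sum_congr rfl fun b _ => hz2 a b c]
    exact vertex_le (S.g0 2) (S.g0 0) (S.g0 1) (S.g1 2) (S.g1 0) (S.g1 1) (he 2) (he 0) (he 1)
      (hsum 0) (hsum 1) hs0 c
  obtain ⟨g', hg'⟩ : ∃ g' : M3 ℚ n, g' = fun i a b =>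
    if i = 0 then g 0 a b - ∑ c, z a b c
    else if i = 1 then g 1 a b - ∑ c, z c a b
    else g 2 a b - ∑ c, z b c a := ⟨_, rfl⟩
  obtain ⟨d', hd'⟩ : ∃ d' : ZMod 3 → Fin n → ℚ, d' = fun i a =>
    if i = 0 then d 0 a + ∑ b, ∑ c, z a b c
    else if i = 1 then d 1 a + ∑ b, ∑ c, z c a b
    else d 2 a + ∑ b, ∑ c, z b c a := ⟨_, rfl⟩
  have n10 : (1 : ZMod 3) ≠ 0 := by decide
  have n20 : (2 : ZMod 3) ≠ 0 := by decide
  have n21 : (2 : ZMod 3) ≠ 1 := by decide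
  have g'0 : ∀ a b, g' 0 a b = g 0 a b - ∑ c, z a b c := fun a b => by rw [hg']; simp
  have g'1 : ∀ a b, g' 1 a b = g 1 a b - ∑ c, z c a b := fun a b => by
    rw [hg']; simp only [if_neg n10, if_true]
  have g'2 : ∀ a b, g' 2 a b = g 2 a b - ∑ c, z b c a := fun a b => by
    rw [hg']; simp only [if_neg n20, if_neg n21]
  have d'0 : ∀ a, d' 0 a = d 0 a + ∑ b, ∑ c, z a b c := fun a => by rw [hd']; simp
  have d'1 : ∀ a, d' 1 a = d 1 a + ∑ b, ∑ c, z c a b := fun a => by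
    rw [hd']; simp only [if_neg n10, if_true]
  have d'2 : ∀ a, d' 2 a = d 2 a + ∑ b, ∑ c, z b c a := fun a => by
    rw [hd']; simp only [if_neg n20, if_neg n21]
  have cases3 : ∀ i : ZMod 3, i = 0 ∨ i = 1 ∨ i = 2 := by decide
  have split : ∀ (u v : Fin n → ℚ), ∑ b, (1 - (u b - v b)) = ∑ b, (1 - u b) + ∑ b, v b := by
    intro u v
    rw [← Finset.sum_add_distrib]
    exact Finset.sum_congr rfl fun b _ => by ring
  refine ⟨g', d', z, ⟨?_, ?_, ?_, ?_, ?_⟩, hz0, ?_, ?_, ?_, ?_⟩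
  · intro i a b
    rcases cases3 i with rfl | rfl | rfl
    · rw [g'0]; linarith [E0 a b]
    · rw [g'1]; linarith [E1 a b]
    · rw [g'2]; linarith [E2 a b]
  · intro i a b
    rcases cases3 i with rfl | rfl | rfl
    · rw [g'0]
      have := Finset.sum_nonneg fun c (_ : c ∈ (Finset.univ : Finset (Fin n))) => hz0 a b c
      linarith [S.g1 0 a b]
    · rw [g'1]
      have := Finset.sum_nonneg fun c (_ : c ∈ (Finset.univ : Finset (Fin n))) => hz0 c a b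
      linarith [S.g1 1 a b]
    · rw [g'2]
      have := Finset.sum_nonneg fun c (_ : c ∈ (Finset.univ : Finset (Fin n))) => hz0 b c a
      linarith [S.g1 2 a b]
  · intro i a
    rcases cases3 i with rfl | rfl | rfl
    · rw [Finset.sum_congr rfl fun b _ => by rw [g'0], split, S.row, d'0]
    · rw [Finset.sum_congr rfl fun b _ => by rw [g'1], split, S.row, d'1]
    · rw [Finset.sum_congr rfl fun b _ => by rw [g'2], split, S.row, d'2]
  · intro i a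
    rcases cases3 i with rfl | rfl | rfl
    · have h := S.col 0 a
      rw [show (0 : ZMod 3) + 2 = 2 by decide] at h ⊢
      rw [Finset.sum_congr rfl fun b _ => by rw [g'2], split, h, d'0]
      rw [Finset.sum_comm]
    · have h := S.col 1 a
      rw [show (1 : ZMod 3) + 2 = 0 by decide] at h ⊢
      rw [Finset.sum_congr rfl fun b _ => by rw [g'0], split, h, d'1]
      rw [Finset.sum_comm]
    · have h := S.col 2 a
      rw [show (2 : ZMod 3) + 2 = 1 by decide] at h ⊢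
      rw [Finset.sum_congr rfl fun b _ => by rw [g'1], split, h, d'2]
      rw [Finset.sum_comm]
  · intro i a
    rcases cases3 i with rfl | rfl | rfl
    · rw [d'0]; linarith [V0 a]
    · rw [d'1]; linarith [V1 a]
    · rw [d'2]; linarith [V2 a]
  · intro a b; rw [g'0]; ring
  · intro b c; rw [g'1]; ring
  · intro c a; rw [g'2]; ring
  · rw [Finset.sum_congr rfl fun a _ => d'0 a, Finset.sum_add_distrib]
    have hsne : s ≠ 0 := hs0.ne'
    -- the three error terms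
    have T : ∀ i : ZMod 3, ∑ a, ∑ b, (1 - g i a b) * (k - d i a) * (k - d (i + 1) b)
        ≤ k ^ 2 / 4 * s := by
      intro i
      refine hee_le (h := fun a b => 1 - g i a b) (d0 := d i) (d1 := d (i + 1))
        (fun a b => by linarith [S.g1 i a b]) (S.row i) ?_ (S.dk i) (S.dk (i + 1)) (hsum i)
        (hsum (i + 1))
      intro b
      have := S.col (i + 1) b
      rwa [e12] at this
    have T0 := T 0
    have T1 := T 1
    have T2 := T 2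
    rw [show (0 : ZMod 3) + 1 = 1 by decide] at T0
    rw [show (1 : ZMod 3) + 1 = 2 by decide] at T1
    rw [show (2 : ZMod 3) + 1 = 0 by decide] at T2
    have hlow : ∀ a b c, (k - d 0 a) * (k - d 1 b) * (k - d 2 c) / s ^ 2
        - (1 - g 0 a b) * (k - d 0 a) * (k - d 1 b) * (k - d 2 c) / s ^ 2
        - (1 - g 1 b c) * (k - d 1 b) * (k - d 2 c) * (k - d 0 a) / s ^ 2
        - (1 - g 2 c a) * (k - d 2 c) * (k - d 0 a) * (k - d 1 b) / s ^ 2 ≤ z a b c := by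
      intro a b c
      have h3 := three_le (S.g0 0 a b) (S.g0 1 b c) (S.g0 2 c a) (S.g1 0 a b) (S.g1 1 b c)
        (S.g1 2 c a)
      have hp : 0 ≤ (k - d 0 a) * (k - d 1 b) * (k - d 2 c) / s ^ 2 := by
        have := mul_nonneg (mul_nonneg (he 0 a) (he 1 b)) (he 2 c)
        positivity
      have h4 := mul_le_mul_of_nonneg_right h3 hp
      calc (k - d 0 a) * (k - d 1 b) * (k - d 2 c) / s ^ 2
        - (1 - g 0 a b) * (k - d 0 a) * (k - d 1 b) * (k - d 2 c) / s ^ 2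
        - (1 - g 1 b c) * (k - d 1 b) * (k - d 2 c) * (k - d 0 a) / s ^ 2
        - (1 - g 2 c a) * (k - d 2 c) * (k - d 0 a) * (k - d 1 b) / s ^ 2
          = (1 - (1 - g 0 a b) - (1 - g 1 b c) - (1 - g 2 c a))
            * ((k - d 0 a) * (k - d 1 b) * (k - d 2 c) / s ^ 2) := by ring
        _ ≤ g 0 a b * g 1 b c * g 2 c a * ((k - d 0 a) * (k - d 1 b) * (k - d 2 c) / s ^ 2) := h4
        _ = z a b c := by rw [hz]; unfold zz; ring
    have hsumz : (∑ a, ∑ b, ∑ c, (k - d 0 a) * (k - d 1 b) * (k - d 2 c) / s ^ 2)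
        - (∑ a, ∑ b, ∑ c, (1 - g 0 a b) * (k - d 0 a) * (k - d 1 b) * (k - d 2 c) / s ^ 2)
        - (∑ a, ∑ b, ∑ c, (1 - g 1 b c) * (k - d 1 b) * (k - d 2 c) * (k - d 0 a) / s ^ 2)
        - (∑ a, ∑ b, ∑ c, (1 - g 2 c a) * (k - d 2 c) * (k - d 0 a) * (k - d 1 b) / s ^ 2)
        ≤ ∑ a, ∑ b, ∑ c, z a b c := by
      rw [← Finset.sum_sub_distrib, ← Finset.sum_sub_distrib, ← Finset.sum_sub_distrib]
      refine Finset.sum_le_sum fun a _ => ?_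
      rw [← Finset.sum_sub_distrib, ← Finset.sum_sub_distrib, ← Finset.sum_sub_distrib]
      refine Finset.sum_le_sum fun b _ => ?_
      rw [← Finset.sum_sub_distrib, ← Finset.sum_sub_distrib, ← Finset.sum_sub_distrib]
      exact Finset.sum_le_sum fun c _ => hlow a b c
    have A0 : ∑ a, ∑ b, ∑ c, (k - d 0 a) * (k - d 1 b) * (k - d 2 c) / s ^ 2 = s := by
      have := sum_h (h := fun _ _ => (1 : ℚ)) (e0 := fun a => k - d 0 a)
        (e1 := fun a => k - d 1 a) (e2 := fun a => k - d 2 a) hsne (hsum 2)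
      simp only [one_mul] at this
      rw [this]
      have h2 : ∑ a, ∑ b, (k - d 0 a) * (k - d 1 b) = s * s := by
        rw [← Finset.sum_mul_sum, hsum 0, hsum 1]
      rw [h2]
      field_simp
    have A1 : ∑ a, ∑ b, ∑ c, (1 - g 0 a b) * (k - d 0 a) * (k - d 1 b) * (k - d 2 c) / s ^ 2
        = (∑ a, ∑ b, (1 - g 0 a b) * (k - d 0 a) * (k - d 1 b)) / s :=
      sum_h (h := fun a b => 1 - g 0 a b) (e0 := fun a => k - d 0 a) (e1 := fun a => k - d 1 a)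
        (e2 := fun a => k - d 2 a) hsne (hsum 2)
    have A2 : ∑ a, ∑ b, ∑ c, (1 - g 1 b c) * (k - d 1 b) * (k - d 2 c) * (k - d 0 a) / s ^ 2
        = (∑ b, ∑ c, (1 - g 1 b c) * (k - d 1 b) * (k - d 2 c)) / s := by
      rw [← sum_h (h := fun a b => 1 - g 1 a b) (e0 := fun a => k - d 1 a)
        (e1 := fun a => k - d 2 a) (e2 := fun a => k - d 0 a) hsne (hsum 0)]
      exact rot (fun b c a => (1 - g 1 b c) * (k - d 1 b) * (k - d 2 c) * (k - d 0 a) / s ^ 2)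
    have A3 : ∑ a, ∑ b, ∑ c, (1 - g 2 c a) * (k - d 2 c) * (k - d 0 a) * (k - d 1 b) / s ^ 2
        = (∑ c, ∑ a, (1 - g 2 c a) * (k - d 2 c) * (k - d 0 a)) / s := by
      rw [← sum_h (h := fun a b => 1 - g 2 a b) (e0 := fun a => k - d 2 a)
        (e1 := fun a => k - d 0 a) (e2 := fun a => k - d 1 a) hsne (hsum 1)]
      rw [← rot (fun c a b => (1 - g 2 c a) * (k - d 2 c) * (k - d 0 a) * (k - d 1 b) / s ^ 2)]
      exact rot (fun b c a => (1 - g 2 c a) * (k - d 2 c) * (k - d 0 a) * (k - d 1 b) / s ^ 2)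
    rw [A0, A1, A2, A3] at hsumz
    have D1 := div_le_div_of_nonneg_right T0 hs0.le
    have D2 := div_le_div_of_nonneg_right T1 hs0.le
    have D3 := div_le_div_of_nonneg_right T2 hs0.le
    have hq : k ^ 2 / 4 * s / s = k ^ 2 / 4 := by field_simp
    rw [hq] at D1 D2 D3
    have hD : ∑ a, d 0 a = n * k - s := by rw [hsdef]; ring
    rw [hD]
    linarith

end H56FP
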