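import Pool.Agent.H56.FP.Rat

/-! # Fractional completion of partial Latin squares -/

open Finset

set_option linter.unusedSectionVars false

namespace H56FP

variable {n : ℕ}

open Classical in
/-- The edge indicator of the tripartite graph rows / columns / symbols of a partial array. -/
noncomputable def gP (P : Fin n → Fin n → Option (Fin n)) : M3 ℚ n := fun i a b =>
  if i = 0 then (if P a b = none then 1 else 0)
  else if i = 1 then (if ∃ r, P r a = some b then 0 else 1)
  else (if ∃ c, P b c = some a then 0 else 1)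

lemma gP0 (P : Fin n → Fin n → Option (Fin n)) (a b) :
    gP P 0 a b = if P a b = none then 1 else 0 := by
  unfold gP; simp

open Classical in
lemma gP1 (P : Fin n → Fin n → Option (Fin n)) (a b) :
    gP P 1 a b = if ∃ r, P r a = some b then 0 else 1 := by
  unfold gP
  rw [if_neg (by decide), if_pos rfl]

open Classical in
lemma gP2 (P : Fin n → Fin n → Option (Fin n)) (a b) :
    gP P 2 a b = if ∃ c, P b c = some a then 0 else 1 := by
  unfold gP
  rw [if_neg (by decide), if_neg (by decide)]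

/-- the array of filled cells as a 0/1 function -/
noncomputable def fP (P : Fin n → Fin n → Option (Fin n)) (r c s : Fin n) : ℚ :=
  if P r c = some s then 1 else 0

lemma fP_s (P : Fin n → Fin n → Option (Fin n)) (r c : Fin n) :
    ∑ s, fP P r c s = 1 - gP P 0 r c := by
  rw [gP0]
  unfold fP
  rcases h : P r c with _ | s0
  · simp
  · simp

lemma fP_r (P : Fin n → Fin n → Option (Fin n))
    (hc : ∀ (c r₁ r₂ s : Fin n), P r₁ c = some s → P r₂ c = some s → r₁ = r₂) (c s : Fin n) :
    ∑ r, fP P r c s = 1 - gP P 1 c s := by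
  classical
  rw [gP1]
  unfold fP
  by_cases h : ∃ r, P r c = some s
  · obtain ⟨r0, hr0⟩ := h
    rw [if_pos ⟨r0, hr0⟩, Finset.sum_eq_single r0]
    · rw [if_pos hr0]; norm_num
    · intro r _ hr
      rw [if_neg fun h' => hr (hc c r r0 s h' hr0)]
    · intro h'; exact absurd (Finset.mem_univ _) h'
  · rw [if_neg h]
    push Not at h
    rw [Finset.sum_eq_zero fun r _ => if_neg (h r)]
    norm_num

lemma fP_c (P : Fin n → Fin n → Option (Fin n))
    (hr : ∀ (r c₁ c₂ s : Fin n), P r c₁ = some s → P r c₂ = some s → c₁ = c₂) (r s : Fin n) :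
    ∑ c, fP P r c s = 1 - gP P 2 s r := by
  classical
  rw [gP2]
  unfold fP
  by_cases h : ∃ c, P r c = some s
  · obtain ⟨c0, hc0⟩ := h
    rw [if_pos ⟨c0, hc0⟩, Finset.sum_eq_single c0]
    · rw [if_pos hc0]; norm_num
    · intro c _ hc
      rw [if_neg fun h' => hc (hr r c c0 s h' hc0)]
    · intro h'; exact absurd (Finset.mem_univ _) h'
  · rw [if_neg h]
    push Not at h
    rw [Finset.sum_eq_zero fun c _ => if_neg (h c)]
    norm_num

/-- The degrees. -/
noncomputable def dP (P : Fin n → Fin n → Option (Fin n)) (i : ZMod 3) (a : Fin n) : ℚ :=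
  if i = 0 then ∑ c, ∑ s, fP P a c s
  else if i = 1 then ∑ r, ∑ s, fP P r a s
  else ∑ r, ∑ c, fP P r c a

lemma dP0 (P : Fin n → Fin n → Option (Fin n)) (a) : dP P 0 a = ∑ c, ∑ s, fP P a c s := by
  unfold dP; simp

lemma dP1 (P : Fin n → Fin n → Option (Fin n)) (a) : dP P 1 a = ∑ r, ∑ s, fP P r a s := by
  unfold dP; rw [if_neg (by decide), if_pos rfl]

lemma dP2 (P : Fin n → Fin n → Option (Fin n)) (a) : dP P 2 a = ∑ r, ∑ c, fP P r c a := by
  unfold dP; rw [if_neg (by decide), if_neg (by decide)]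

lemma zcases (i : ZMod 3) : i = 0 ∨ i = 1 ∨ i = 2 := by revert i; decide

lemma dP0_card (P : Fin n → Fin n → Option (Fin n)) (r : Fin n) :
    dP P 0 r = ((Finset.univ.filter (fun c : Fin n => P r c ≠ none)).card : ℚ) := by
  rw [dP0, Finset.card_filter]
  push_cast
  refine Finset.sum_congr rfl fun c _ => ?_
  rw [fP_s, gP0]
  by_cases h : P r c = none <;> simp [h]

lemma dP1_card (P : Fin n → Fin n → Option (Fin n)) (c : Fin n) :
    dP P 1 c = ((Finset.univ.filter (fun r : Fin n => P r c ≠ none)).card : ℚ) := by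
  rw [dP1, Finset.card_filter]
  push_cast
  refine Finset.sum_congr rfl fun r _ => ?_
  rw [fP_s, gP0]
  by_cases h : P r c = none <;> simp [h]

lemma dP2_card (P : Fin n → Fin n → Option (Fin n)) (s : Fin n) :
    dP P 2 s
      = ((Finset.univ.filter (fun p : Fin n × Fin n => P p.1 p.2 = some s)).card : ℚ) := by
  rw [dP2, Finset.card_filter]
  push_cast
  rw [Fintype.sum_prod_type]
  rfl

theorem setup_P (P : Fin n → Fin n → Option (Fin n))
    (hr : ∀ (r c₁ c₂ s : Fin n), P r c₁ = some s → P r c₂ = some s → c₁ = c₂)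
    (hc : ∀ (c r₁ r₂ s : Fin n), P r₁ c = some s → P r₂ c = some s → r₁ = r₂) (k : ℚ)
    (hk : ∀ i a, dP P i a ≤ k) : Setup (gP P) (dP P) k where
  g01 i a b := by
    classical
    rcases zcases i with rfl | rfl | rfl
    · rw [gP0]; split_ifs <;> simp
    · rw [gP1]; split_ifs <;> simp
    · rw [gP2]; split_ifs <;> simp
  row i a := by
    rcases zcases i with rfl | rfl | rfl
    · rw [dP0]
      exact Finset.sum_congr rfl fun c _ => (fP_s P a c).symm
    · rw [dP1, Finset.sum_comm]
      exact Finset.sum_congr rfl fun s _ => (fP_r P hc a s).symm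
    · rw [dP2]
      exact Finset.sum_congr rfl fun r _ => (fP_c P hr r a).symm
  col i a := by
    rcases zcases i with rfl | rfl | rfl
    · rw [dP0, Finset.sum_comm, show (0 : ZMod 3) + 2 = 2 by decide]
      exact Finset.sum_congr rfl fun s _ => (fP_c P hr a s).symm
    · rw [dP1, show (1 : ZMod 3) + 2 = 0 by decide]
      exact Finset.sum_congr rfl fun r _ => (fP_s P r a).symm
    · rw [dP2, Finset.sum_comm, show (2 : ZMod 3) + 2 = 1 by decide]
      exact Finset.sum_congr rfl fun c _ => (fP_r P hc c a).symm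
  dk := hk

/-- A fractional completion of a partial array. -/
def FracCompletion (P : Fin n → Fin n → Option (Fin n)) (f : Fin n → Fin n → Fin n → ℚ) : Prop :=
  (∀ r c s, 0 ≤ f r c s) ∧ (∀ r c, ∑ s, f r c s = 1) ∧ (∀ c s, ∑ r, f r c s = 1) ∧
    (∀ r s, ∑ c, f r c s = 1) ∧ ∀ r c s, P r c = some s → f r c s = 1

theorem frac_of_setup (P : Fin n → Fin n → Option (Fin n))
    (hr : ∀ (r c₁ c₂ s : Fin n), P r c₁ = some s → P r c₂ = some s → c₁ = c₂)
    (hc : ∀ (c r₁ r₂ s : Fin n), P r₁ c = some s → P r₂ c = some s → r₁ = r₂) {k : ℚ}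
    (hk0 : 0 ≤ k) (hk : ∀ i a, dP P i a ≤ k) (h4 : 4 * k < n)
    (hcrit : 6 * k * NT (gP P) 0 < Ed (gP P) 0 ^ 2) : ∃ f, FracCompletion P f := by
  obtain ⟨w, hw0, hw1, hw2, hw3⟩ := rat_decomp (setup_P P hr hc k hk) hk0 h4 hcrit
  have hfw : ∀ r c s, 0 ≤ fP P r c s := by
    intro r c s; unfold fP; split_ifs <;> norm_num
  refine ⟨fun r c s => w r c s + fP P r c s, ?_, ?_, ?_, ?_, ?_⟩
  · intro r c s
    exact add_nonneg (hw0 _ _ _) (hfw _ _ _)
  · intro r c
    rw [Finset.sum_add_distrib, hw1, fP_s]; ring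
  · intro c s
    rw [Finset.sum_add_distrib, hw2, fP_r P hc]; ring
  · intro r s
    rw [Finset.sum_add_distrib, hw3, fP_c P hr]; ring
  · intro r c s h
    have h1 : fP P r c s = 1 := by unfold fP; rw [if_pos h]
    have h2 : ∑ s, w r c s = 0 := by
      rw [hw1, gP0, if_neg (by rw [h]; simp)]
    have h3 : w r c s = 0 := by
      rw [Finset.sum_eq_zero_iff_of_nonneg fun s _ => hw0 r c s] at h2
      exact h2 s (Finset.mem_univ s)
    simp only [h1, h3, zero_add]

/-- **Fractional completion.** -/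
theorem frac_main (n k : ℕ) (hn : 0 < n) (P : Fin n → Fin n → Option (Fin n))
    (hr : ∀ (r c₁ c₂ s : Fin n), P r c₁ = some s → P r c₂ = some s → c₁ = c₂)
    (hc : ∀ (c r₁ r₂ s : Fin n), P r₁ c = some s → P r₂ c = some s → r₁ = r₂)
    (h1 : ∀ s : Fin n,
      (Finset.univ.filter (fun p : Fin n × Fin n => P p.1 p.2 = some s)).card ≤ k)
    (h2 : ∀ r : Fin n, (Finset.univ.filter (fun c : Fin n => P r c ≠ none)).card ≤ k)
    (h3 : ∀ c : Fin n, (Finset.univ.filter (fun r : Fin n => P r c ≠ none)).card ≤ k)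
    (h : 6 * k ≤ n ∨ (5 * k ≤ n ∧
      ∀ r : Fin n, (Finset.univ.filter (fun c : Fin n => P r c ≠ none)).card = k)) :
    ∃ f, FracCompletion P f := by
  have hn' : (0 : ℚ) < n := by exact_mod_cast hn
  have hk0 : (0 : ℚ) ≤ k := Nat.cast_nonneg k
  have hdk : ∀ i a, dP P i a ≤ (k : ℚ) := by
    intro i a
    rcases zcases i with rfl | rfl | rfl
    · rw [dP0_card]; exact_mod_cast h2 a
    · rw [dP1_card]; exact_mod_cast h3 a
    · rw [dP2_card]; exact_mod_cast h1 a
  have S := setup_P P hr hc k hdk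
  have h4 : 4 * (k : ℚ) < n := by
    rcases Nat.eq_zero_or_pos k with h0 | h0
    · rw [h0]; simpa using hn'
    · have : 4 * k < n := by omega
      exact_mod_cast this
  rcases h with h | ⟨h5, hreg⟩
  · have h6 : 6 * (k : ℚ) ≤ n := by exact_mod_cast h
    have hD0 : 0 ≤ ∑ a, dP P 0 a := by
      refine Finset.sum_nonneg fun a _ => ?_
      rw [dP0_card]
      exact Nat.cast_nonneg _
    rcases hD0.eq_or_lt with h0 | h0
    · -- no filled cell: use `k = 0`
      have hz : ∀ i a, dP P i a ≤ 0 := by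
        intro i a
        have e : ∑ a, dP P i a = 0 := by rw [D_const S i]; exact h0.symm
        have nn : ∀ a, 0 ≤ dP P i a := by
          intro a
          rw [← S.row i a]
          exact Finset.sum_nonneg fun b _ => by linarith [g_le_one S i a b]
        rw [Finset.sum_eq_zero_iff_of_nonneg fun a _ => nn a] at e
        exact (e a (Finset.mem_univ a)).le
      refine frac_of_setup P hr hc le_rfl hz (by simpa using hn') ?_
      have : Ed (gP P) 0 = (n : ℚ) ^ 2 := by rw [Ed_eq S, ← h0]; ring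
      rw [this]
      have : (0 : ℚ) < ((n : ℚ) ^ 2) ^ 2 := by positivity
      linarith
    · exact frac_of_setup P hr hc hk0 hdk h4 (crit_gen S hn hk0 h6 h0)
  · have h5' : 5 * (k : ℚ) ≤ n := by exact_mod_cast h5
    refine frac_of_setup P hr hc hk0 hdk h4 (crit_reg S (fun a => ?_) hn hk0 h5')
    rw [dP0_card, hreg a]

end H56FP
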