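import Pool.Agent.H56.FP.Main2

/-! # Rational decompositions -/

open Finset

set_option linter.unusedSectionVars false

namespace H56FP

variable {n : ℕ}

/-- cast a rational family to the reals -/
def castM (g : M3 ℚ n) : M3 ℝ n := fun i a b => (g i a b : ℝ)

lemma castM_setup {g : M3 ℚ n} {d : ZMod 3 → Fin n → ℚ} {k : ℚ} (S : Setup g d k) :
    Setup (castM g) (fun i a => (d i a : ℝ)) (k : ℝ) where
  g01 i a b := by
    rcases S.g01 i a b with h | h
    · left; simp [castM, h]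
    · right; simp [castM, h]
  row i a := by
    have := congrArg (fun q : ℚ => (q : ℝ)) (S.row i a)
    simpa [castM] using this
  col i a := by
    have := congrArg (fun q : ℚ => (q : ℝ)) (S.col i a)
    simpa [castM] using this
  dk i a := by exact_mod_cast S.dk i a

lemma castM_bal {g x : M3 ℚ n} (hx : x ∈ Bal g) : castM x ∈ Bal (castM g) := by
  refine ⟨fun i a b => ?_, fun i a => ?_⟩
  · have := hx.1 i a b
    unfold castM
    exact_mod_cast this
  · have := hx.2 i a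
    unfold castM
    exact_mod_cast this

lemma castM_Mop (g x : M3 ℚ n) : Mop (castM g) (castM x) = castM (Mop g x) := by
  funext i a b
  unfold castM Mop
  push_cast
  rfl

/-- The rational solution is positive. -/
theorem rat_pos {g : M3 ℚ n} {d : ZMod 3 → Fin n → ℚ} {k : ℚ} (S : Setup g d k) (hk0 : 0 ≤ k)
    (hk : 4 * k < n) (hcrit : 6 * k * NT g 0 < Ed g 0 ^ 2) :
    ∃ x ∈ Bal g, Mop g x = g ∧ ∀ i a b, 0 ≤ x i a b := by
  obtain ⟨y, hy, hye⟩ := exists_sol S hk le_rfl (g_mem S)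
  have hye' : Mop g y = g := by simpa using hye
  have hkR : 4 * (k : ℝ) < n := by exact_mod_cast hk
  have hcR : 6 * (k : ℝ) * NT (castM g) 0 < Ed (castM g) 0 ^ 2 := by
    have h1 : NT (castM g) 0 = ((NT g 0 : ℚ) : ℝ) := by
      unfold NT castM; push_cast; rfl
    have h2 : Ed (castM g) 0 = ((Ed g 0 : ℚ) : ℝ) := by
      unfold Ed castM; push_cast; rfl
    rw [h1, h2]
    exact_mod_cast hcrit
  obtain ⟨x, hx, hxe, hxp⟩ := sol_pos (castM_setup S) (by exact_mod_cast hk0) hkR hcR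
  have heq : castM y = x := by
    refine unique_sol (castM_setup S) hkR le_rfl (castM_bal hy) hx ?_
    rw [castM_Mop, hye', hxe]
    simp
  refine ⟨y, hy, hye', fun i a b => ?_⟩
  rcases S.g01 i a b with h | h
  · have := hy.1 i a b
    rw [h, zero_mul] at this
    exact this.le
  · have h1 : castM g i a b = 1 := by unfold castM; rw [h]; norm_num
    have h2 := hxp i a b h1
    rw [← heq] at h2
    unfold castM at h2
    exact_mod_cast h2.le

/-- The fractional triangle decomposition. -/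
theorem rat_decomp {g : M3 ℚ n} {d : ZMod 3 → Fin n → ℚ} {k : ℚ} (S : Setup g d k) (hk0 : 0 ≤ k)
    (hk : 4 * k < n) (hcrit : 6 * k * NT g 0 < Ed g 0 ^ 2) :
    ∃ w : Fin n → Fin n → Fin n → ℚ, (∀ a b c, 0 ≤ w a b c) ∧
      (∀ a b, ∑ c, w a b c = g 0 a b) ∧ (∀ b c, ∑ a, w a b c = g 1 b c) ∧
      (∀ c a, ∑ b, w a b c = g 2 c a) := by
  obtain ⟨x, hx, hxe, hx0⟩ := rat_pos S hk0 hk hcrit
  refine ⟨fun a b c => g 0 a b * g 1 b c * g 2 c a * (x 0 a b + x 1 b c + x 2 c a), ?_, ?_, ?_, ?_⟩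
  · intro a b c
    have h0 := g_nonneg S 0 a b
    have h1 := g_nonneg S 1 b c
    have h2 := g_nonneg S 2 c a
    have := hx0 0 a b
    have := hx0 1 b c
    have := hx0 2 c a
    positivity
  · intro a b
    have h := congrFun (congrFun (congrFun hxe 0) a) b
    rw [← h]
    unfold Mop
    rw [Finset.mul_sum]
    refine Finset.sum_congr rfl fun c _ => ?_
    rw [show (0 : ZMod 3) + 1 = 1 by decide, show (0 : ZMod 3) + 2 = 2 by decide]
    have h1 := hx.1 1 b c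
    have h2 := hx.1 2 c a
    linear_combination (g 0 a b * g 2 c a) * h1 + (g 0 a b * g 1 b c) * h2
  · intro b c
    have h := congrFun (congrFun (congrFun hxe 1) b) c
    rw [← h]
    unfold Mop
    rw [Finset.mul_sum]
    refine Finset.sum_congr rfl fun a _ => ?_
    rw [show (1 : ZMod 3) + 1 = 2 by decide, show (1 : ZMod 3) + 2 = 0 by decide]
    have h1 := hx.1 2 c a
    have h2 := hx.1 0 a b
    linear_combination (g 1 b c * g 0 a b) * h1 + (g 1 b c * g 2 c a) * h2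
  · intro c a
    have h := congrFun (congrFun (congrFun hxe 2) c) a
    rw [← h]
    unfold Mop
    rw [Finset.mul_sum]
    refine Finset.sum_congr rfl fun b _ => ?_
    rw [show (2 : ZMod 3) + 1 = 0 by decide, show (2 : ZMod 3) + 2 = 1 by decide]
    have h1 := hx.1 0 a b
    have h2 := hx.1 1 b c
    linear_combination (g 2 c a * g 1 b c) * h1 + (g 2 c a * g 0 a b) * h2

section Crit

variable {g : M3 ℚ n} {d : ZMod 3 → Fin n → ℚ} {k : ℚ}

lemma D_const (S : Setup g d k) (i : ZMod 3) : ∑ a, d i a = ∑ a, d 0 a := by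
  refine const_of_succ (fun i => ∑ a, d i a) (fun i => ?_) i
  have h1 : ∑ a, d (i + 1) a = ∑ a, ∑ c, (1 - g i c a) := by
    refine Finset.sum_congr rfl fun a _ => ?_
    have := S.col (i + 1) a
    rw [e12] at this
    exact this.symm
  have h2 : ∑ a, d i a = ∑ a, ∑ b, (1 - g i a b) :=
    Finset.sum_congr rfl fun a _ => (S.row i a).symm
  rw [h1, h2, Finset.sum_comm]

lemma Ed_eq (S : Setup g d k) : Ed g 0 = (n : ℚ) ^ 2 - ∑ a, d 0 a := by
  have h2 : ∑ a, d 0 a = ∑ a, ∑ b, (1 - g 0 a b) :=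
    Finset.sum_congr rfl fun a _ => (S.row 0 a).symm
  rw [h2]
  unfold Ed
  simp only [Finset.sum_sub_distrib, sum_const, card_univ, Fintype.card_fin, nsmul_eq_mul, mul_one]
  ring

lemma pair_sum (S : Setup g d k) (i : ZMod 3) :
    ∑ a, ∑ b, ∑ c, (1 - g i a b) * (1 - g (i + 1) b c) ≤ k * ∑ a, d 0 a := by
  rw [Finset.sum_comm]
  have h : ∀ b, ∑ a, ∑ c, (1 - g i a b) * (1 - g (i + 1) b c) = d (i + 1) b * d (i + 1) b := by
    intro b
    rw [← Finset.sum_mul_sum, S.row]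
    have := S.col (i + 1) b
    rw [e12] at this
    rw [this]
  rw [Finset.sum_congr rfl fun b _ => h b, ← D_const S (i + 1), Finset.mul_sum]
  refine Finset.sum_le_sum fun b _ => ?_
  have h0 : 0 ≤ d (i + 1) b := by
    rw [← S.row]
    exact Finset.sum_nonneg fun c _ => by linarith [g_le_one S (i + 1) b c]
  exact mul_le_mul_of_nonneg_right (S.dk _ _) h0

lemma single_sum (S : Setup g d k) (i : ZMod 3) :
    ∑ a : Fin n, ∑ b : Fin n, ∑ _c : Fin n, (1 - g i a b) = n * ∑ a, d 0 a := by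
  rw [← D_const S i, Finset.mul_sum]
  refine Finset.sum_congr rfl fun a _ => ?_
  rw [← S.row i a, Finset.mul_sum]
  refine Finset.sum_congr rfl fun b _ => ?_
  rw [Finset.sum_const, card_univ, Fintype.card_fin, nsmul_eq_mul]

lemma NT_le (S : Setup g d k) :
    NT g 0 ≤ (n : ℚ) ^ 3 - 3 * n * (∑ a, d 0 a) + 3 * k * ∑ a, d 0 a := by
  have r1 : ∀ F : Fin n → Fin n → Fin n → ℚ, ∑ a, ∑ b, ∑ c, F b c a = ∑ a, ∑ b, ∑ c, F a b c :=
    fun F => rot F
  have s0 := single_sum S 0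
  have s1 : ∑ a : Fin n, ∑ b : Fin n, ∑ c : Fin n, (1 - g 1 b c) = n * ∑ a, d 0 a := by
    rw [← single_sum S 1, ← r1 (fun a b _ => 1 - g 1 a b)]
  have s2 : ∑ a : Fin n, ∑ b : Fin n, ∑ c : Fin n, (1 - g 2 c a) = n * ∑ a, d 0 a := by
    rw [← single_sum S 2, ← r1 (fun a _ c => 1 - g 2 c a)]
  have p0 := pair_sum S 0
  have p1 : ∑ a : Fin n, ∑ b : Fin n, ∑ c : Fin n, (1 - g 1 b c) * (1 - g 2 c a)
      ≤ k * ∑ a, d 0 a := by
    refine le_trans (le_of_eq ?_) (pair_sum S 1)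
    rw [← r1 (fun a b c => (1 - g 1 a b) * (1 - g (1 + 1) b c))]
    rfl
  have p2 : ∑ a : Fin n, ∑ b : Fin n, ∑ c : Fin n, (1 - g 2 c a) * (1 - g 0 a b)
      ≤ k * ∑ a, d 0 a := by
    refine le_trans (le_of_eq ?_) (pair_sum S 2)
    rw [← r1 (fun a b c => (1 - g 2 c a) * (1 - g 0 a b))]
    rfl
  have h1 : NT g 0 ≤ ∑ a : Fin n, ∑ b : Fin n, ∑ c : Fin n,
      (1 - (1 - g 0 a b) - (1 - g 1 b c) - (1 - g 2 c a)
        + (1 - g 0 a b) * (1 - g (0 + 1) b c) + (1 - g 1 b c) * (1 - g 2 c a)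
        + (1 - g 2 c a) * (1 - g 0 a b)) := by
    unfold NT
    refine Finset.sum_le_sum fun a _ => Finset.sum_le_sum fun b _ =>
      Finset.sum_le_sum fun c _ => ?_
    rw [show (0 : ZMod 3) + 1 = 1 by decide, show (0 : ZMod 3) + 2 = 2 by decide]
    rcases S.g01 0 a b with h | h <;> rcases S.g01 1 b c with h' | h' <;>
      rcases S.g01 2 c a with h'' | h'' <;> rw [h, h', h''] <;> norm_num
  have c1 : ∑ _a : Fin n, ∑ _b : Fin n, ∑ _c : Fin n, (1 : ℚ) = (n : ℚ) ^ 3 := by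
    simp only [sum_const, card_univ, Fintype.card_fin, nsmul_eq_mul, mul_one]
    ring
  simp only [Finset.sum_add_distrib, Finset.sum_sub_distrib] at h1 s0 s1 s2 p0 p1 p2 c1 ⊢
  linarith

theorem crit_reg (S : Setup g d k) (hd : ∀ a, d 0 a = k) (hn : 0 < n) (hk0 : 0 ≤ k)
    (h5 : 5 * k ≤ n) : 6 * k * NT g 0 < Ed g 0 ^ 2 := by
  have hD : ∑ a, d 0 a = n * k := by
    rw [Finset.sum_congr rfl fun a _ => hd a, sum_const, card_univ, Fintype.card_fin, nsmul_eq_mul]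
  have h1 := NT_le S
  have h2 := Ed_eq S
  rw [hD] at h1 h2
  rw [h2]
  have hn' : (0 : ℚ) < n := by exact_mod_cast hn
  obtain ⟨t, ht⟩ : ∃ t : ℚ, (n : ℚ) = 5 * k + t := ⟨n - 5 * k, by ring⟩
  have ht0 : 0 ≤ t := by linarith
  have h3 : 6 * k * NT g 0 ≤ 6 * k * ((n : ℚ) ^ 3 - 3 * n * (n * k) + 3 * k * (n * k)) :=
    mul_le_mul_of_nonneg_left h1 (by linarith)
  have h4 : (((n : ℚ) ^ 2 - n * k) ^ 2)
      - 6 * k * ((n : ℚ) ^ 3 - 3 * n * (n * k) + 3 * k * (n * k))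
      = n * (2 * k ^ 3 + 14 * k ^ 2 * t + 7 * k * t ^ 2 + t ^ 3) := by
    rw [ht]; ring
  have h5 : 0 < 2 * k ^ 3 + 14 * k ^ 2 * t + 7 * k * t ^ 2 + t ^ 3 := by
    rcases hk0.eq_or_lt with h | h
    · rw [← h] at ht ⊢
      have : 0 < t := by linarith
      positivity
    · positivity
  have h6 := mul_pos hn' h5
  linarith

theorem crit_gen (S : Setup g d k) (hn : 0 < n) (hk0 : 0 ≤ k) (h6 : 6 * k ≤ n)
    (hD : 0 < ∑ a, d 0 a) : 6 * k * NT g 0 < Ed g 0 ^ 2 := by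
  have h1 := NT_le S
  have h2 := Ed_eq S
  have hDk : ∑ a, d 0 a ≤ n * k := by
    calc ∑ a, d 0 a ≤ ∑ _a : Fin n, k := Finset.sum_le_sum fun a _ => S.dk 0 a
      _ = n * k := by rw [sum_const, card_univ, Fintype.card_fin, nsmul_eq_mul]
  rw [h2]
  generalize ∑ a, d 0 a = D at *
  have hn' : (0 : ℚ) < n := by exact_mod_cast hn
  obtain ⟨t, ht⟩ : ∃ t : ℚ, (n : ℚ) = 6 * k + t := ⟨n - 6 * k, by ring⟩
  have ht0 : 0 ≤ t := by linarith
  have h3 : 6 * k * NT g 0 ≤ 6 * k * ((n : ℚ) ^ 3 - 3 * n * D + 3 * k * D) :=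
    mul_le_mul_of_nonneg_left h1 (by linarith)
  have h4 : (((n : ℚ) ^ 2 - D) ^ 2) - 6 * k * ((n : ℚ) ^ 3 - 3 * n * D + 3 * k * D)
      = n ^ 3 * t - D * (6 * k * t + 2 * t ^ 2) + 18 * k ^ 2 * D + D ^ 2 := by
    rw [ht]; ring
  have h5 : D * (6 * k * t + 2 * t ^ 2) ≤ n ^ 3 * t := by
    have e1 : D * (6 * k * t + 2 * t ^ 2) ≤ (n * k) * (6 * k * t + 2 * t ^ 2) :=
      mul_le_mul_of_nonneg_right hDk (by positivity)
    have e2 : (n : ℚ) ^ 3 * t - (n * k) * (6 * k * t + 2 * t ^ 2)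
        = n * t * (30 * k ^ 2 + 10 * k * t + t ^ 2) := by
      rw [ht]; ring
    have e3 : 0 ≤ n * t * (30 * k ^ 2 + 10 * k * t + t ^ 2) := by positivity
    linarith
  have h6 : 0 < 18 * k ^ 2 * D + D ^ 2 := by positivity
  linarith

end Crit

end H56FP
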