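import Pool.Agent.H56.FP.PD

/-! # Existence, uniqueness and Lipschitz dependence of the solution of `(M + σ) x = 1` -/

open Finset

set_option linter.unusedSectionVars false

namespace H56FP

section Gen

variable {K : Type} [Field K] [LinearOrder K] [IsStrictOrderedRing K] {n : ℕ}

/-- The triangle operator as a linear map. -/
def MopL (g : M3 K n) : M3 K n →ₗ[K] M3 K n where
  toFun := Mop g
  map_add' x y := by
    funext i a b
    simp only [Mop, Pi.add_apply]
    rw [← mul_add, ← Finset.sum_add_distrib]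
    congr 1
    refine Finset.sum_congr rfl fun c _ => ?_
    ring
  map_smul' r x := by
    funext i a b
    simp only [Mop, Pi.smul_apply, smul_eq_mul, RingHom.id_apply]
    rw [mul_left_comm, Finset.mul_sum (s := univ) (a := r)]
    congr 1
    refine Finset.sum_congr rfl fun c _ => ?_
    ring

lemma Mop_mem {g : M3 K n} {d : ZMod 3 → Fin n → K} {k : K} (S : Setup g d k) {x : M3 K n}
    (hx : x ∈ Bal g) : Mop g x ∈ Bal g := by
  obtain ⟨hs, hb⟩ := hx
  refine ⟨fun i a b => ?_, fun i a => ?_⟩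
  · unfold Mop
    rw [← mul_assoc, g_sq S]
  · have h1 : ∑ b, Mop g x i a b = ∑ b, ∑ c, (x i a b * g (i + 1) b c * g (i + 2) c a
        + g i a b * x (i + 1) b c * g (i + 2) c a + g i a b * g (i + 1) b c * x (i + 2) c a) := by
      refine Finset.sum_congr rfl fun b _ => ?_
      unfold Mop
      rw [Finset.mul_sum]
      refine Finset.sum_congr rfl fun c _ => ?_
      rw [mul_add, mul_add]
      have := hs i a b
      linear_combination (g (i + 1) b c * g (i + 2) c a) * this
    have h2 : ∑ c, Mop g x (i + 2) c a = ∑ c, ∑ b, (x i a b * g (i + 1) b c * g (i + 2) c a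
        + g i a b * x (i + 1) b c * g (i + 2) c a + g i a b * g (i + 1) b c * x (i + 2) c a) := by
      refine Finset.sum_congr rfl fun c _ => ?_
      unfold Mop
      rw [Finset.mul_sum]
      refine Finset.sum_congr rfl fun b _ => ?_
      rw [e21, e22]
      have := hs (i + 2) c a
      linear_combination (g i a b * g (i + 1) b c) * this
    rw [h1, h2, Finset.sum_comm]

lemma g_mem {g : M3 K n} {d : ZMod 3 → Fin n → K} {k : K} (S : Setup g d k) : g ∈ Bal g := by
  refine ⟨fun i a b => g_sq S i a b, fun i a => ?_⟩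
  have h1 := S.row i a
  have h2 := S.col i a
  rw [Finset.sum_sub_distrib] at h1 h2
  linarith

/-- the inner product -/
def ip (x y : M3 K n) : K := ∑ i, ∑ a, ∑ b, x i a b * y i a b

lemma ip_self (x : M3 K n) : ip x x = nsq x := by
  unfold ip nsq
  refine Finset.sum_congr rfl fun i _ => Finset.sum_congr rfl fun a _ =>
    Finset.sum_congr rfl fun b _ => ?_
  ring

lemma ip_add (x y z : M3 K n) : ip x (y + z) = ip x y + ip x z := by
  unfold ip
  simp only [Pi.add_apply, mul_add, Finset.sum_add_distrib]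

lemma ip_smul (x y : M3 K n) (r : K) : ip x (r • y) = r * ip x y := by
  unfold ip
  simp only [Pi.smul_apply, smul_eq_mul, Finset.mul_sum]
  refine Finset.sum_congr rfl fun i _ => Finset.sum_congr rfl fun a _ =>
    Finset.sum_congr rfl fun b _ => ?_
  ring

lemma Qf_eq (g x : M3 K n) : Qf g x = ip x (Mop g x) := rfl

/-- `2 c ⟨x,y⟩ ≤ ⟨y,y⟩ + c² ⟨x,x⟩` -/
lemma ip_le (x y : M3 K n) (c : K) : 2 * c * ip x y ≤ nsq y + c ^ 2 * nsq x := by
  unfold ip nsq
  simp only [Finset.mul_sum, ← Finset.sum_add_distrib]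
  refine Finset.sum_le_sum fun i _ => Finset.sum_le_sum fun a _ =>
    Finset.sum_le_sum fun b _ => ?_
  nlinarith [sq_nonneg (y i a b - c * x i a b)]

/-- coercivity of `M + σ` -/
lemma coercive {g : M3 K n} {d : ZMod 3 → Fin n → K} {k : K} (S : Setup g d k) {x : M3 K n}
    (hx : x ∈ Bal g) (σ : K) : ((n : K) - 4 * k + σ) * nsq x ≤ ip x (Mop g x + σ • x) := by
  rw [ip_add, ip_smul, ip_self, ← Qf_eq]
  have := pd S x hx
  linarith

/-- norm estimate: if `(M + σ) x = y` then `c² |x|² ≤ |y|²` for `0 < c ≤ n - 4k + σ`. -/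
lemma norm_est {g : M3 K n} {d : ZMod 3 → Fin n → K} {k : K} (S : Setup g d k) {x y : M3 K n}
    (hx : x ∈ Bal g) {σ c : K} (hc : 0 < c) (hc' : c ≤ (n : K) - 4 * k + σ)
    (he : Mop g x + σ • x = y) : c ^ 2 * nsq x ≤ nsq y := by
  have h1 := coercive S hx σ
  rw [he] at h1
  have h2 := ip_le x y c
  have h3 := nsq_nonneg x
  have h4 : c * nsq x ≤ ip x y := le_trans (mul_le_mul_of_nonneg_right hc' h3) h1
  nlinarith

theorem exists_sol {g : M3 K n} {d : ZMod 3 → Fin n → K} {k : K} (S : Setup g d k)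
    (hk : 4 * k < n) {σ : K} (hσ : 0 ≤ σ) {y : M3 K n} (hy : y ∈ Bal g) :
    ∃ x ∈ Bal g, Mop g x + σ • x = y := by
  have hmaps : ∀ x ∈ Bal g, (MopL g + σ • (LinearMap.id : M3 K n →ₗ[K] M3 K n)) x ∈ Bal g := by
    intro x hx
    exact (Bal g).add_mem (Mop_mem S hx) ((Bal g).smul_mem σ hx)
  let B := (MopL g + σ • (LinearMap.id : M3 K n →ₗ[K] M3 K n)).restrict hmaps
  have hinj : Function.Injective B := by
    rw [← LinearMap.ker_eq_bot, LinearMap.ker_eq_bot']
    intro x hx0
    have h0 : Mop g x.1 + σ • x.1 = 0 := by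
      have := congrArg Subtype.val hx0
      exact this
    have hc : 0 < (n : K) - 4 * k + σ := by linarith
    have h1 := norm_est S x.2 hc le_rfl h0
    have h2 : nsq (0 : M3 K n) = 0 := by simp [nsq]
    rw [h2] at h1
    have h3 : nsq x.1 ≤ 0 := by
      by_contra hcon
      push Not at hcon
      have : 0 < ((n : K) - 4 * k + σ) ^ 2 * nsq x.1 := by positivity
      linarith
    exact Subtype.ext (nsq_eq_zero _ h3)
  have hsurj : Function.Surjective B := LinearMap.injective_iff_surjective.mp hinj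
  obtain ⟨x, hx⟩ := hsurj ⟨y, hy⟩
  exact ⟨x.1, x.2, congrArg Subtype.val hx⟩

theorem unique_sol {g : M3 K n} {d : ZMod 3 → Fin n → K} {k : K} (S : Setup g d k)
    (hk : 4 * k < n) {σ : K} (hσ : 0 ≤ σ) {x x' : M3 K n} (hx : x ∈ Bal g) (hx' : x' ∈ Bal g)
    (h : Mop g x + σ • x = Mop g x' + σ • x') : x = x' := by
  have h0 : Mop g (x - x') + σ • (x - x') = 0 := by
    have : Mop g (x - x') = Mop g x - Mop g x' := (MopL g).map_sub x x'
    rw [this, smul_sub, sub_add_sub_comm, h, sub_self]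
  have hc : 0 < (n : K) - 4 * k + σ := by linarith
  have h1 := norm_est S ((Bal g).sub_mem hx hx') hc le_rfl h0
  have h2 : nsq (0 : M3 K n) = 0 := by simp [nsq]
  rw [h2] at h1
  have h3 : nsq (x - x') ≤ 0 := by
    by_contra hcon
    push Not at hcon
    have : 0 < ((n : K) - 4 * k + σ) ^ 2 * nsq (x - x') := by positivity
    linarith
  exact sub_eq_zero.mp (nsq_eq_zero _ h3)

/-- Lipschitz dependence on `σ`. -/
theorem lip_sol {g : M3 K n} {d : ZMod 3 → Fin n → K} {k : K} (S : Setup g d k)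
    (hk : 4 * k < n) {σ τ : K} (hσ : 0 ≤ σ) (hτ : 0 ≤ τ) {x y z : M3 K n} (hx : x ∈ Bal g)
    (hy : y ∈ Bal g) (h1 : Mop g x + σ • x = z) (h2 : Mop g y + τ • y = z) :
    ((n : K) - 4 * k) ^ 4 * nsq (x - y) ≤ (τ - σ) ^ 2 * nsq z := by
  have hc : 0 < (n : K) - 4 * k := by linarith
  have hd : Mop g (x - y) + σ • (x - y) = (τ - σ) • y := by
    have : Mop g (x - y) = Mop g x - Mop g y := (MopL g).map_sub x y
    rw [this, smul_sub, sub_add_sub_comm, h1, ← h2, sub_smul]
    abel
  have e1 := norm_est S ((Bal g).sub_mem hx hy) hc (by linarith) hd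
  have e2 := norm_est S hy hc (by linarith) h2
  have e3 : nsq ((τ - σ) • y) = (τ - σ) ^ 2 * nsq y := by
    unfold nsq
    simp only [Pi.smul_apply, smul_eq_mul, Finset.mul_sum, mul_pow]
  rw [e3] at e1
  calc ((n : K) - 4 * k) ^ 4 * nsq (x - y)
      = ((n : K) - 4 * k) ^ 2 * (((n : K) - 4 * k) ^ 2 * nsq (x - y)) := by ring
    _ ≤ ((n : K) - 4 * k) ^ 2 * ((τ - σ) ^ 2 * nsq y) :=
        mul_le_mul_of_nonneg_left e1 (sq_nonneg _)
    _ = (τ - σ) ^ 2 * (((n : K) - 4 * k) ^ 2 * nsq y) := by ring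
    _ ≤ (τ - σ) ^ 2 * nsq z := mul_le_mul_of_nonneg_left e2 (sq_nonneg _)

lemma sq_le_nsq (x : M3 K n) (i a b) : x i a b ^ 2 ≤ nsq x := by
  unfold nsq
  have h1 : x i a b ^ 2 ≤ ∑ b, x i a b ^ 2 :=
    Finset.single_le_sum (f := fun b => x i a b ^ 2) (fun b _ => sq_nonneg _) (Finset.mem_univ b)
  have h2 : ∑ b, x i a b ^ 2 ≤ ∑ a, ∑ b, x i a b ^ 2 :=
    Finset.single_le_sum (f := fun a => ∑ b, x i a b ^ 2)
      (fun a _ => Finset.sum_nonneg fun b _ => sq_nonneg _) (Finset.mem_univ a)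
  have h3 : ∑ a, ∑ b, x i a b ^ 2 ≤ ∑ i, ∑ a, ∑ b, x i a b ^ 2 :=
    Finset.single_le_sum (f := fun i => ∑ a, ∑ b, x i a b ^ 2)
      (fun i _ => Finset.sum_nonneg fun a _ => Finset.sum_nonneg fun b _ => sq_nonneg _)
      (Finset.mem_univ i)
  linarith

end Gen

end H56FP
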