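import Mathlib

set_option linter.unusedSimpArgs false

/-!
# Symmetrisation of a fractional decomposition of the three-fold cover
-/

open Finset

namespace H56FP

private lemma w_zero {n : ℕ} {w : Fin n → Fin n → Fin n → ℚ} (hw0 : ∀ a b c, 0 ≤ w a b c)
    {G : SimpleGraph (Fin n)} [DecidableRel G.Adj]
    (h1 : ∀ a b, ∑ c, w a b c = if G.Adj a b then 1 else 0)
    (h2 : ∀ b c, ∑ a, w a b c = if G.Adj b c then 1 else 0)
    (h3 : ∀ c a, ∑ b, w a b c = if G.Adj c a then 1 else 0)
    {a b c : Fin n} (h : w a b c ≠ 0) : G.Adj a b ∧ G.Adj b c ∧ G.Adj a c := by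
  refine ⟨?_, ?_, ?_⟩
  · by_contra hn
    have := h1 a b
    rw [if_neg hn, Finset.sum_eq_zero_iff_of_nonneg (fun i _ => hw0 a b i)] at this
    exact h (this c (mem_univ _))
  · by_contra hn
    have := h2 b c
    rw [if_neg hn, Finset.sum_eq_zero_iff_of_nonneg (fun i _ => hw0 i b c)] at this
    exact h (this a (mem_univ _))
  · by_contra hn
    have := h3 c a
    rw [if_neg (fun h' => hn h'.symm),
      Finset.sum_eq_zero_iff_of_nonneg (fun i _ => hw0 a i c)] at this
    exact h (this b (mem_univ _))

private lemma split6 {n : ℕ} (x : ℚ) {u v a b c : Fin n} (huv : u ≠ v)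
    (hab : a ≠ b) (hbc : b ≠ c) (hac : a ≠ c) :
    (if u ∈ ({a, b, c} : Finset (Fin n)) ∧ v ∈ ({a, b, c} : Finset (Fin n)) then x else 0)
      = (if a = u then (if b = v then x else 0) else 0)
        + (if a = v then (if b = u then x else 0) else 0)
        + (if b = u then (if c = v then x else 0) else 0)
        + (if b = v then (if c = u then x else 0) else 0)
        + (if a = u then (if c = v then x else 0) else 0)
        + (if a = v then (if c = u then x else 0) else 0) := by
  simp only [Finset.mem_insert, Finset.mem_singleton]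
  by_cases h1 : a = u
  · subst h1
    by_cases h2 : b = v
    · subst h2
      simp [hab, hab.symm, hbc, hbc.symm, hac, hac.symm]
    · by_cases h3 : c = v
      · subst h3
        simp [hab, hab.symm, hbc, hbc.symm, hac, hac.symm]
      · simp [hab, hab.symm, hbc, hbc.symm, hac, hac.symm, huv, huv.symm, h2, h3,
          Ne.symm h2, Ne.symm h3]
  · by_cases h2 : b = u
    · subst h2
      by_cases h3 : a = v
      · subst h3
        simp [hab, hab.symm, hbc, hbc.symm, hac, hac.symm]
      · by_cases h4 : c = v
        · subst h4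
          simp [hab, hab.symm, hbc, hbc.symm, hac, hac.symm]
        · simp [hab, hab.symm, hbc, hbc.symm, hac, hac.symm, huv, huv.symm, h3, h4,
            Ne.symm h3, Ne.symm h4]
    · by_cases h3 : c = u
      · subst h3
        by_cases h4 : a = v
        · subst h4
          simp [hab, hab.symm, hbc, hbc.symm, hac, hac.symm]
        · by_cases h5 : b = v
          · subst h5
            simp [hab, hab.symm, hbc, hbc.symm, hac, hac.symm]
          · simp [hab, hab.symm, hbc, hbc.symm, hac, hac.symm, huv, huv.symm, h4, h5,
              Ne.symm h4, Ne.symm h5]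
      · simp [h1, h2, h3, Ne.symm h1, Ne.symm h2, Ne.symm h3]

theorem symm_decomp {n : ℕ} (G : SimpleGraph (Fin n)) [DecidableRel G.Adj]
    (w : Fin n → Fin n → Fin n → ℚ) (hw0 : ∀ a b c, 0 ≤ w a b c)
    (h1 : ∀ a b, ∑ c, w a b c = if G.Adj a b then 1 else 0)
    (h2 : ∀ b c, ∑ a, w a b c = if G.Adj b c then 1 else 0)
    (h3 : ∀ c a, ∑ b, w a b c = if G.Adj c a then 1 else 0) :
    ∃ f : Finset (Fin n) → ℚ, (∀ t, 0 ≤ f t) ∧ (∀ t, f t ≠ 0 → G.IsNClique 3 t) ∧
      (∀ u v, G.Adj u v → ∑ t ∈ univ.filter (fun t => u ∈ t ∧ v ∈ t), f t = 1) := by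
  have key := fun {a b c : Fin n} (h : w a b c ≠ 0) => w_zero hw0 h1 h2 h3 h
  refine ⟨fun t => (1 / 6) * ∑ a, ∑ b, ∑ c, if ({a, b, c} : Finset (Fin n)) = t then w a b c else 0,
    ?_, ?_, ?_⟩
  · intro t
    refine mul_nonneg (by norm_num) (sum_nonneg fun a _ => sum_nonneg fun b _ =>
      sum_nonneg fun c _ => ?_)
    split_ifs
    · exact hw0 a b c
    · exact le_rfl
  · intro t ht
    have h' : ∑ a, ∑ b, ∑ c, (if ({a, b, c} : Finset (Fin n)) = t then w a b c else 0) ≠ 0 :=
      right_ne_zero_of_mul ht
    obtain ⟨a, -, ha⟩ := Finset.exists_ne_zero_of_sum_ne_zero h'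
    obtain ⟨b, -, hb⟩ := Finset.exists_ne_zero_of_sum_ne_zero ha
    obtain ⟨c, -, hc⟩ := Finset.exists_ne_zero_of_sum_ne_zero hb
    by_cases he : ({a, b, c} : Finset (Fin n)) = t
    · rw [if_pos he] at hc
      obtain ⟨hab, hbc, hac⟩ := key hc
      rw [← he]
      exact SimpleGraph.is3Clique_triple_iff.2 ⟨hab, hac, hbc⟩
    · rw [if_neg he] at hc
      exact absurd rfl hc
  · intro u v huv
    have hne : u ≠ v := huv.ne
    rw [← Finset.mul_sum]
    have e1 : ∑ t ∈ univ.filter (fun t : Finset (Fin n) => u ∈ t ∧ v ∈ t),
        ∑ a, ∑ b, ∑ c, (if ({a, b, c} : Finset (Fin n)) = t then w a b c else 0)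
        = ∑ a, ∑ b, ∑ c, (if u ∈ ({a, b, c} : Finset (Fin n)) ∧ v ∈ ({a, b, c} : Finset (Fin n))
            then w a b c else 0) := by
      rw [Finset.sum_comm]
      refine Finset.sum_congr rfl fun a _ => ?_
      rw [Finset.sum_comm]
      refine Finset.sum_congr rfl fun b _ => ?_
      rw [Finset.sum_comm]
      refine Finset.sum_congr rfl fun c _ => ?_
      rw [Finset.sum_ite_eq]
      simp only [Finset.mem_filter, Finset.mem_univ, true_and]
    have e2 : ∀ a b c, (if u ∈ ({a, b, c} : Finset (Fin n)) ∧ v ∈ ({a, b, c} : Finset (Fin n))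
            then w a b c else 0) =
        (if a = u then (if b = v then w a b c else 0) else 0)
        + (if a = v then (if b = u then w a b c else 0) else 0)
        + (if b = u then (if c = v then w a b c else 0) else 0)
        + (if b = v then (if c = u then w a b c else 0) else 0)
        + (if a = u then (if c = v then w a b c else 0) else 0)
        + (if a = v then (if c = u then w a b c else 0) else 0) := by
      intro a b c
      by_cases hw : w a b c = 0
      · simp [hw]
      · obtain ⟨hab, hbc, hac⟩ := key hw
        exact split6 _ hne hab.ne hbc.ne hac.ne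
    have p1 : ∀ p q : Fin n, G.Adj p q →
        ∑ a, ∑ b, ∑ c, (if a = p then (if b = q then w a b c else 0) else 0) = 1 := by
      intro p q hpq
      have : ∀ a b, ∑ c, (if a = p then (if b = q then w a b c else 0) else 0)
          = if a = p then (if b = q then ∑ c, w a b c else 0) else 0 := by
        intro a b
        split_ifs <;> simp
      simp only [this]
      have h4 : ∀ a, ∑ b, (if a = p then (if b = q then ∑ c, w a b c else 0) else 0)
          = if a = p then ∑ c, w a q c else 0 := by
        intro a
        split_ifs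
        · rw [Finset.sum_ite_eq']; simp
        · simp
      simp only [h4]
      rw [Finset.sum_ite_eq']
      simp [h1, hpq]
    have p2 : ∀ p q : Fin n, G.Adj p q →
        ∑ a, ∑ b, ∑ c, (if b = p then (if c = q then w a b c else 0) else 0) = 1 := by
      intro p q hpq
      have : ∀ a b, ∑ c, (if b = p then (if c = q then w a b c else 0) else 0)
          = if b = p then w a b q else 0 := by
        intro a b
        split_ifs
        · rw [Finset.sum_ite_eq']; simp
        · simp
      simp only [this]
      have h4 : ∀ a, ∑ b, (if b = p then w a b q else 0) = w a p q := by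
        intro a
        rw [Finset.sum_ite_eq']; simp
      simp only [h4]
      rw [h2, if_pos hpq]
    have p3 : ∀ p q : Fin n, G.Adj p q →
        ∑ a, ∑ b, ∑ c, (if a = p then (if c = q then w a b c else 0) else 0) = 1 := by
      intro p q hpq
      have : ∀ a b, ∑ c, (if a = p then (if c = q then w a b c else 0) else 0)
          = if a = p then w a b q else 0 := by
        intro a b
        split_ifs
        · rw [Finset.sum_ite_eq']; simp
        · simp
      simp only [this]
      have h4 : ∀ a, ∑ b, (if a = p then w a b q else 0) = if a = p then ∑ b, w a b q else 0 := by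
        intro a
        split_ifs <;> simp
      simp only [h4]
      rw [Finset.sum_ite_eq']
      simp [h3, hpq.symm]
    rw [e1]
    simp only [e2, Finset.sum_add_distrib]
    rw [p1 u v huv, p1 v u huv.symm, p2 u v huv, p2 v u huv.symm, p3 u v huv, p3 v u huv.symm]
    norm_num

end H56FP
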