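import Pool.Agent.H56.FP.WHom

/-! # Weighted tripartite graphs: the criterion in terms of the degrees -/

open Finset

set_option linter.unusedSectionVars false

namespace H56FP

variable {n : ℕ} {g : M3 ℚ n} {d : ZMod 3 → Fin n → ℚ} {k : ℚ}

lemma WD_const (S : WSetup g d k) (i : ZMod 3) : ∑ a, d i a = ∑ a, d 0 a := by
  refine const_of_succ (fun i => ∑ a, d i a) (fun i => ?_) i
  have h1 : ∑ a, d (i + 1) a = ∑ a, ∑ c, (1 - g i c a) := by
    refine Finset.sum_congr rfl fun a _ => ?_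
    have := S.col (i + 1) a
    rw [e12] at this
    exact this.symm
  have h2 : ∑ a, d i a = ∑ a, ∑ b, (1 - g i a b) :=
    Finset.sum_congr rfl fun a _ => (S.row i a).symm
  rw [h1, h2, Finset.sum_comm]

lemma WEd_eq (S : WSetup g d k) : Ed g 0 = (n : ℚ) ^ 2 - ∑ a, d 0 a := by
  have h2 : ∑ a, d 0 a = ∑ a, ∑ b, (1 - g 0 a b) :=
    Finset.sum_congr rfl fun a _ => (S.row 0 a).symm
  rw [h2]
  unfold Ed
  simp only [Finset.sum_sub_distrib, sum_const, card_univ, Fintype.card_fin, nsmul_eq_mul, mul_one]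
  ring

lemma w_pair_sum (S : WSetup g d k) (i : ZMod 3) :
    ∑ a, ∑ b, ∑ c, (1 - g i a b) * (1 - g (i + 1) b c) ≤ k * ∑ a, d 0 a := by
  rw [Finset.sum_comm]
  have h : ∀ b, ∑ a, ∑ c, (1 - g i a b) * (1 - g (i + 1) b c) = d (i + 1) b * d (i + 1) b := by
    intro b
    rw [← Finset.sum_mul_sum, S.row]
    have := S.col (i + 1) b
    rw [e12] at this
    rw [this]
  rw [Finset.sum_congr rfl fun b _ => h b, ← WD_const S (i + 1), Finset.mul_sum]
  refine Finset.sum_le_sum fun b _ => ?_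
  exact mul_le_mul_of_nonneg_right (S.dk _ _) (S.d0 _ _)

lemma w_single_sum (S : WSetup g d k) (i : ZMod 3) :
    ∑ a : Fin n, ∑ b : Fin n, ∑ _c : Fin n, (1 - g i a b) = n * ∑ a, d 0 a := by
  rw [← WD_const S i, Finset.mul_sum]
  refine Finset.sum_congr rfl fun a _ => ?_
  rw [← S.row i a, Finset.mul_sum]
  refine Finset.sum_congr rfl fun b _ => ?_
  rw [Finset.sum_const, card_univ, Fintype.card_fin, nsmul_eq_mul]

lemma three_le {p q r : ℚ} (hp1 : p ≤ 1) (hq1 : q ≤ 1) (hr1 : r ≤ 1) : p * q * r ≤ 1 - (1 - p) - (1 - q) - (1 - r) + (1 - p) * (1 - q)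
      + (1 - q) * (1 - r) + (1 - r) * (1 - p) := by
  have : 0 ≤ (1 - p) * (1 - q) * (1 - r) :=
    mul_nonneg (mul_nonneg (by linarith) (by linarith)) (by linarith)
  linarith

lemma WNT_le (S : WSetup g d k) :
    NT g 0 ≤ (n : ℚ) ^ 3 - 3 * n * (∑ a, d 0 a) + 3 * k * ∑ a, d 0 a := by
  have r1 : ∀ F : Fin n → Fin n → Fin n → ℚ, ∑ a, ∑ b, ∑ c, F b c a = ∑ a, ∑ b, ∑ c, F a b c :=
    fun F => rot F
  have s0 := w_single_sum S 0
  have s1 : ∑ a : Fin n, ∑ b : Fin n, ∑ c : Fin n, (1 - g 1 b c) = n * ∑ a, d 0 a := by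
    rw [← w_single_sum S 1, ← r1 (fun a b _ => 1 - g 1 a b)]
  have s2 : ∑ a : Fin n, ∑ b : Fin n, ∑ c : Fin n, (1 - g 2 c a) = n * ∑ a, d 0 a := by
    rw [← w_single_sum S 2, ← r1 (fun a _ c => 1 - g 2 c a)]
  have p0 := w_pair_sum S 0
  have p1 : ∑ a : Fin n, ∑ b : Fin n, ∑ c : Fin n, (1 - g 1 b c) * (1 - g 2 c a)
      ≤ k * ∑ a, d 0 a := by
    refine le_trans (le_of_eq ?_) (w_pair_sum S 1)
    rw [← r1 (fun a b c => (1 - g 1 a b) * (1 - g (1 + 1) b c))]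
    rfl
  have p2 : ∑ a : Fin n, ∑ b : Fin n, ∑ c : Fin n, (1 - g 2 c a) * (1 - g 0 a b)
      ≤ k * ∑ a, d 0 a := by
    refine le_trans (le_of_eq ?_) (w_pair_sum S 2)
    rw [← r1 (fun a b c => (1 - g 2 c a) * (1 - g 0 a b))]
    rfl
  have h1 : NT g 0 ≤ ∑ a : Fin n, ∑ b : Fin n, ∑ c : Fin n,
      (1 - (1 - g 0 a b) - (1 - g 1 b c) - (1 - g 2 c a)
        + (1 - g 0 a b) * (1 - g (0 + 1) b c) + (1 - g 1 b c) * (1 - g 2 c a)
        + (1 - g 2 c a) * (1 - g 0 a b)) := by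
    unfold NT
    refine Finset.sum_le_sum fun a _ => Finset.sum_le_sum fun b _ =>
      Finset.sum_le_sum fun c _ => ?_
    rw [z01, z02]
    exact three_le (S.g1 _ _ _) (S.g1 _ _ _) (S.g1 _ _ _)
  have c1 : ∑ _a : Fin n, ∑ _b : Fin n, ∑ _c : Fin n, (1 : ℚ) = (n : ℚ) ^ 3 := by
    simp only [sum_const, card_univ, Fintype.card_fin, nsmul_eq_mul, mul_one]
    ring
  simp only [Finset.sum_add_distrib, Finset.sum_sub_distrib] at h1 s0 s1 s2 p0 p1 p2 c1 ⊢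
  linarith

/-- The polynomial inequality behind the constant `0.193`. -/
lemma poly_ineq {n k u : ℚ} (hk : 0 < k) (h : 1000 * k ≤ 193 * n) (hu0 : 0 ≤ u)
    (hu : u ≤ 49 / 64 * k ^ 2) :
    6 * k * (n ^ 3 - 3 * n * (n * k - u) + 3 * k * (n * k - u)) < (n ^ 2 - (n * k - u)) ^ 2 := by
  obtain ⟨t, ht⟩ : ∃ t : ℚ, n = 1000 / 193 * k + t := ⟨n - 1000 / 193 * k, by ring⟩
  have ht0 : 0 ≤ t := by linarith
  have hn : 0 < n := by rw [ht]; positivity
  -- difference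
  have e1 : (n ^ 2 - (n * k - u)) ^ 2
      - 6 * k * (n ^ 3 - 3 * n * (n * k - u) + 3 * k * (n * k - u))
      = n * (n ^ 3 - 8 * n ^ 2 * k + 19 * n * k ^ 2 - 18 * k ^ 3)
        - (n - k) * (18 * k - 2 * n) * u + u ^ 2 := by ring
  have hG : 0 < n * (n ^ 3 - 8 * n ^ 2 * k + 19 * n * k ^ 2 - 18 * k ^ 3)
      - 49 / 64 * ((n - k) * (18 * k - 2 * n)) * k ^ 2 := by
    rw [ht]
    ring_nf
    positivity
  have hG0 : 0 < n * (n ^ 3 - 8 * n ^ 2 * k + 19 * n * k ^ 2 - 18 * k ^ 3) := by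
    rw [ht]
    ring_nf
    positivity
  have hnk : 0 < n - k := by rw [ht]; linarith
  rcases le_or_gt (18 * k - 2 * n) 0 with h1 | h1
  · have h2 : (n - k) * (18 * k - 2 * n) * u ≤ 0 :=
      mul_nonpos_of_nonpos_of_nonneg (mul_nonpos_of_nonneg_of_nonpos hnk.le h1) hu0
    nlinarith [sq_nonneg u]
  · have h2 : (n - k) * (18 * k - 2 * n) * u ≤ (n - k) * (18 * k - 2 * n) * (49 / 64 * k ^ 2) :=
      mul_le_mul_of_nonneg_left hu (mul_nonneg hnk.le h1.le)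
    nlinarith [sq_nonneg u]

/-- The criterion for nearly regular complements. -/
theorem near_regular (S : WSetup g d k) (hk : 0 < k) (h : 1000 * k ≤ 193 * n)
    (hD : (n : ℚ) * k - 49 / 64 * k ^ 2 ≤ ∑ a, d 0 a) : ∃ w, IsDecomp g w := by
  have hDk : ∑ a, d 0 a ≤ n * k := by
    calc ∑ a, d 0 a ≤ ∑ _a : Fin n, k := Finset.sum_le_sum fun a _ => S.dk 0 a
      _ = n * k := by rw [sum_const, card_univ, Fintype.card_fin, nsmul_eq_mul]
  refine wcore S hk.le (by linarith) ?_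
  rw [WEd_eq S]
  have h1 := WNT_le S
  obtain ⟨u, hu⟩ : ∃ u : ℚ, ∑ a, d 0 a = n * k - u := ⟨n * k - ∑ a, d 0 a, by ring⟩
  rw [hu] at h1 hD hDk ⊢
  have h2 := poly_ineq (n := n) (u := u) hk h (by linarith) (by linarith)
  have h3 : 6 * k * NT g 0
      ≤ 6 * k * ((n : ℚ) ^ 3 - 3 * n * (n * k - u) + 3 * k * (n * k - u)) :=
    mul_le_mul_of_nonneg_left h1 (by linarith)
  linarith

/-- The trivial case `k = 0`. -/
theorem w_zero (S : WSetup g d 0) (hn : 0 < n) : ∃ w, IsDecomp g w := by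
  have hn' : (0 : ℚ) < n := by exact_mod_cast hn
  refine wcore S le_rfl (by linarith) ?_
  have h0 : ∑ a, d 0 a = 0 := by
    refine le_antisymm ?_ (Finset.sum_nonneg fun a _ => S.d0 0 a)
    exact Finset.sum_nonpos fun a _ => S.dk 0 a
  rw [WEd_eq S, h0, sub_zero]
  have : (0 : ℚ) < ((n : ℚ) ^ 2) ^ 2 := by positivity
  linarith

end H56FP
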