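import Pool.Agent.H56.FP.Rat

/-! # Weighted tripartite graphs: definitions -/

open Finset

set_option linter.unusedSectionVars false

namespace H56FP

section Gen

variable {K : Type} [Field K] [LinearOrder K] [IsStrictOrderedRing K] {n : ℕ}

/-- Weighted version of `Setup`: the edge weights `g` lie in `[0, 1]`, the missing weight `1 - g`
has sum `d i a ≤ k` at the vertex `a` of part `i`, towards each of the two other parts. -/
structure WSetup (g : M3 K n) (d : ZMod 3 → Fin n → K) (k : K) : Prop where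
  g0 : ∀ i a b, 0 ≤ g i a b
  g1 : ∀ i a b, g i a b ≤ 1
  row : ∀ i a, ∑ b, (1 - g i a b) = d i a
  col : ∀ i a, ∑ c, (1 - g (i + 2) c a) = d i a
  dk : ∀ i a, d i a ≤ k

lemma Setup.toW {g : M3 K n} {d : ZMod 3 → Fin n → K} {k : K} (S : Setup g d k) :
    WSetup g d k where
  g0 := g_nonneg S
  g1 := g_le_one S
  row := S.row
  col := S.col
  dk := S.dk

/-- A fractional triangle decomposition of the weighted tripartite graph `g`. -/
def IsDecomp (g : M3 K n) (w : Fin n → Fin n → Fin n → K) : Prop :=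
  (∀ a b c, 0 ≤ w a b c) ∧ (∀ a b, ∑ c, w a b c = g 0 a b) ∧ (∀ b c, ∑ a, w a b c = g 1 b c) ∧
    (∀ c a, ∑ b, w a b c = g 2 c a)

lemma WSetup.d0 {g : M3 K n} {d : ZMod 3 → Fin n → K} {k : K} (S : WSetup g d k) (i a) :
    0 ≤ d i a := by
  rw [← S.row]
  exact Finset.sum_nonneg fun b _ => by linarith [S.g1 i a b]

end Gen

end H56FP
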