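import Pool.Agent.H56.FP.WMain

/-! # Weighted tripartite graphs: the homotopy argument, rational decompositions -/

open Finset

set_option linter.unusedSectionVars false

namespace H56FP

variable {n : ℕ}

/-- Positivity for large `σ`. -/
lemma w_large_pos {g : M3 ℝ n} {d : ZMod 3 → Fin n → ℝ} {k : ℝ} (S : WSetup g d k)
    {σ : ℝ} (hσ : 6 * (n : ℝ) + 1 ≤ σ) {x : M3 ℝ n}
    (he : WM g x + σ • x = sg g) (i : ZMod 3) (a b : Fin n)
    (hg : g i a b ≠ 0) : 0 < x i a b := by
  have hn : (0 : ℝ) ≤ n := Nat.cast_nonneg n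
  have hpt : ∀ i a b, WM g x i a b + σ * x i a b = sg g i a b := by
    intro i a b
    have := congrFun (congrFun (congrFun he i) a) b
    simpa [Pi.add_apply, Pi.smul_apply, smul_eq_mul] using this
  have : Nonempty (ZMod 3 × Fin n × Fin n) := ⟨(i, a, b)⟩
  obtain ⟨⟨j, u, v⟩, hmax⟩ := Finite.exists_max
    (fun p : ZMod 3 × Fin n × Fin n => |x p.1 p.2.1 p.2.2|)
  set μ : ℝ := |x j u v| with hμ
  have hμ0 : 0 ≤ μ := abs_nonneg _
  have hle : ∀ i a b, |x i a b| ≤ μ := fun i a b => hmax (i, a, b)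
  have hsg : ∀ i a b, 0 ≤ sg g i a b ∧ sg g i a b ≤ 1 := by
    intro i a b
    unfold sg
    split_ifs <;> norm_num
  have hW : ∀ i a b, |WM g x i a b| ≤ 3 * n * μ := by
    intro i a b
    unfold WM
    rw [abs_mul, abs_of_nonneg (hsg i a b).1]
    have h1 : |∑ c, g (i + 1) b c * g (i + 2) c a * (x i a b + x (i + 1) b c + x (i + 2) c a)|
        ≤ 3 * n * μ := by
      have e : ∑ _c : Fin n, (3 * μ) = 3 * n * μ := by
        rw [Finset.sum_const, Finset.card_univ, Fintype.card_fin, nsmul_eq_mul]; ring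
      refine le_trans (Finset.abs_sum_le_sum_abs _ _) ?_
      rw [← e]
      refine Finset.sum_le_sum fun c _ => ?_
      rw [abs_mul]
      have p1 : |g (i + 1) b c * g (i + 2) c a| ≤ 1 := by
        rw [abs_of_nonneg (mul_nonneg (S.g0 _ _ _) (S.g0 _ _ _))]
        exact mul_le_one₀ (S.g1 _ _ _) (S.g0 _ _ _) (S.g1 _ _ _)
      have p2 : |x i a b + x (i + 1) b c + x (i + 2) c a| ≤ 3 * μ := by
        have q1 := abs_add_three (x i a b) (x (i + 1) b c) (x (i + 2) c a)
        linarith [hle i a b, hle (i + 1) b c, hle (i + 2) c a]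
      calc |g (i + 1) b c * g (i + 2) c a| * |x i a b + x (i + 1) b c + x (i + 2) c a|
          ≤ 1 * (3 * μ) := mul_le_mul p1 p2 (abs_nonneg _) zero_le_one
        _ = 3 * μ := one_mul _
    calc sg g i a b * |∑ c, g (i + 1) b c * g (i + 2) c a *
          (x i a b + x (i + 1) b c + x (i + 2) c a)|
        ≤ 1 * (3 * n * μ) := mul_le_mul (hsg i a b).2 h1 (abs_nonneg _) zero_le_one
      _ = 3 * n * μ := one_mul _
  have hσ0 : 0 < σ := by linarith
  -- bound for `μ`
  have h2 : σ * μ ≤ 1 + 3 * n * μ := by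
    have e1 : σ * μ = |σ * x j u v| := by rw [abs_mul, abs_of_pos hσ0]
    have e2 : σ * x j u v = sg g j u v - WM g x j u v := by linarith [hpt j u v]
    rw [e1, e2]
    have := abs_sub (sg g j u v) (WM g x j u v)
    have h3 : |sg g j u v| ≤ 1 := by
      rw [abs_of_nonneg (hsg j u v).1]; exact (hsg j u v).2
    linarith [hW j u v]
  have h3 : 3 * n * μ < 1 := by
    have : (3 * n + 1) * μ ≤ 1 := by nlinarith
    nlinarith
  have h5 : σ * x i a b = 1 - WM g x i a b := by
    have := hpt i a b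
    have e : sg g i a b = 1 := by unfold sg; rw [if_neg hg]
    linarith
  have h6 : 0 < σ * x i a b := by
    rw [h5]
    linarith [le_abs_self (WM g x i a b), hW i a b]
  exact (mul_pos_iff_of_pos_left hσ0).mp h6

/-- Positivity at `σ = 0`. -/
theorem w_sol_pos {g : M3 ℝ n} {d : ZMod 3 → Fin n → ℝ} {k : ℝ} (S : WSetup g d k) (hk0 : 0 ≤ k)
    (hk : 4 * k < n) (hcrit : 6 * k * NT g 0 < Ed g 0 ^ 2) :
    ∃ x ∈ WBal g, WM g x = sg g ∧ ∀ i a b, g i a b ≠ 0 → 0 < x i a b := by
  classical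
  have hex : ∀ σ : ℝ, ∃ x ∈ WBal g, WM g x + |σ| • x = sg g := fun σ =>
    w_exists_sol S hk (abs_nonneg σ) (sg_mem S)
  choose X hXm hXe using hex
  have hc : 0 < (n : ℝ) - 4 * k := by linarith
  have hcont : ∀ i a b, g i a b ≠ 0 → Continuous fun σ => X σ i a b := by
    intro i a b hgne
    have hgp : 0 < g i a b := lt_of_le_of_ne (S.g0 i a b) (Ne.symm hgne)
    have hB := wn2_nonneg S (sg g)
    have hL : ∀ σ τ, |X σ i a b - X τ i a b|
        ≤ ((wn2 g (sg g) + 1) / (((n : ℝ) - 4 * k) ^ 2 * g i a b)) * |σ - τ| := by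
      intro σ τ
      have h1 := w_lip_sol S hk (abs_nonneg σ) (abs_nonneg τ) (hXm σ) (hXm τ) (hXe σ) (hXe τ)
      have h2 := le_wn2 S (X σ - X τ) i a b
      apply abs_le_of_sq_le_sq _ (by positivity)
      have h3 : (|τ| - |σ|) ^ 2 ≤ |σ - τ| ^ 2 := by
        rw [sq_le_sq, abs_abs]
        rw [abs_sub_comm σ τ]
        exact abs_abs_sub_abs_le_abs_sub τ σ
      have h4 : ((n : ℝ) - 4 * k) ^ 4 * (g i a b * (X σ i a b - X τ i a b) ^ 2)
          ≤ |σ - τ| ^ 2 * (wn2 g (sg g) + 1) ^ 2 := by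
        have e1 : ((n : ℝ) - 4 * k) ^ 4 * (g i a b * (X σ i a b - X τ i a b) ^ 2)
            ≤ ((n : ℝ) - 4 * k) ^ 4 * wn2 g (X σ - X τ) :=
          mul_le_mul_of_nonneg_left h2 (by positivity)
        have e2 : (|τ| - |σ|) ^ 2 * wn2 g (sg g) ≤ |σ - τ| ^ 2 * (wn2 g (sg g) + 1) ^ 2 := by
          have : wn2 g (sg g) ≤ (wn2 g (sg g) + 1) ^ 2 := by nlinarith
          exact mul_le_mul h3 this hB (by positivity)
        linarith
      have h5 : ((n : ℝ) - 4 * k) ^ 4 * (g i a b ^ 2 * (X σ i a b - X τ i a b) ^ 2)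
          ≤ ((n : ℝ) - 4 * k) ^ 4 * (g i a b * (X σ i a b - X τ i a b) ^ 2) := by
        apply mul_le_mul_of_nonneg_left _ (by positivity)
        apply mul_le_mul_of_nonneg_right _ (sq_nonneg _)
        nlinarith [S.g1 i a b]
      rw [mul_pow, div_pow, div_mul_eq_mul_div, le_div_iff₀ (by positivity)]
      calc (X σ i a b - X τ i a b) ^ 2 * (((n : ℝ) - 4 * k) ^ 2 * g i a b) ^ 2
          = ((n : ℝ) - 4 * k) ^ 4 * (g i a b ^ 2 * (X σ i a b - X τ i a b) ^ 2) := by ring
        _ ≤ |σ - τ| ^ 2 * (wn2 g (sg g) + 1) ^ 2 := h5.trans h4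
        _ = (wn2 g (sg g) + 1) ^ 2 * |σ - τ| ^ 2 := by ring
    have hLip : LipschitzWith (Real.toNNReal
        ((wn2 g (sg g) + 1) / (((n : ℝ) - 4 * k) ^ 2 * g i a b))) fun σ => X σ i a b := by
      apply LipschitzWith.of_dist_le_mul
      intro σ τ
      rw [Real.dist_eq, Real.dist_eq, Real.coe_toNNReal _ (by positivity)]
      exact hL σ τ
    exact hLip.continuous
  let E : Finset (ZMod 3 × Fin n × Fin n) := Finset.univ.filter fun p => g p.1 p.2.1 p.2.2 ≠ 0
  rcases E.eq_empty_or_nonempty with hE | hE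
  · refine ⟨X 0, hXm 0, ?_, ?_⟩
    · have := hXe 0
      simpa using this
    · intro i a b h
      exfalso
      have : (i, a, b) ∈ E := by simp [E, h]
      rw [hE] at this
      simp at this
  let φ : ℝ → ℝ := fun σ => E.inf' hE fun p => X σ p.1 p.2.1 p.2.2
  have hφ : Continuous φ := Continuous.finset_inf'_apply hE fun p hp =>
    hcont p.1 p.2.1 p.2.2 (by simpa [E] using hp)
  have hnz : ∀ σ : ℝ, 0 ≤ σ → φ σ ≠ 0 := by
    intro σ hσ h0
    obtain ⟨p, hp, hpe⟩ := Finset.exists_mem_eq_inf' hE fun p => X σ p.1 p.2.1 p.2.2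
    have hg : g p.1 p.2.1 p.2.2 ≠ 0 := by simpa [E] using hp
    have hx0 : ∀ i a b, 0 ≤ X σ i a b := by
      intro i a b
      by_cases h : g i a b = 0
      · have := (hXm σ).1 i a b
        unfold sg at this
        rw [if_pos h, zero_mul] at this
        exact this.le
      · have hmem : (i, a, b) ∈ E := by simp [E, h]
        have := Finset.inf'_le (fun p : ZMod 3 × Fin n × Fin n => X σ p.1 p.2.1 p.2.2) hmem
        have h1 : φ σ ≤ X σ i a b := this
        linarith
    have he := hXe σ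
    rw [abs_of_nonneg hσ] at he
    refine w_no_zero S hk0 hk hcrit hσ (hXm σ) he hx0 p.1 p.2.1 p.2.2 hg ?_
    rw [← hpe]
    exact h0
  have hbig : 0 < φ (6 * (n : ℝ) + 1) := by
    obtain ⟨p, hp, hpe⟩ := Finset.exists_mem_eq_inf' hE
      fun p => X (6 * (n : ℝ) + 1) p.1 p.2.1 p.2.2
    have hg : g p.1 p.2.1 p.2.2 ≠ 0 := by simpa [E] using hp
    have hpos : (0 : ℝ) ≤ 6 * (n : ℝ) + 1 := by positivity
    have he := hXe (6 * (n : ℝ) + 1)
    rw [abs_of_nonneg hpos] at he
    have := w_large_pos S le_rfl he p.1 p.2.1 p.2.2 hg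
    rw [← hpe] at this
    exact this
  have hpos0 : 0 < φ 0 := by
    by_contra hcon
    push Not at hcon
    have hle : (0 : ℝ) ≤ 6 * (n : ℝ) + 1 := by positivity
    have hiv := intermediate_value_Icc hle hφ.continuousOn
    obtain ⟨σ, hσ, hσ0⟩ := hiv ⟨hcon, hbig.le⟩
    exact hnz σ hσ.1 hσ0
  refine ⟨X 0, hXm 0, ?_, ?_⟩
  · have := hXe 0
    simpa using this
  · intro i a b h
    have hmem : (i, a, b) ∈ E := by simp [E, h]
    have := Finset.inf'_le (fun p : ZMod 3 × Fin n × Fin n => X 0 p.1 p.2.1 p.2.2) hmem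
    exact lt_of_lt_of_le hpos0 this

lemma castM_wsetup {g : M3 ℚ n} {d : ZMod 3 → Fin n → ℚ} {k : ℚ} (S : WSetup g d k) :
    WSetup (castM g) (fun i a => (d i a : ℝ)) (k : ℝ) where
  g0 i a b := by unfold castM; exact_mod_cast S.g0 i a b
  g1 i a b := by unfold castM; exact_mod_cast S.g1 i a b
  row i a := by
    have := congrArg (fun q : ℚ => (q : ℝ)) (S.row i a)
    simpa [castM] using this
  col i a := by
    have := congrArg (fun q : ℚ => (q : ℝ)) (S.col i a)
    simpa [castM] using this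
  dk i a := by exact_mod_cast S.dk i a

lemma castM_sg (g : M3 ℚ n) : sg (castM g) = castM (sg g) := by
  funext i a b
  unfold sg castM
  by_cases h : g i a b = 0
  · simp [h]
  · have h' : ((g i a b : ℚ) : ℝ) ≠ 0 := by exact_mod_cast h
    simp [h]

lemma castM_wbal {g x : M3 ℚ n} (hx : x ∈ WBal g) : castM x ∈ WBal (castM g) := by
  refine ⟨fun i a b => ?_, fun i a => ?_⟩
  · have := hx.1 i a b
    rw [castM_sg]
    unfold castM
    exact_mod_cast this
  · have := hx.2 i a
    unfold castM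
    exact_mod_cast this

lemma castM_WM (g x : M3 ℚ n) : WM (castM g) (castM x) = castM (WM g x) := by
  funext i a b
  unfold WM
  rw [castM_sg]
  unfold castM
  push_cast
  rfl

/-- **Weighted criterion.** -/
theorem wcore {g : M3 ℚ n} {d : ZMod 3 → Fin n → ℚ} {k : ℚ} (S : WSetup g d k) (hk0 : 0 ≤ k)
    (hk : 4 * k < n) (hcrit : 6 * k * NT g 0 < Ed g 0 ^ 2) : ∃ w, IsDecomp g w := by
  obtain ⟨y, hy, hye⟩ := w_exists_sol S hk le_rfl (sg_mem S)
  have hye' : WM g y = sg g := by simpa using hye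
  have hkR : 4 * (k : ℝ) < n := by exact_mod_cast hk
  have hcR : 6 * (k : ℝ) * NT (castM g) 0 < Ed (castM g) 0 ^ 2 := by
    have h1 : NT (castM g) 0 = ((NT g 0 : ℚ) : ℝ) := by
      unfold NT castM; push_cast; rfl
    have h2 : Ed (castM g) 0 = ((Ed g 0 : ℚ) : ℝ) := by
      unfold Ed castM; push_cast; rfl
    rw [h1, h2]
    exact_mod_cast hcrit
  obtain ⟨x, hx, hxe, hxp⟩ := w_sol_pos (castM_wsetup S) (by exact_mod_cast hk0) hkR hcR
  have heq : castM y = x := by
    refine w_unique_sol (castM_wsetup S) hkR le_rfl (castM_wbal hy) hx ?_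
    rw [castM_WM, hye', hxe, castM_sg]
    simp
  have hy0 : ∀ i a b, 0 ≤ y i a b := by
    intro i a b
    by_cases h : g i a b = 0
    · have := hy.1 i a b
      unfold sg at this
      rw [if_pos h, zero_mul] at this
      exact this.le
    · have h1 : castM g i a b ≠ 0 := by unfold castM; exact_mod_cast h
      have h2 := hxp i a b h1
      rw [← heq] at h2
      unfold castM at h2
      exact_mod_cast h2.le
  have key : ∀ i a b, ∑ c, g i a b * g (i + 1) b c * g (i + 2) c a *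
      (y i a b + y (i + 1) b c + y (i + 2) c a) = g i a b := by
    intro i a b
    rw [← gWM, hye', g_sg]
  refine ⟨fun a b c => g 0 a b * g 1 b c * g 2 c a * (y 0 a b + y 1 b c + y 2 c a), ?_, ?_, ?_, ?_⟩
  · intro a b c
    have h0 := w3_nonneg S a b c
    have := hy0 0 a b
    have := hy0 1 b c
    have := hy0 2 c a
    positivity
  · intro a b
    have h := key 0 a b
    rw [z01, z02] at h
    exact h
  · intro b c
    have h := key 1 b c
    rw [z11, z12] at h
    rw [← h]
    refine Finset.sum_congr rfl fun a _ => ?_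
    ring
  · intro c a
    have h := key 2 c a
    rw [z21, z22] at h
    rw [← h]
    refine Finset.sum_congr rfl fun b _ => ?_
    ring

end H56FP
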