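import Pool.Agent.H56.FP.WDefs

/-! # Weighted tripartite graphs: the operator, positivity, existence -/

open Finset

set_option linter.unusedSectionVars false

namespace H56FP

section Gen

variable {K : Type} [Field K] [LinearOrder K] [IsStrictOrderedRing K] {n : ℕ}

/-- the support of `g` -/
def sg (g : M3 K n) : M3 K n := fun i a b => if g i a b = 0 then 0 else 1

lemma sg_sq (g : M3 K n) (i a b) : sg g i a b * sg g i a b = sg g i a b := by
  unfold sg; split_ifs <;> simp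

lemma g_sg (g : M3 K n) (i a b) : g i a b * sg g i a b = g i a b := by
  unfold sg; split_ifs with h
  · rw [h]; simp
  · simp

/-- The weighted triangle operator. -/
def WM (g x : M3 K n) : M3 K n := fun i a b =>
  sg g i a b * ∑ c, g (i + 1) b c * g (i + 2) c a * (x i a b + x (i + 1) b c + x (i + 2) c a)

/-- Balanced functions. -/
def WBal (g : M3 K n) : Submodule K (M3 K n) where
  carrier := {x | (∀ i a b, sg g i a b * x i a b = x i a b) ∧
    ∀ i a, ∑ b, g i a b * x i a b = ∑ c, g (i + 2) c a * x (i + 2) c a}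
  add_mem' := by
    rintro x y ⟨hx, hx'⟩ ⟨hy, hy'⟩
    refine ⟨fun i a b => ?_, fun i a => ?_⟩
    · simp only [Pi.add_apply, mul_add, hx, hy]
    · simp only [Pi.add_apply, mul_add, Finset.sum_add_distrib, hx', hy']
  zero_mem' := by
    refine ⟨fun i a b => by simp, fun i a => by simp⟩
  smul_mem' := by
    rintro c x ⟨hx, hx'⟩
    refine ⟨fun i a b => ?_, fun i a => ?_⟩
    · simp only [Pi.smul_apply, smul_eq_mul]
      rw [mul_left_comm, hx]
    · simp only [Pi.smul_apply, smul_eq_mul, mul_left_comm _ c, ← Finset.mul_sum, hx']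

/-- the function `g x` -/
def ug (g x : M3 K n) : M3 K n := fun i a b => g i a b * x i a b

/-- weighted sum of squares -/
def wn2 (g x : M3 K n) : K := ∑ i, ∑ a, ∑ b, g i a b * x i a b ^ 2

/-- weighted inner product -/
def wip (g x y : M3 K n) : K := ∑ i, ∑ a, ∑ b, g i a b * x i a b * y i a b

lemma wcommon {g : M3 K n} {d : ZMod 3 → Fin n → K} {k : K} (S : WSetup g d k) (i : ZMod 3)
    (a b : Fin n) :
    (n : K) - d (i + 1) b - d i a ≤ ∑ c, g (i + 1) b c * g (i + 2) c a := by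
  have h1 : (n : K) - d (i + 1) b - d i a
      = ∑ c : Fin n, (1 - (1 - g (i + 1) b c) - (1 - g (i + 2) c a)) := by
    rw [Finset.sum_sub_distrib, Finset.sum_sub_distrib, S.row, S.col]
    simp
  rw [h1]
  refine Finset.sum_le_sum (fun c _ => ?_)
  nlinarith [S.g1 (i + 1) b c, S.g1 (i + 2) c a]

lemma w_expand (g x : M3 K n) :
    wip g x (WM g x) = ∑ i, (∑ a, ∑ b, (g i a b * x i a b ^ 2) * ∑ c, g (i + 1) b c * g (i + 2) c a)
      + 2 * ∑ i, Cc g (ug g x) i := by
  have key : ∀ i : ZMod 3, ∑ a, ∑ b, g i a b * x i a b * WM g x i a b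
      = (∑ a, ∑ b, (g i a b * x i a b ^ 2) * ∑ c, g (i + 1) b c * g (i + 2) c a)
        + Cc g (ug g x) i + Cc g (ug g x) (i + 2) := by
    intro i
    rw [← cross3, Cc, ← Finset.sum_add_distrib, ← Finset.sum_add_distrib]
    refine Finset.sum_congr rfl fun a _ => ?_
    rw [← Finset.sum_add_distrib, ← Finset.sum_add_distrib]
    refine Finset.sum_congr rfl fun b _ => ?_
    unfold WM ug
    have h1 : g i a b * x i a b * (sg g i a b * ∑ c, g (i + 1) b c * g (i + 2) c a *
        (x i a b + x (i + 1) b c + x (i + 2) c a))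
      = g i a b * x i a b * ∑ c, g (i + 1) b c * g (i + 2) c a *
        (x i a b + x (i + 1) b c + x (i + 2) c a) := by
      linear_combination (x i a b * ∑ c, g (i + 1) b c * g (i + 2) c a *
        (x i a b + x (i + 1) b c + x (i + 2) c a)) * g_sg g i a b
    rw [h1, Finset.mul_sum, Finset.mul_sum, ← Finset.sum_add_distrib, ← Finset.sum_add_distrib]
    refine Finset.sum_congr rfl fun c _ => ?_
    ring
  unfold wip
  rw [Finset.sum_congr rfl fun i _ => key i, Finset.sum_add_distrib, Finset.sum_add_distrib,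
    sum_shift (fun i => Cc g (ug g x) i)]
  ring

lemma pair_bound {p q s t : K} (hp : 0 ≤ p) (hp1 : p ≤ 1) (hq : 0 ≤ q) (hq1 : q ≤ 1) :
    0 ≤ (p * s ^ 2 / 2 + q * t ^ 2 / 2) - (p * s) * (q * t) := by
  have h1 : 0 ≤ p * q * (s - t) ^ 2 := by positivity
  have h2 : 0 ≤ p * (1 - q) * s ^ 2 :=
    mul_nonneg (mul_nonneg hp (by linarith)) (sq_nonneg _)
  have h3 : 0 ≤ q * (1 - p) * t ^ 2 :=
    mul_nonneg (mul_nonneg hq (by linarith)) (sq_nonneg _)
  nlinarith

lemma w_cross_lower {g : M3 K n} {d : ZMod 3 → Fin n → K} {k : K} (S : WSetup g d k)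
    (x : M3 K n)
    (hb : ∀ i a, ∑ b, g i a b * x i a b = ∑ c, g (i + 2) c a * x (i + 2) c a) (i : ZMod 3) :
    -(k / 2) * ((∑ a, ∑ b, g i a b * x i a b ^ 2) + ∑ a, ∑ b, g (i + 1) a b * x (i + 1) a b ^ 2)
      ≤ Cc g (ug g x) i := by
  have h1 : ∑ a, ∑ b, ∑ c, (ug g x i a b * ug g x (i + 1) b c
      - (g i a b * x i a b ^ 2 / 2 + g (i + 1) b c * x (i + 1) b c ^ 2 / 2)
        * (1 - g (i + 2) c a)) ≤ Cc g (ug g x) i := by
    unfold Cc
    refine Finset.sum_le_sum fun a _ => Finset.sum_le_sum fun b _ =>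
      Finset.sum_le_sum fun c _ => ?_
    unfold ug
    have h := pair_bound (s := x i a b) (t := x (i + 1) b c) (S.g0 i a b) (S.g1 i a b)
      (S.g0 (i + 1) b c) (S.g1 (i + 1) b c)
    have h' := mul_nonneg (by linarith [S.g1 (i + 2) c a] : (0 : K) ≤ 1 - g (i + 2) c a) h
    nlinarith
  refine le_trans ?_ h1
  have h2 : ∑ a, ∑ b, ∑ c, (ug g x i a b * ug g x (i + 1) b c
      - (g i a b * x i a b ^ 2 / 2 + g (i + 1) b c * x (i + 1) b c ^ 2 / 2)
        * (1 - g (i + 2) c a))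
      = (∑ a, ∑ b, ∑ c, ug g x i a b * ug g x (i + 1) b c)
        - (∑ a, ∑ b, ∑ c, g i a b * x i a b ^ 2 / 2 * (1 - g (i + 2) c a))
        - ∑ a, ∑ b, ∑ c, g (i + 1) b c * x (i + 1) b c ^ 2 / 2 * (1 - g (i + 2) c a) := by
    simp only [← Finset.sum_sub_distrib]
    refine Finset.sum_congr rfl fun a _ => Finset.sum_congr rfl fun b _ =>
      Finset.sum_congr rfl fun c _ => ?_
    ring
  have h3 : 0 ≤ ∑ a, ∑ b, ∑ c, ug g x i a b * ug g x (i + 1) b c := by
    rw [Finset.sum_comm]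
    refine Finset.sum_nonneg fun b _ => ?_
    have : ∑ a, ∑ c, ug g x i a b * ug g x (i + 1) b c
        = (∑ c, ug g x (i + 1) b c) * ∑ c, ug g x (i + 1) b c := by
      have h := hb (i + 1) b
      rw [e12] at h
      rw [← Finset.sum_mul_sum]
      unfold ug
      rw [h]
    rw [this]
    exact mul_self_nonneg _
  have h4 : ∑ a, ∑ b, ∑ c, g i a b * x i a b ^ 2 / 2 * (1 - g (i + 2) c a)
      ≤ k / 2 * ∑ a, ∑ b, g i a b * x i a b ^ 2 := by
    rw [Finset.mul_sum]
    refine Finset.sum_le_sum fun a _ => ?_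
    rw [Finset.mul_sum]
    refine Finset.sum_le_sum fun b _ => ?_
    rw [← Finset.mul_sum, S.col]
    have := mul_nonneg (S.g0 i a b) (sq_nonneg (x i a b))
    nlinarith [S.dk i a]
  have h5 : ∑ a, ∑ b, ∑ c, g (i + 1) b c * x (i + 1) b c ^ 2 / 2 * (1 - g (i + 2) c a)
      ≤ k / 2 * ∑ a, ∑ b, g (i + 1) a b * x (i + 1) a b ^ 2 := by
    have : ∑ a, ∑ b, ∑ c, g (i + 1) b c * x (i + 1) b c ^ 2 / 2 * (1 - g (i + 2) c a)
        = ∑ b, ∑ c, ∑ a, g (i + 1) b c * x (i + 1) b c ^ 2 / 2 * (1 - g (i + 2) c a) := by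
      rw [Finset.sum_comm]
      exact Finset.sum_congr rfl fun b _ => Finset.sum_comm
    rw [this, Finset.mul_sum]
    refine Finset.sum_le_sum fun b _ => ?_
    rw [Finset.mul_sum]
    refine Finset.sum_le_sum fun c _ => ?_
    rw [← Finset.mul_sum, S.row]
    have := mul_nonneg (S.g0 (i + 1) b c) (sq_nonneg (x (i + 1) b c))
    nlinarith [S.dk (i + 2) c]
  rw [h2]
  linarith

theorem wpd {g : M3 K n} {d : ZMod 3 → Fin n → K} {k : K} (S : WSetup g d k) (x : M3 K n)
    (hx : x ∈ WBal g) : ((n : K) - 4 * k) * wn2 g x ≤ wip g x (WM g x) := by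
  rw [w_expand g x]
  have h1 : ((n : K) - 2 * k) * wn2 g x
      ≤ ∑ i, (∑ a, ∑ b, (g i a b * x i a b ^ 2) * ∑ c, g (i + 1) b c * g (i + 2) c a) := by
    unfold wn2
    rw [Finset.mul_sum]
    refine Finset.sum_le_sum fun i _ => ?_
    rw [Finset.mul_sum]
    refine Finset.sum_le_sum fun a _ => ?_
    rw [Finset.mul_sum]
    refine Finset.sum_le_sum fun b _ => ?_
    have h := wcommon S i a b
    have h1 := S.dk i a
    have h2 := S.dk (i + 1) b
    rw [mul_comm]
    exact mul_le_mul_of_nonneg_left (by linarith) (mul_nonneg (S.g0 i a b) (sq_nonneg _))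
  have h2 : -(k / 2) * (2 * wn2 g x) ≤ ∑ i, Cc g (ug g x) i := by
    refine le_trans (le_of_eq ?_) (Finset.sum_le_sum fun i _ => w_cross_lower S x hx.2 i)
    rw [← Finset.mul_sum, Finset.sum_add_distrib,
      sum_shift1 (fun i => ∑ a, ∑ b, g i a b * x i a b ^ 2)]
    unfold wn2
    ring
  linarith

lemma wn2_nonneg {g : M3 K n} {d : ZMod 3 → Fin n → K} {k : K} (S : WSetup g d k) (x : M3 K n) :
    0 ≤ wn2 g x := by
  unfold wn2
  exact Finset.sum_nonneg fun i _ => Finset.sum_nonneg fun a _ =>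
    Finset.sum_nonneg fun b _ => mul_nonneg (S.g0 i a b) (sq_nonneg _)

lemma le_wn2 {g : M3 K n} {d : ZMod 3 → Fin n → K} {k : K} (S : WSetup g d k) (x : M3 K n)
    (i a b) : g i a b * x i a b ^ 2 ≤ wn2 g x := by
  unfold wn2
  have hp : ∀ i a b, 0 ≤ g i a b * x i a b ^ 2 := fun i a b =>
    mul_nonneg (S.g0 i a b) (sq_nonneg _)
  have h1 : g i a b * x i a b ^ 2 ≤ ∑ b, g i a b * x i a b ^ 2 :=
    Finset.single_le_sum (f := fun b => g i a b * x i a b ^ 2) (fun b _ => hp i a b)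
      (Finset.mem_univ b)
  have h2 : ∑ b, g i a b * x i a b ^ 2 ≤ ∑ a, ∑ b, g i a b * x i a b ^ 2 :=
    Finset.single_le_sum (f := fun a => ∑ b, g i a b * x i a b ^ 2)
      (fun a _ => Finset.sum_nonneg fun b _ => hp i a b) (Finset.mem_univ a)
  have h3 : ∑ a, ∑ b, g i a b * x i a b ^ 2 ≤ ∑ i, ∑ a, ∑ b, g i a b * x i a b ^ 2 :=
    Finset.single_le_sum (f := fun i => ∑ a, ∑ b, g i a b * x i a b ^ 2)
      (fun i _ => Finset.sum_nonneg fun a _ => Finset.sum_nonneg fun b _ => hp i a b)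
      (Finset.mem_univ i)
  linarith

lemma wn2_eq_zero {g : M3 K n} {d : ZMod 3 → Fin n → K} {k : K} (S : WSetup g d k) {x : M3 K n}
    (hx : x ∈ WBal g) (h : wn2 g x ≤ 0) : x = 0 := by
  funext i a b
  by_cases h0 : g i a b = 0
  · have := hx.1 i a b
    unfold sg at this
    rw [if_pos h0, zero_mul] at this
    exact this.symm
  · have h1 := le_wn2 S x i a b
    have h2 : g i a b * x i a b ^ 2 = 0 :=
      le_antisymm (by linarith) (mul_nonneg (S.g0 i a b) (sq_nonneg _))
    rcases mul_eq_zero.mp h2 with h3 | h3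
    · exact absurd h3 h0
    · simpa using h3

/-- The weighted operator as a linear map. -/
def WML (g : M3 K n) : M3 K n →ₗ[K] M3 K n where
  toFun := WM g
  map_add' x y := by
    funext i a b
    simp only [WM, Pi.add_apply]
    rw [← mul_add, ← Finset.sum_add_distrib]
    congr 1
    refine Finset.sum_congr rfl fun c _ => ?_
    ring
  map_smul' r x := by
    funext i a b
    simp only [WM, Pi.smul_apply, smul_eq_mul, RingHom.id_apply]
    rw [mul_left_comm, Finset.mul_sum (s := univ) (a := r)]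
    congr 1
    refine Finset.sum_congr rfl fun c _ => ?_
    ring

lemma WM_mem {g x : M3 K n} : WM g x ∈ WBal g := by
  refine ⟨fun i a b => ?_, fun i a => ?_⟩
  · unfold WM
    rw [← mul_assoc, sg_sq]
  · have h1 : ∑ b, g i a b * WM g x i a b = ∑ b, ∑ c, g i a b * g (i + 1) b c * g (i + 2) c a *
        (x i a b + x (i + 1) b c + x (i + 2) c a) := by
      refine Finset.sum_congr rfl fun b _ => ?_
      unfold WM
      rw [← mul_assoc, g_sg, Finset.mul_sum]
      refine Finset.sum_congr rfl fun c _ => ?_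
      ring
    have h2 : ∑ c, g (i + 2) c a * WM g x (i + 2) c a
        = ∑ c, ∑ b, g i a b * g (i + 1) b c * g (i + 2) c a *
        (x i a b + x (i + 1) b c + x (i + 2) c a) := by
      refine Finset.sum_congr rfl fun c _ => ?_
      unfold WM
      rw [← mul_assoc, g_sg, Finset.mul_sum]
      refine Finset.sum_congr rfl fun b _ => ?_
      rw [e21, e22]
      ring
    rw [h1, h2, Finset.sum_comm]

lemma sg_mem {g : M3 K n} {d : ZMod 3 → Fin n → K} {k : K} (S : WSetup g d k) :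
    sg g ∈ WBal g := by
  refine ⟨fun i a b => sg_sq g i a b, fun i a => ?_⟩
  have h1 := S.row i a
  have h2 := S.col i a
  rw [Finset.sum_sub_distrib] at h1 h2
  simp only [g_sg]
  linarith

lemma wip_self (g x : M3 K n) : wip g x x = wn2 g x := by
  unfold wip wn2
  refine Finset.sum_congr rfl fun i _ => Finset.sum_congr rfl fun a _ =>
    Finset.sum_congr rfl fun b _ => ?_
  ring

lemma wip_add (g x y z : M3 K n) : wip g x (y + z) = wip g x y + wip g x z := by
  unfold wip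
  simp only [Pi.add_apply, mul_add, Finset.sum_add_distrib]

lemma wip_smul (g x y : M3 K n) (r : K) : wip g x (r • y) = r * wip g x y := by
  unfold wip
  simp only [Pi.smul_apply, smul_eq_mul, Finset.mul_sum]
  refine Finset.sum_congr rfl fun i _ => Finset.sum_congr rfl fun a _ =>
    Finset.sum_congr rfl fun b _ => ?_
  ring

lemma wip_le {g : M3 K n} {d : ZMod 3 → Fin n → K} {k : K} (S : WSetup g d k) (x y : M3 K n)
    (c : K) : 2 * c * wip g x y ≤ wn2 g y + c ^ 2 * wn2 g x := by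
  unfold wip wn2
  simp only [Finset.mul_sum, ← Finset.sum_add_distrib]
  refine Finset.sum_le_sum fun i _ => Finset.sum_le_sum fun a _ =>
    Finset.sum_le_sum fun b _ => ?_
  nlinarith [mul_nonneg (S.g0 i a b) (sq_nonneg (y i a b - c * x i a b))]

lemma wnorm_est {g : M3 K n} {d : ZMod 3 → Fin n → K} {k : K} (S : WSetup g d k) {x y : M3 K n}
    (hx : x ∈ WBal g) {σ c : K} (hc : 0 < c) (hc' : c ≤ (n : K) - 4 * k + σ)
    (he : WM g x + σ • x = y) : c ^ 2 * wn2 g x ≤ wn2 g y := by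
  have h1 : ((n : K) - 4 * k + σ) * wn2 g x ≤ wip g x (WM g x + σ • x) := by
    rw [wip_add, wip_smul, wip_self]
    have := wpd S x hx
    linarith
  rw [he] at h1
  have h2 := wip_le S x y c
  have h3 := wn2_nonneg S x
  have h4 : c * wn2 g x ≤ wip g x y := le_trans (mul_le_mul_of_nonneg_right hc' h3) h1
  nlinarith

lemma wn2_zero (g : M3 K n) : wn2 g 0 = 0 := by simp [wn2]

lemma w_inj {g : M3 K n} {d : ZMod 3 → Fin n → K} {k : K} (S : WSetup g d k)
    (hk : 4 * k < n) {σ : K} (hσ : 0 ≤ σ) {x : M3 K n} (hx : x ∈ WBal g)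
    (h0 : WM g x + σ • x = 0) : x = 0 := by
  have hc : 0 < (n : K) - 4 * k + σ := by linarith
  have h1 := wnorm_est S hx hc le_rfl h0
  rw [wn2_zero] at h1
  have h3 : wn2 g x ≤ 0 := by
    by_contra hcon
    push Not at hcon
    have : 0 < ((n : K) - 4 * k + σ) ^ 2 * wn2 g x := by positivity
    linarith
  exact wn2_eq_zero S hx h3

theorem w_exists_sol {g : M3 K n} {d : ZMod 3 → Fin n → K} {k : K} (S : WSetup g d k)
    (hk : 4 * k < n) {σ : K} (hσ : 0 ≤ σ) {y : M3 K n} (hy : y ∈ WBal g) :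
    ∃ x ∈ WBal g, WM g x + σ • x = y := by
  have hmaps : ∀ x ∈ WBal g, (WML g + σ • (LinearMap.id : M3 K n →ₗ[K] M3 K n)) x ∈ WBal g := by
    intro x hx
    exact (WBal g).add_mem WM_mem ((WBal g).smul_mem σ hx)
  let B := (WML g + σ • (LinearMap.id : M3 K n →ₗ[K] M3 K n)).restrict hmaps
  have hinj : Function.Injective B := by
    rw [← LinearMap.ker_eq_bot, LinearMap.ker_eq_bot']
    intro x hx0
    have h0 : WM g x.1 + σ • x.1 = 0 := congrArg Subtype.val hx0
    exact Subtype.ext (w_inj S hk hσ x.2 h0)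
  have hsurj : Function.Surjective B := LinearMap.injective_iff_surjective.mp hinj
  obtain ⟨x, hx⟩ := hsurj ⟨y, hy⟩
  exact ⟨x.1, x.2, congrArg Subtype.val hx⟩

theorem w_unique_sol {g : M3 K n} {d : ZMod 3 → Fin n → K} {k : K} (S : WSetup g d k)
    (hk : 4 * k < n) {σ : K} (hσ : 0 ≤ σ) {x x' : M3 K n} (hx : x ∈ WBal g) (hx' : x' ∈ WBal g)
    (h : WM g x + σ • x = WM g x' + σ • x') : x = x' := by
  have h0 : WM g (x - x') + σ • (x - x') = 0 := by
    have : WM g (x - x') = WM g x - WM g x' := (WML g).map_sub x x'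
    rw [this, smul_sub, sub_add_sub_comm, h, sub_self]
  exact sub_eq_zero.mp (w_inj S hk hσ ((WBal g).sub_mem hx hx') h0)

theorem w_lip_sol {g : M3 K n} {d : ZMod 3 → Fin n → K} {k : K} (S : WSetup g d k)
    (hk : 4 * k < n) {σ τ : K} (hσ : 0 ≤ σ) (hτ : 0 ≤ τ) {x y z : M3 K n} (hx : x ∈ WBal g)
    (hy : y ∈ WBal g) (h1 : WM g x + σ • x = z) (h2 : WM g y + τ • y = z) :
    ((n : K) - 4 * k) ^ 4 * wn2 g (x - y) ≤ (τ - σ) ^ 2 * wn2 g z := by
  have hc : 0 < (n : K) - 4 * k := by linarith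
  have hd : WM g (x - y) + σ • (x - y) = (τ - σ) • y := by
    have : WM g (x - y) = WM g x - WM g y := (WML g).map_sub x y
    rw [this, smul_sub, sub_add_sub_comm, h1, ← h2, sub_smul]
    abel
  have e1 := wnorm_est S ((WBal g).sub_mem hx hy) hc (by linarith) hd
  have e2 := wnorm_est S hy hc (by linarith) h2
  have e3 : wn2 g ((τ - σ) • y) = (τ - σ) ^ 2 * wn2 g y := by
    unfold wn2
    simp only [Pi.smul_apply, smul_eq_mul, Finset.mul_sum, mul_pow]
    refine Finset.sum_congr rfl fun i _ => Finset.sum_congr rfl fun a _ =>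
      Finset.sum_congr rfl fun b _ => ?_
    ring
  rw [e3] at e1
  calc ((n : K) - 4 * k) ^ 4 * wn2 g (x - y)
      = ((n : K) - 4 * k) ^ 2 * (((n : K) - 4 * k) ^ 2 * wn2 g (x - y)) := by ring
    _ ≤ ((n : K) - 4 * k) ^ 2 * ((τ - σ) ^ 2 * wn2 g y) :=
        mul_le_mul_of_nonneg_left e1 (sq_nonneg _)
    _ = (τ - σ) ^ 2 * (((n : K) - 4 * k) ^ 2 * wn2 g y) := by ring
    _ ≤ (τ - σ) ^ 2 * wn2 g z := mul_le_mul_of_nonneg_left e2 (sq_nonneg _)

end Gen

end H56FP
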